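import Pool.Agent.MP_2a5a28_nt.H9.Large
import Pool.Agent.MP_2a5a28_nt.H39.PartM

/-! Counting by the radical: the two ranges of the height put together. -/

set_option autoImplicit false

namespace Pool.Agent.MP_2a5a28_nt.H9

open H37

theorem count_O (ε : ℝ) (hε : 0 < ε) : ∃ C : ℝ, ∀ Y : ℝ, 1 ≤ Y → ∀ S : Finset (O × O × O),
    (∀ a b c : O, (a, b, c) ∈ S → ∃ x₁ y₁ x₂ y₂ x₃ y₃ : ℤ,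
      (a : ℝ) = (x₁ : ℝ) + (y₁ : ℝ) * Real.goldenRatio ∧
      (b : ℝ) = (x₂ : ℝ) + (y₂ : ℝ) * Real.goldenRatio ∧
      (c : ℝ) = (x₃ : ℝ) + (y₃ : ℝ) * Real.goldenRatio ∧
      a + b + c = 0 ∧ Ideal.span ({a, b, c} : Set O) = ⊤ ∧ a * b * c ≠ 0 ∧
      rad (a * b * c) ≤ Y ∧ rad (a * b * c) ≤ ht x₁ y₁ x₂ y₂ x₃ y₃) →
    (∀ a b c : O, ∀ u : Oˣ, (a, b, c) ∈ S → ((u : O) * a, (u : O) * b, (u : O) * c) ∈ S → u = 1) →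
    (S.card : ℝ) ≤ C * Y ^ (5 / 9 + ε) := by
  obtain ⟨C, H⟩ := glue (fun (t : O × O × O) r H => ∃ x₁ y₁ x₂ y₂ x₃ y₃ : ℤ,
      (t.1 : ℝ) = (x₁ : ℝ) + (y₁ : ℝ) * Real.goldenRatio ∧
      (t.2.1 : ℝ) = (x₂ : ℝ) + (y₂ : ℝ) * Real.goldenRatio ∧
      (t.2.2 : ℝ) = (x₃ : ℝ) + (y₃ : ℝ) * Real.goldenRatio ∧
      t.1 + t.2.1 + t.2.2 = 0 ∧ Ideal.span ({t.1, t.2.1, t.2.2} : Set O) = ⊤ ∧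
      t.1 * t.2.1 * t.2.2 ≠ 0 ∧ rad (t.1 * t.2.1 * t.2.2) = r ∧ ht x₁ y₁ x₂ y₂ x₃ y₃ = H ∧ r ≤ H)
    (fun S => ∀ a b c : O, ∀ u : Oˣ, (a, b, c) ∈ S →
      ((u : O) * a, (u : O) * b, (u : O) * c) ∈ S → u = 1)
    (fun S S' h k a b c u h1 h2 => k a b c u (h h1) (h h2)) ε (by
      obtain ⟨A, C, Y₀, h0, H⟩ := large_O ε hε
      refine ⟨A, C, Y₀, h0, fun Y hY S h => H Y hY S fun a b c he => ?_⟩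
      obtain ⟨_, _, ⟨x₁, y₁, x₂, y₂, x₃, y₃, h1, h2, h3, h4, h5, h6, rfl, rfl, -⟩, h7, h8⟩ := h _ he
      exact ⟨x₁, y₁, x₂, y₂, x₃, y₃, h1, h2, h3, h4, h5, h6, h7, h8⟩) (fun A => by
      obtain ⟨C, H⟩ := H39.partM_O ε A hε
      refine ⟨C, fun Y hY S h => H Y hY S fun a b c he => ?_⟩
      obtain ⟨_, _, ⟨x₁, y₁, x₂, y₂, x₃, y₃, h1, h2, h3, h4, h5, h6, rfl, rfl, h9⟩, h7, h8⟩ := h _ he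
      exact ⟨x₁, y₁, x₂, y₂, x₃, y₃, h1, h2, h3, h4, h5, h6, h8, h9, h7⟩) hε
  refine ⟨C, fun Y hY S h => H Y hY S fun ⟨a, b, c⟩ he => ?_⟩
  obtain ⟨x₁, y₁, x₂, y₂, x₃, y₃, h1, h2, h3, h4, h5, h6, h7, h8⟩ := h a b c he
  exact ⟨_, _, ⟨x₁, y₁, x₂, y₂, x₃, y₃, h1, h2, h3, h4, h5, h6, rfl, rfl, h8⟩, h7⟩

theorem count_Z (ε : ℝ) (hε : 0 < ε) : ∃ C : ℝ, ∀ Y : ℝ, 1 ≤ Y → ∀ S : Finset (ℕ × ℕ × ℕ),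
    (∀ a b c : ℕ, (a, b, c) ∈ S → 1 ≤ a ∧ 1 ≤ b ∧ a + b = c ∧ Nat.Coprime a b ∧
      ((∏ p ∈ (a * b * c).primeFactors, p : ℕ) : ℝ) ≤ Y ∧ ∏ p ∈ (a * b * c).primeFactors, p ≤ c) →
    (S.card : ℝ) ≤ C * Y ^ (5 / 9 + ε) := by
  obtain ⟨C, H⟩ := glue (fun (t : ℕ × ℕ × ℕ) r H => 1 ≤ t.1 ∧ 1 ≤ t.2.1 ∧ t.1 + t.2.1 = t.2.2 ∧
      Nat.Coprime t.1 t.2.1 ∧ ∏ p ∈ (t.1 * t.2.1 * t.2.2).primeFactors, p ≤ t.2.2 ∧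
      ((∏ p ∈ (t.1 * t.2.1 * t.2.2).primeFactors, p : ℕ) : ℝ) = r ∧ (t.2.2 : ℝ) = H)
    (fun _ => True) (fun _ _ _ _ => trivial) ε (by
      obtain ⟨A, C, Y₀, h0, H⟩ := large_Z ε hε
      refine ⟨A, C, Y₀, h0, fun Y hY S h _ => H Y hY S fun a b c he => ?_⟩
      obtain ⟨_, _, ⟨h1, h2, h3, h4, -, rfl, rfl⟩, h7, h8⟩ := h _ he
      exact ⟨h1, h2, h3, h4, h7, h8⟩) (fun A => by
      obtain ⟨C, H⟩ := H39.partM_Z ε A hε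
      refine ⟨C, fun Y hY S h _ => H Y hY S fun a b c he => ?_⟩
      obtain ⟨_, _, ⟨h1, h2, h3, h4, h5, rfl, rfl⟩, h7, h8⟩ := h _ he
      exact ⟨h1, h2, h3, h4, h8, h5, h7⟩) hε
  refine ⟨C, fun Y hY S h => H Y hY S (fun ⟨a, b, c⟩ he => ?_) trivial⟩
  obtain ⟨h1, h2, h3, h4, h5, h6⟩ := h a b c he
  exact ⟨_, _, ⟨h1, h2, h3, h4, h6, rfl, rfl⟩, h5⟩

end Pool.Agent.MP_2a5a28_nt.H9
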