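import Mathlib

/-! Counting by the radical: the abstract model. -/

set_option autoImplicit false
set_option linter.unusedSectionVars false
set_option linter.unusedVariables false

namespace Pool.Agent.MP_2a5a28_nt.H9

section

open Finset

variable {J α : Type*}

/-- Weighted `l1` norm. -/
noncomputable def nr [Fintype J] (l μ : J → ℝ) : ℝ := ∑ j, |μ j| * l j

/-- Mass of a set of coordinates. -/
noncomputable def ms (l : J → ℝ) (S : Finset J) : ℝ := ∑ j ∈ S, l j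

/-- Support of an integer vector. -/
def sp [Fintype J] (b : J → ℤ) : Finset J := univ.filter fun j => b j ≠ 0

/-- `B` is a signed sum of at most `k` differences of vectors of the family. -/
def Comb (F : Finset α) (b : α → J → ℤ) (k : ℕ) (B : J → ℤ) : Prop :=
  ∃ (ι : Type) (_ : Fintype ι) (e e' : ι → α) (s : ι → ℤ), Fintype.card ι ≤ k ∧
    (∀ x, e x ∈ F ∧ e' x ∈ F ∧ (s x = 1 ∨ s x = -1)) ∧
    ∀ j, B j = ∑ x, s x * (b (e x) j - b (e' x) j)

/-- The separation property. -/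
def Sep [Fintype J] (l : J → ℝ) (F : Finset α) (b : α → J → ℤ) (k : ℕ) (H θ κ X Q : ℝ) : Prop :=
  ∀ T : Finset (J → ℤ), (∀ μ ∈ T, nr l (fun j => (μ j : ℝ)) ≤ X) →
    (∀ μ ∈ T, ∀ μ' ∈ T, ∃ (B : J → ℤ) (τ : ℝ), Comb F b k B ∧ |τ| ≤ θ ∧
      nr l (fun j => (B j : ℝ)) ≤ H ∧ nr l (fun j => (μ j : ℝ) - μ' j - τ * B j) ≤ κ) →
    (T.card : ℝ) ≤ Q

/-- Size conditions on a family of vectors. -/
structure Pre [Fintype J] (l : J → ℝ) (F : Finset α) (b : α → J → ℤ) (L h : ℝ) (m : ℕ)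
    (lam sm : ℝ) : Prop where
  l0 : ∀ j, 0 ≤ l j
  nb : ∀ e ∈ F, nr l (fun j => (b e j : ℝ)) ≤ 2 * h
  mass : ∀ e ∈ F, ms l (sp (b e)) ≤ L
  om : ∀ S : Finset J, ms l S ≤ L → S.card ≤ m
  ct : ∀ x : ℝ, 0 ≤ x → ∀ T : Finset (Finset J), (∀ S ∈ T, ms l S ≤ x) →
    (T.card : ℝ) ≤ Real.exp (x + m)
  small : ∀ e ∈ F, ∑ j with l j < lam, |(b e j : ℝ)| * l j ≤ sm

/-- The model. -/
structure Mdl [Fintype J] (l : J → ℝ) (F : Finset α) (b : α → J → ℤ) (L h : ℝ) (m : ℕ)
    (lam sm θ C ρ : ℝ) : Prop where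
  pre : Pre l F b L h m lam sm
  li : ∀ e ∈ F, ∀ e' ∈ F, nr l (fun j => (b e j : ℝ) - b e' j) ≤ θ * h → e = e'
  sep : ∀ (k : ℕ) (κ X : ℝ), 0 ≤ X → (m : ℝ) + 1 ≤ θ * κ → κ ≤ θ * h → k * L ≤ θ * h →
    Sep l F b k (C * h) θ κ X (Real.exp (κ / θ + ρ) * (X + 1))

/-- The cell of `b` on the set `S`. -/
noncomputable def lab [DecidableEq J] (l : J → ℝ) (t : ℝ) (S : Finset J) (b : J → ℤ) :
    J → Option ℤ := fun j => if j ∈ S then some ⌊(b j : ℝ) * l j * t⌋ else none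

/-- The coordinates of item `u`. -/
noncomputable def it [Fintype J] (wm wt D : ℝ) (u : ℤ) (b : J → ℤ) : Finset J :=
  univ.filter fun j => wm ≤ |(b j : ℝ)| ∧ |(b j : ℝ)| < wt ∧ ⌊(b j : ℝ) / D⌋ = u

/-- The coordinates which are fixed. -/
noncomputable def fx [Fintype J] (wl wm wt : ℝ) (b : J → ℤ) : Finset J :=
  univ.filter fun j => wl ≤ |(b j : ℝ)| ∧ ¬(wm ≤ |(b j : ℝ)| ∧ |(b j : ℝ)| < wt)

/-- The signed sum of the indicator vectors of the domains of the labels. -/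
def ind {ι : Type*} [Fintype ι] (s : ι → ℤ) (f : ι → J → Option ℤ) : J → ℤ :=
  fun j => ∑ x, if f x j = none then 0 else s x

section
variable [Fintype J] {l : J → ℝ}

theorem nr_nonneg (hl : ∀ j, 0 ≤ l j) (μ : J → ℝ) : 0 ≤ nr l μ :=
  sum_nonneg fun j _ => mul_nonneg (abs_nonneg _) (hl j)

theorem nr_add (hl : ∀ j, 0 ≤ l j) (μ μ' : J → ℝ) :
    nr l (fun j => μ j + μ' j) ≤ nr l μ + nr l μ' := by
  unfold nr
  rw [← sum_add_distrib]
  refine sum_le_sum fun j _ => ?_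
  rw [← add_mul]
  exact mul_le_mul_of_nonneg_right (abs_add_le _ _) (hl j)

theorem nr_smul (x : ℝ) (μ : J → ℝ) : nr l (fun j => x * μ j) = |x| * nr l μ := by
  unfold nr
  rw [mul_sum]
  exact sum_congr rfl fun j _ => by rw [abs_mul, mul_assoc]

theorem nr_neg (μ : J → ℝ) : nr l (fun j => -μ j) = nr l μ := by
  simp only [nr, abs_neg]

theorem nr_sub (hl : ∀ j, 0 ≤ l j) (μ μ' : J → ℝ) :
    nr l (fun j => μ j - μ' j) ≤ nr l μ + nr l μ' := by
  have := nr_add hl μ fun j => -μ' j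
  rw [nr_neg] at this
  simpa only [sub_eq_add_neg] using this

theorem nr_sum (hl : ∀ j, 0 ≤ l j) {ι : Type*} (s : Finset ι) (μ : ι → J → ℝ) :
    nr l (fun j => ∑ x ∈ s, μ x j) ≤ ∑ x ∈ s, nr l (μ x) := by
  unfold nr
  rw [sum_comm]
  refine sum_le_sum fun j _ => ?_
  rw [← sum_mul]
  exact mul_le_mul_of_nonneg_right (abs_sum_le_sum_abs _ _) (hl j)

omit [Fintype J] in
theorem ms_mono (hl : ∀ j, 0 ≤ l j) {S S' : Finset J} (h : S ⊆ S') : ms l S ≤ ms l S' :=
  sum_le_sum_of_subset_of_nonneg h fun j _ _ => hl j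

omit [Fintype J] in
theorem ms_nonneg (hl : ∀ j, 0 ≤ l j) (S : Finset J) : 0 ≤ ms l S := sum_nonneg fun j _ => hl j

variable {F F' : Finset α} {b : α → J → ℤ} {L h : ℝ} {m : ℕ} {lam sm θ C ρ : ℝ}

theorem Pre.mono (P : Pre l F b L h m lam sm) (hF : F' ⊆ F) : Pre l F' b L h m lam sm :=
  ⟨P.l0, fun e he => P.nb e (hF he), fun e he => P.mass e (hF he), P.om, P.ct,
    fun e he => P.small e (hF he)⟩

theorem Mdl.mono (M : Mdl l F b L h m lam sm θ C ρ) (hF : F' ⊆ F) :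
    Mdl l F' b L h m lam sm θ C ρ := by
  refine ⟨M.pre.mono hF, fun e he e' he' => M.li e (hF he) e' (hF he'),
    fun k κ X h0 h1 h2 h3 T hT hc => M.sep k κ X h0 h1 h2 h3 T hT fun μ hμ μ' hμ' => ?_⟩
  obtain ⟨B, τ, ⟨ι, i, e, e', s, c1, c2, c3⟩, h4⟩ := hc μ hμ μ' hμ'
  exact ⟨B, τ, ⟨ι, i, e, e', s, c1, fun x => ⟨hF (c2 x).1, hF (c2 x).2.1, (c2 x).2.2⟩, c3⟩, h4⟩

theorem Mdl.rho (M : Mdl l F b L h m lam sm θ C ρ) {ρ' : ℝ} (hρ : ρ ≤ ρ') :
    Mdl l F b L h m lam sm θ C ρ' :=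
  ⟨M.pre, M.li, fun k κ X h0 h1 h2 h3 T hT hc => (M.sep k κ X h0 h1 h2 h3 T hT hc).trans (by
    gcongr)⟩

end

theorem fib {β : Type*} [DecidableEq β] (S : Finset α) (f : α → β) (m k : ℝ)
    (hk0 : 0 ≤ k) (hm : ((S.image f).card : ℝ) ≤ m)
    (hk : ∀ S' ⊆ S, (∀ x ∈ S', ∀ y ∈ S', f x = f y) → (S'.card : ℝ) ≤ k) :
    (S.card : ℝ) ≤ m * k := by
  classical
  have h1 : S.card = ∑ b ∈ S.image f, (S.filter (fun x => f x = b)).card :=
    Finset.card_eq_sum_card_image f S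
  have h2 : (S.card : ℝ) ≤ ∑ _b ∈ S.image f, k := by
    rw [h1]; push_cast
    refine Finset.sum_le_sum fun b _ => hk _ (Finset.filter_subset _ _) ?_
    intro x hx y hy
    rw [(Finset.mem_filter.1 hx).2, (Finset.mem_filter.1 hy).2]
  rw [Finset.sum_const, nsmul_eq_mul] at h2
  exact h2.trans (mul_le_mul_of_nonneg_right hm hk0)

end

section

open Finset

theorem gk_half {X A : Type*} [DecidableEq A] (T : Finset X) (p : X → A) (TA : Finset (A × A))
    (w : X → ℝ) (hw : ∀ t ∈ T, w t ≤ #{q ∈ TA | q.1 = p t}) :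
    ∑ t ∈ T, w t / #{t' ∈ T | p t' = p t} ≤ TA.card := by
  have h1 : ∑ a ∈ T.image p, (#{q ∈ TA | q.1 = a} : ℝ) ≤ TA.card := by
    rw [← Nat.cast_sum, sum_card_fiberwise_eq_card_filter]
    exact_mod_cast card_filter_le _ _
  refine le_trans ?_ h1
  rw [← sum_fiberwise_of_maps_to (g := p) fun t ht => mem_image_of_mem p ht]
  refine sum_le_sum fun a ha => ?_
  obtain ⟨t, ht, rfl⟩ := mem_image.1 ha
  have h0 : (0 : ℝ) < #{t' ∈ T | p t' = p t} :=
    Nat.cast_pos.2 (card_pos.2 ⟨t, mem_filter.2 ⟨ht, rfl⟩⟩)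
  refine (sum_le_card_nsmul _ _ ((#{q ∈ TA | q.1 = p t} : ℝ) / #{t' ∈ T | p t' = p t})
    fun x hx => ?_).trans (by rw [nsmul_eq_mul, mul_div_cancel₀ _ h0.ne'])
  obtain ⟨h2, h3⟩ := mem_filter.1 hx
  rw [h3]
  exact div_le_div_of_nonneg_right (h3 ▸ hw x h2) h0.le

theorem graph {A B : Type*} [DecidableEq A] [DecidableEq B] (T : Finset (A × B))
    (TA : Finset (A × A)) (TB : Finset (B × B))
    (hA : ∀ a a' b, (a, b) ∈ T → (a', b) ∈ T → (a, a') ∈ TA)
    (hB : ∀ a b b', (a, b) ∈ T → (a, b') ∈ T → (b, b') ∈ TB) :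
    (T.card : ℝ) ^ 2 ≤ TA.card * TB.card := by
  have h1 := gk_half T Prod.fst TA (fun t => #{t' ∈ T | t'.2 = t.2}) fun t ht => by
    refine Nat.cast_le.2 (card_le_card_of_injOn (fun x => (t.1, x.1)) (fun x hx => ?_)
      fun x hx y hy h => ?_)
    · obtain ⟨h2, h3⟩ := mem_filter.1 (mem_coe.1 hx)
      exact mem_coe.2 (mem_filter.2 ⟨hA _ _ t.2 ht (h3 ▸ h2), rfl⟩)
    · exact Prod.ext (Prod.ext_iff.1 h).2
        ((mem_filter.1 (mem_coe.1 hx)).2.trans (mem_filter.1 (mem_coe.1 hy)).2.symm)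
  have h2 := gk_half T Prod.snd TB (fun t => #{t' ∈ T | t'.1 = t.1}) fun t ht => by
    refine Nat.cast_le.2 (card_le_card_of_injOn (fun x => (t.2, x.2)) (fun x hx => ?_)
      fun x hx y hy h => ?_)
    · obtain ⟨h2, h3⟩ := mem_filter.1 (mem_coe.1 hx)
      exact mem_coe.2 (mem_filter.2 ⟨hB t.1 _ _ ht (h3 ▸ h2), rfl⟩)
    · exact Prod.ext ((mem_filter.1 (mem_coe.1 hx)).2.trans (mem_filter.1 (mem_coe.1 hy)).2.symm)
        (Prod.ext_iff.1 h).2
  refine le_trans ?_ (mul_le_mul h1 h2 (sum_nonneg fun _ _ => by positivity) (Nat.cast_nonneg _))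
  rw [card_eq_sum_ones, Nat.cast_sum]
  refine sum_sq_le_sum_mul_sum_of_sq_le_mul _ (fun _ _ => by positivity)
    (fun _ _ => by positivity) fun t ht => le_of_eq ?_
  have a1 : (#{t' ∈ T | t'.1 = t.1} : ℝ) ≠ 0 :=
    Nat.cast_ne_zero.2 (card_ne_zero_of_mem (mem_filter.2 ⟨ht, rfl⟩))
  have a2 : (#{t' ∈ T | t'.2 = t.2} : ℝ) ≠ 0 :=
    Nat.cast_ne_zero.2 (card_ne_zero_of_mem (mem_filter.2 ⟨ht, rfl⟩))
  rw [div_mul_div_comm, mul_comm, div_self (mul_ne_zero a1 a2), Nat.cast_one, one_pow]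

theorem gk_pow {a b : ℕ} (h : a ≤ b) : (1 / 2 : ℝ) ^ a = ((2 ^ (b - a) : ℕ) : ℝ) * (1 / 2) ^ b := by
  obtain ⟨c, rfl⟩ := Nat.exists_eq_add_of_le h
  rw [Nat.add_sub_cancel_left, pow_add, mul_left_comm, Nat.cast_pow, ← mul_pow]
  norm_num

theorem gk_greedy {U : Type*} [DecidableEq U] (d : U → ℕ) (n : ℕ) (W : Finset U) :
    (∀ u ∈ W, n ≤ d u) → ∑ u ∈ W, (1 / 2 : ℝ) ^ d u ≤ (1 / 2) ^ n ∨
      ∃ W₁ ⊆ W, ∑ u ∈ W₁, (1 / 2 : ℝ) ^ d u = (1 / 2) ^ n := by
  induction W using Finset.induction_on_max_value d with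
  | empty => exact fun _ => .inl (by rw [sum_empty]; positivity)
  | insert a s ha hm ih =>
    intro hd
    rcases ih fun u hu => hd u (mem_insert_of_mem hu) with h | ⟨W₁, h1, h2⟩
    · rcases h.eq_or_lt with h | h
      · exact .inr ⟨s, subset_insert _ _, h⟩
      · left
        have h0 : (0 : ℝ) < (1 / 2) ^ d a := by positivity
        rw [sum_insert ha]
        rw [sum_congr rfl fun u hu => gk_pow (hm u hu), ← sum_mul, ← Nat.cast_sum,
          gk_pow (hd a (mem_insert_self _ _))] at h ⊢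
        have h3 : ((∑ u ∈ s, 2 ^ (d a - d u) + 1 : ℕ) : ℝ) ≤ ((2 ^ (d a - n) : ℕ) : ℝ) :=
          Nat.cast_le.2 (Nat.cast_lt.1 (lt_of_mul_lt_mul_right h h0.le))
        rw [Nat.cast_add_one] at h3
        linarith only [mul_le_mul_of_nonneg_right h3 h0.le]
    · exact .inr ⟨W₁, h1.trans (subset_insert _ _), h2⟩

theorem kraft {U : Type*} [DecidableEq U] (W : Finset U) (d : U → ℕ) (n : ℕ)
    (hd : ∀ u ∈ W, n + 1 ≤ d u) (hs : ∑ u ∈ W, (1 / 2 : ℝ) ^ d u ≤ (1 / 2) ^ n) :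
    ∃ W₁ ⊆ W, ∑ u ∈ W₁, (1 / 2 : ℝ) ^ d u ≤ (1 / 2) ^ (n + 1) ∧
      ∑ u ∈ W \ W₁, (1 / 2 : ℝ) ^ d u ≤ (1 / 2) ^ (n + 1) := by
  rcases gk_greedy d (n + 1) W hd with h | ⟨W₁, h1, h2⟩
  · exact ⟨W, Subset.rfl, h, by rw [sdiff_self, bot_eq_empty, sum_empty]; positivity⟩
  · refine ⟨W₁, h1, h2.le, ?_⟩
    have := sum_sdiff (f := fun u => (1 / 2 : ℝ) ^ d u) h1
    rw [pow_succ] at h2 ⊢
    linarith only [this, h2, hs]

theorem depth (t : ℝ) (h0 : 0 < t) (h1 : t ≤ 1) :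
    ∃ d : ℕ, 1 ≤ d ∧ (1 / 2 : ℝ) ^ d ≤ t ∧ 2 ^ d * t ≤ 2 := by
  obtain ⟨n, h2, h3⟩ := exists_nat_pow_near_of_lt_one h0 h1 (y := (1 / 2 : ℝ)) (by norm_num)
    (by norm_num)
  refine ⟨n + 1, Nat.le_add_left _ _, h2.le, ?_⟩
  refine (mul_le_mul_of_nonneg_left h3 (by positivity)).trans_eq ?_
  rw [pow_succ, mul_right_comm, ← mul_pow]
  norm_num

end

section

open Finset

theorem tree_le {X Y β γ : Type*} [DecidableEq β] [DecidableEq γ] (S : Finset X) (S' : Finset Y)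
    (f : X → β) (g : Y → γ) (φ : γ → β) (h : ∀ x ∈ S, ∃ y ∈ S', f x = φ (g y)) :
    ((S.image f).card : ℝ) ≤ (S'.image g).card := by
  refine Nat.cast_le.2 ((card_le_card fun b hb => ?_).trans (card_image_le (f := φ)))
  obtain ⟨x, hx, rfl⟩ := mem_image.1 hb
  obtain ⟨y, hy, e⟩ := h x hx
  exact mem_image.2 ⟨_, mem_image_of_mem g hy, e.symm⟩

/-- The labels of a family on a set of items. -/
def treeRes {α U Λ ι : Type*} [DecidableEq U] (lb : U → α → Λ) (W : Finset U) (e : ι → α) :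
    ι → U → Option Λ := fun x u => if u ∈ W then some (lb u (e x)) else none

section
variable {J α U Λ : Type*} [Fintype J] [Fintype U] [DecidableEq U] [DecidableEq Λ] {l : J → ℝ}
  {F : Finset α} {lb : U → α → Λ} {g : U → α → J → ℝ} {z : ℝ}

/-- The bound which is proved by induction. -/
def TreeP (l : J → ℝ) (F : Finset α) (lb : U → α → Λ) (g : U → α → J → ℝ) (z : ℝ) (n : ℕ)
    (W : Finset U) (Q : ℝ) : Prop :=
  ∀ (ι : Type) [Fintype ι] (s : ι → ℤ), (∀ x, s x = 1 ∨ s x = -1) → Fintype.card ι = 2 ^ n →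
    ∀ S : Finset (ι → α), (∀ e ∈ S, (∀ x, e x ∈ F) ∧
      nr l (fun j => ∑ x, (s x : ℝ) * ∑ v ∈ Wᶜ, g v (e x) j) ≤ n * 2 ^ n * Fintype.card U * z) →
      ((S.image (treeRes lb W)).card : ℝ) ≤ Q

theorem tree_side (hl : ∀ j, 0 ≤ l j) (hz : 0 ≤ z)
    (hg : ∀ u, ∀ e ∈ F, ∀ e' ∈ F, lb u e = lb u e' → nr l (fun j => g u e j - g u e' j) ≤ z)
    {n : ℕ} {W W₁ W₂ : Finset U} (hW : ∀ f : U → ℝ, ∑ v ∈ W₁ᶜ, f v = ∑ v ∈ Wᶜ, f v + ∑ v ∈ W₂, f v)
    {Q : ℝ} (h : TreeP l F lb g z (n + 1) W₁ Q) {ι : Type} [Fintype ι] {s : ι → ℤ}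
    (hs : ∀ x, s x = 1 ∨ s x = -1) (hι : Fintype.card ι = 2 ^ n) (S : Finset ((ι → α) × (ι → α)))
    (hS : ∀ p ∈ S, ((∀ x, p.1 x ∈ F) ∧ nr l (fun j => ∑ x, (s x : ℝ) * ∑ v ∈ Wᶜ, g v (p.1 x) j) ≤
      n * 2 ^ n * Fintype.card U * z) ∧ ((∀ x, p.2 x ∈ F) ∧
      nr l (fun j => ∑ x, (s x : ℝ) * ∑ v ∈ Wᶜ, g v (p.2 x) j) ≤ n * 2 ^ n * Fintype.card U * z) ∧
      treeRes lb W₂ p.1 = treeRes lb W₂ p.2) :
    ((S.image fun p => (treeRes lb W₁ p.1, treeRes lb W₁ p.2)).card : ℝ) ≤ Q := by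
  classical
  refine le_trans ?_ (h (ι ⊕ ι) (Sum.elim s fun x => -s x) ?_
    (by rw [Fintype.card_sum, hι, pow_succ, mul_two]) (S.image fun p => Sum.elim p.1 p.2) ?_)
  · convert tree_le S (S.image fun p => Sum.elim p.1 p.2)
      (fun p => (treeRes lb W₁ p.1, treeRes lb W₁ p.2)) (treeRes lb W₁)
      (fun f => (fun x => f (.inl x), fun x => f (.inr x)))
      fun p hp => ⟨_, mem_image_of_mem _ hp, rfl⟩
  · rintro (x | x)
    · exact hs x
    · exact (hs x).symm.imp (fun h => by simp [h]) fun h => by simp [h]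
  intro e he
  obtain ⟨p, hp, rfl⟩ := mem_image.1 he
  obtain ⟨⟨a1, a2⟩, ⟨b1, b2⟩, c⟩ := hS p hp
  refine ⟨fun x => by cases x; exacts [a1 _, b1 _], ?_⟩
  have c1 : nr l (fun j => ∑ x, (s x : ℝ) * ∑ v ∈ W₂, (g v (p.1 x) j - g v (p.2 x) j)) ≤
      2 ^ n * (Fintype.card U * z) := by
    refine (nr_sum hl _ _).trans ((sum_le_card_nsmul _ _ (Fintype.card U * z) fun x _ => ?_).trans
      (by rw [card_univ, hι, nsmul_eq_mul, Nat.cast_pow, Nat.cast_ofNat]))
    have : |(s x : ℝ)| = 1 := by rcases hs x with h | h <;> simp [h]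
    rw [nr_smul, this, one_mul]
    refine (nr_sum hl _ _).trans ((sum_le_card_nsmul _ _ z fun v hv => ?_).trans ?_)
    · have := congrFun (congrFun c x) v
      simp only [treeRes, if_pos hv] at this
      exact hg v _ (a1 x) _ (b1 x) (Option.some.inj this)
    · rw [nsmul_eq_mul]
      exact mul_le_mul_of_nonneg_right (Nat.cast_le.2 (card_le_univ _)) hz
  have c2 := (nr_add hl _ _).trans (add_le_add ((nr_sub hl _ _).trans (add_le_add a2 b2)) c1)
  refine le_of_eq_of_le (congrArg _ (funext fun j => ?_)) (c2.trans ?_)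
  · simp only [Fintype.sum_sum_type, Sum.elim_inl, Sum.elim_inr, hW, Int.cast_neg,
      sum_sub_distrib]
    rw [← sum_add_distrib, ← sum_sub_distrib, ← sum_add_distrib]
    exact sum_congr rfl fun x _ => by ring
  · have : (0 : ℝ) ≤ 2 ^ n * (Fintype.card U * z) := by positivity
    rw [Nat.cast_add_one, pow_succ]
    linarith only [this]

theorem tree_step (hl : ∀ j, 0 ≤ l j) (hz : 0 ≤ z)
    (hg : ∀ u, ∀ e ∈ F, ∀ e' ∈ F, lb u e = lb u e' → nr l (fun j => g u e j - g u e' j) ≤ z)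
    {n : ℕ} {W W₁ : Finset U} (hW : W₁ ⊆ W) {Q₁ Q₂ Q : ℝ} (h₁ : TreeP l F lb g z (n + 1) W₁ Q₁)
    (h₂ : TreeP l F lb g z (n + 1) (W \ W₁) Q₂) (h0 : 0 ≤ Q) (hQ : Q₁ * Q₂ = Q ^ 2) :
    TreeP l F lb g z n W Q := by
  classical
  intro ι _ s hs hι S hS
  have e1 : ∀ f : U → ℝ, ∑ v ∈ W₁ᶜ, f v = ∑ v ∈ Wᶜ, f v + ∑ v ∈ W \ W₁, f v := fun f => by
    linarith only [sum_compl_add_sum W f, sum_compl_add_sum W₁ f, sum_sdiff (f := f) hW]
  have e2 : ∀ f : U → ℝ, ∑ v ∈ (W \ W₁)ᶜ, f v = ∑ v ∈ Wᶜ, f v + ∑ v ∈ W₁, f v := fun f => by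
    linarith only [sum_compl_add_sum W f, sum_compl_add_sum (W \ W₁) f, sum_sdiff (f := f) hW]
  have k1 := tree_side hl hz hg e1 h₁ hs hι
    {p ∈ S ×ˢ S | treeRes lb (W \ W₁) p.1 = treeRes lb (W \ W₁) p.2} fun p hp => by
      obtain ⟨a, b⟩ := mem_filter.1 hp
      exact ⟨hS _ (mem_product.1 a).1, hS _ (mem_product.1 a).2, b⟩
  have k2 := tree_side hl hz hg e2 h₂ hs hι
    {p ∈ S ×ˢ S | treeRes lb W₁ p.1 = treeRes lb W₁ p.2} fun p hp => by
      obtain ⟨a, b⟩ := mem_filter.1 hp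
      exact ⟨hS _ (mem_product.1 a).1, hS _ (mem_product.1 a).2, b⟩
  refine le_trans (tree_le S S (treeRes lb W)
    (fun e => (treeRes lb W₁ e, treeRes lb (W \ W₁) e))
    (fun q x u => if u ∈ W₁ then q.1 x u else q.2 x u) fun e he => ⟨e, he, ?_⟩) ?_
  · funext x u
    by_cases hu : u ∈ W₁
    · simp only [treeRes, if_pos hu, if_pos (hW hu)]
    · simp only [treeRes, hu, mem_sdiff, not_false_eq_true, and_true, if_false]
  refine (pow_le_pow_iff_left₀ (Nat.cast_nonneg _) h0 two_ne_zero).1 ?_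
  rw [← hQ]
  refine le_trans (graph _ _ _ ?_ ?_) (mul_le_mul k1 k2 (Nat.cast_nonneg _)
    ((Nat.cast_nonneg _).trans k1))
  · intro a a' b h h'
    obtain ⟨e, he, h⟩ := mem_image.1 h
    obtain ⟨e', he', h'⟩ := mem_image.1 h'
    obtain ⟨rfl, rfl⟩ := Prod.ext_iff.1 h
    obtain ⟨rfl, h'⟩ := Prod.ext_iff.1 h'
    exact mem_image.2 ⟨(e, e'), mem_filter.2 ⟨mk_mem_product he he', h'.symm⟩, rfl⟩
  · intro a b b' h h'
    obtain ⟨e, he, h⟩ := mem_image.1 h
    obtain ⟨e', he', h'⟩ := mem_image.1 h'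
    obtain ⟨rfl, rfl⟩ := Prod.ext_iff.1 h
    obtain ⟨h', rfl⟩ := Prod.ext_iff.1 h'
    exact mem_image.2 ⟨(e, e'), mem_filter.2 ⟨mk_mem_product he he', h'.symm⟩, rfl⟩

theorem tree_empty (n : ℕ) : TreeP l F lb g z n ∅ 1 := by
  intro ι _ s _ _ S _
  rw [Nat.cast_le_one, card_le_one]
  intro a ha b hb
  obtain ⟨e, -, rfl⟩ := mem_image.1 ha
  obtain ⟨e', -, rfl⟩ := mem_image.1 hb
  funext x u
  simp only [treeRes, notMem_empty, if_false]

theorem tree_ind (hl : ∀ j, 0 ≤ l j) (hz : 0 ≤ z)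
    (hg : ∀ u, ∀ e ∈ F, ∀ e' ∈ F, lb u e = lb u e' → nr l (fun j => g u e j - g u e' j) ≤ z)
    (d : U → ℕ) (R : U → ℝ) (hR : ∀ u, 0 ≤ R u)
    (leaf : ∀ u, TreeP l F lb g z (d u) {u} (R u ^ 2 ^ d u)) (k : ℕ) : ∀ (n : ℕ) (W : Finset U),
    (∀ u ∈ W, d u < n + k) → ∑ u ∈ W, (1 / 2 : ℝ) ^ d u ≤ (1 / 2) ^ n →
      TreeP l F lb g z n W (∏ u ∈ W, R u ^ 2 ^ n) := by
  have base : ∀ (n : ℕ) (W : Finset U), ∑ u ∈ W, (1 / 2 : ℝ) ^ d u ≤ (1 / 2) ^ n →
      ∀ u ∈ W, d u ≤ n → W = {u} ∧ d u = n := fun n W hs u hu hd => by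
    have a1 : (1 / 2 : ℝ) ^ n ≤ (1 / 2) ^ d u := pow_le_pow_of_le_one (by norm_num) (by norm_num) hd
    have a2 := add_sum_erase W (fun u => (1 / 2 : ℝ) ^ d u) hu
    have a3 : 0 ≤ ∑ v ∈ W.erase u, (1 / 2 : ℝ) ^ d v := sum_nonneg fun _ _ => by positivity
    refine ⟨eq_singleton_iff_unique_mem.2 ⟨hu, fun v hv => by_contra fun hne => ?_⟩,
      pow_right_injective₀ (a := (1 / 2 : ℝ)) (by norm_num) (by norm_num) ?_⟩
    · have : 0 < ∑ v ∈ W.erase u, (1 / 2 : ℝ) ^ d v :=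
        sum_pos (fun _ _ => by positivity) ⟨v, mem_erase.2 ⟨hne, hv⟩⟩
      linarith only [this, a1, a2, hs]
    · simp only
      linarith only [a1, a2, a3, hs]
  induction k with
  | zero =>
    intro n W hd hs
    rcases W.eq_empty_or_nonempty with rfl | ⟨u, hu⟩
    · exact tree_empty n
    · exact absurd (base n W hs u hu (hd u hu).le).2 (hd u hu).ne
  | succ k ih =>
    intro n W hd hs
    by_cases h : ∃ u ∈ W, d u ≤ n
    · obtain ⟨u, hu, h⟩ := h
      obtain ⟨rfl, rfl⟩ := base n W hs u hu h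
      rw [prod_singleton]
      exact leaf u
    · obtain ⟨W₁, h1, h2, h3⟩ := kraft W d n (fun u hu => not_le.1 fun h' => h ⟨u, hu, h'⟩) hs
      refine tree_step hl hz hg h1 (ih _ _ (fun u hu => by have := hd u (h1 hu); omega) h2)
        (ih _ _ (fun u hu => by have := hd u (sdiff_subset hu); omega) h3)
        (prod_nonneg fun u _ => pow_nonneg (hR u) _) ?_
      rw [mul_comm, prod_sdiff h1, ← prod_pow]
      exact prod_congr rfl fun u _ => by rw [pow_succ, pow_mul]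

end

theorem tree {J α U Λ : Type*} [Fintype J] [Fintype U] [DecidableEq U] [DecidableEq Λ]
    (l : J → ℝ) (hl : ∀ j, 0 ≤ l j) (F : Finset α) (lb : U → α → Λ) (g : U → α → J → ℝ) (z : ℝ)
    (hz : 0 ≤ z)
    (hg : ∀ u, ∀ e ∈ F, ∀ e' ∈ F, lb u e = lb u e' → nr l (fun j => g u e j - g u e' j) ≤ z)
    (d : U → ℕ) (hK : ∑ u, (1 / 2 : ℝ) ^ d u ≤ 1) (R : U → ℝ) (hR : ∀ u, 0 ≤ R u)
    (leaf : ∀ (u : U) (ι : Type) [Fintype ι] (s : ι → ℤ), (∀ x, s x = 1 ∨ s x = -1) →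
      Fintype.card ι = 2 ^ d u → ∀ T : Finset (ι → Λ),
      (∀ f ∈ T, ∃ e : ι → α, (∀ x, e x ∈ F ∧ lb u (e x) = f x) ∧
        nr l (fun j => ∑ x, (s x : ℝ) * ∑ v ∈ univ.erase u, g v (e x) j) ≤
          d u * 2 ^ d u * Fintype.card U * z) → (T.card : ℝ) ≤ R u ^ 2 ^ d u) :
    ((F.image fun e u => lb u e).card : ℝ) ≤ ∏ u, R u := by
  classical
  have h := tree_ind hl hz hg d R hR (fun u ι _ s hs hι S hS => ?_) (univ.sup d + 1) 0 univ
    (fun u hu => by have := le_sup (f := d) hu; omega) (by simpa using hK) Unit (fun _ => 1)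
    (fun _ => .inl rfl) (by simp) (F.image fun e _ => e) fun e he => ?_
  · simp only [pow_zero, pow_one] at h
    refine le_trans (Nat.cast_le.2 (card_le_card_of_injOn (fun a _ u => some (a u))
      (fun a ha => ?_) fun a _ b _ h => funext fun u =>
        Option.some.inj (congrFun (congrFun h ()) u))) h
    obtain ⟨e, he, rfl⟩ := mem_image.1 (mem_coe.1 ha)
    refine mem_coe.2 (mem_image.2 ⟨_, mem_image_of_mem _ he, ?_⟩)
    funext x u
    simp only [treeRes, mem_univ, if_true]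
  · refine le_trans (tree_le S S (treeRes lb {u})
      (fun e x => lb u (e x)) (fun f x v => if v = u then some (f x) else none)
      fun e he => ⟨e, he, ?_⟩) (leaf u ι s hs hι _ fun f hf => ?_)
    · funext x v
      by_cases hv : v = u <;> simp [treeRes, hv]
    · obtain ⟨e, he, rfl⟩ := mem_image.1 hf
      exact ⟨e, fun x => ⟨(hS e he).1 x, rfl⟩, compl_singleton u ▸ (hS e he).2⟩
  · obtain ⟨a, ha, rfl⟩ := mem_image.1 he
    exact ⟨fun _ => ha, by simp [nr]⟩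

end

section

open Finset

section
variable {J : Type*} [DecidableEq J] {l : J → ℝ} {t : ℝ} {S S' : Finset J} {b b' : J → ℤ}

theorem lab_none {j : J} : lab l t S b j = none ↔ j ∉ S := by
  unfold lab
  split_ifs with h <;> simp [h]

theorem lab_dom (h : lab l t S b = lab l t S' b') : S = S' := by
  ext j
  have e := congrFun h j
  rw [← not_iff_not, ← lab_none (l := l) (t := t) (b := b), e, lab_none]

theorem lab_close (ht : 0 < t) (h : lab l t S b = lab l t S' b') :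
    ∑ j ∈ S, |(b j : ℝ) - b' j| * l j ≤ S.card / t := by
  have e := lab_dom h
  subst e
  rw [div_eq_mul_inv, ← nsmul_eq_mul]
  refine sum_le_card_nsmul _ _ _ fun j hj => ?_
  have e := congrFun h j
  simp only [lab, if_pos hj, Option.some.injEq] at e
  have a := Int.abs_sub_lt_one_of_floor_eq_floor e
  rw [← sub_mul, ← sub_mul, abs_mul, abs_mul, abs_of_pos ht] at a
  rw [← one_div, le_div_iff₀ ht]
  exact (mul_le_mul_of_nonneg_right (mul_le_mul_of_nonneg_left (le_abs_self _) (abs_nonneg _))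
    ht.le).trans a.le

theorem cell_sum (K : ℕ) :
    ∑ z ∈ Icc (-(K : ℤ)) K, Real.exp (-|(z : ℝ)|) ≤ 3 - 2 * (1 / 2) ^ K := by
  induction K with
  | zero => norm_num
  | succ K ih =>
    have e : Icc (-((K + 1 : ℕ) : ℤ)) (K + 1 : ℕ) =
        insert ((K + 1 : ℕ) : ℤ) (insert (-((K + 1 : ℕ) : ℤ)) (Icc (-(K : ℤ)) K)) := by
      ext z
      simp only [mem_Icc, mem_insert]
      omega
    have a : Real.exp (-((K + 1 : ℕ) : ℝ)) ≤ (1 / 2) ^ (K + 1) := by
      rw [← mul_neg_one, Real.exp_nat_mul]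
      refine pow_le_pow_left₀ (Real.exp_pos _).le ?_ _
      rw [Real.exp_neg, ← one_div]
      exact one_div_le_one_div_of_le two_pos (by linarith [Real.add_one_le_exp 1])
    rw [e, sum_insert (by simp only [mem_Icc, mem_insert]; omega),
      sum_insert (by simp only [mem_Icc]; omega), Int.cast_neg, abs_neg, Int.cast_natCast,
      Nat.abs_cast, pow_succ]
    rw [pow_succ] at a
    linarith

theorem lab_count (hl : ∀ j, 0 ≤ l j) (ht : 0 ≤ t) (S : Finset J) (x : ℝ) (hx : 0 ≤ x)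
    (T : Finset (J → Option ℤ))
    (hT : ∀ f ∈ T, ∃ b : J → ℤ, f = lab l t S b ∧ ∑ j ∈ S, |(b j : ℝ)| * l j ≤ x) :
    (T.card : ℝ) ≤ Real.exp (x * t + 3 * S.card) := by
  choose! b hb hx' using hT
  set φ : (J → Option ℤ) → S → ℤ := fun f j => (f j).getD 0 with hφ
  have inj : Set.InjOn φ T := fun f hf g hg e => by
    funext j
    by_cases hj : j ∈ S
    · have a := congrFun e ⟨j, hj⟩
      have a1 := congrFun (hb f hf) j
      have a2 := congrFun (hb g hg) j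
      simp only [lab, if_pos hj] at a1 a2
      simp only [hφ, a1, a2, Option.getD_some] at a
      rw [a1, a2, a]
    · rw [hb f hf, hb g hg, lab_none.2 hj, lab_none.2 hj]
  set K := T.sup fun f => S.sup fun j => ((f j).getD 0).natAbs with hK
  have sub : T.image φ ⊆ Fintype.piFinset fun _ => Icc (-(K : ℤ)) K := fun p hp => by
    obtain ⟨f, hf, rfl⟩ := mem_image.1 hp
    refine Fintype.mem_piFinset.2 fun j => ?_
    have a : ((f j).getD 0).natAbs ≤ K :=
      (le_sup (f := fun j => ((f j).getD 0).natAbs) j.2).trans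
        (le_sup (f := fun f : J → Option ℤ => S.sup fun j => ((f j).getD 0).natAbs) hf)
    rw [mem_Icc]
    simp only [hφ]
    omega
  have one : ∀ p ∈ T.image φ, (1 : ℝ) ≤
      Real.exp (x * t + S.card) * ∏ j, Real.exp (-|(p j : ℝ)|) := fun p hp => by
    obtain ⟨f, hf, rfl⟩ := mem_image.1 hp
    rw [← Real.exp_sum, ← Real.exp_add]
    refine Real.one_le_exp ?_
    have a : ∑ j : S, |(φ f j : ℝ)| ≤ ∑ j : S, (|(b f j : ℝ)| * l j * t + 1) :=
      sum_le_sum fun j _ => by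
        have a1 := congrFun (hb f hf) j
        simp only [lab, if_pos j.2] at a1
        simp only [hφ, a1, Option.getD_some]
        have c1 := Int.floor_le ((b f j : ℝ) * l j * t)
        have c2 := Int.lt_floor_add_one ((b f j : ℝ) * l j * t)
        have c3 := mul_le_mul_of_nonneg_right (mul_le_mul_of_nonneg_right
          (le_abs_self (b f j : ℝ)) (hl j)) ht
        have c4 := mul_le_mul_of_nonneg_right (mul_le_mul_of_nonneg_right
          (neg_abs_le (b f j : ℝ)) (hl j)) ht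
        rw [abs_le]
        constructor <;> linarith
    rw [sum_coe_sort S fun j => |(b f j : ℝ)| * l j * t + 1, sum_add_distrib, ← sum_mul, sum_const,
      nsmul_one] at a
    have c := mul_le_mul_of_nonneg_right (hx' f hf) ht
    rw [sum_neg_distrib]
    linarith
  have h1 := card_nsmul_le_sum _ _ _ one
  rw [nsmul_one, card_image_of_injOn inj, ← mul_sum] at h1
  have h2 := sum_le_sum_of_subset_of_nonneg (f := fun p : S → ℤ => ∏ j, Real.exp (-|(p j : ℝ)|)) sub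
    fun _ _ _ => prod_nonneg fun _ _ => (Real.exp_pos _).le
  rw [← prod_univ_sum (fun _ : S => Icc (-(K : ℤ)) K) fun _ z => Real.exp (-|(z : ℝ)|)] at h2
  have h3 : ∏ _j : S, ∑ z ∈ Icc (-(K : ℤ)) K, Real.exp (-|(z : ℝ)|) ≤ ∏ _j : S, Real.exp 2 :=
    prod_le_prod (fun _ _ => sum_nonneg fun _ _ => (Real.exp_pos _).le) fun _ _ => by
      have a := cell_sum K
      have c := Real.add_one_le_exp 2
      have d : (0 : ℝ) ≤ (1 / 2) ^ K := by positivity
      linarith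
  rw [← Real.exp_sum, sum_const, card_univ, Fintype.card_coe, nsmul_eq_mul] at h3
  refine h1.trans ((mul_le_mul_of_nonneg_left (h2.trans h3) (Real.exp_pos _).le).trans_eq ?_)
  rw [← Real.exp_add]
  congr 1
  ring

theorem lab_count2 (hl : ∀ j, 0 ≤ l j) (ht : 0 ≤ t) (P : Finset J → Prop) (N x : ℝ) (m : ℕ)
    (hx : 0 ≤ x) (hN : ∀ W : Finset (Finset J), (∀ S ∈ W, P S) → (W.card : ℝ) ≤ N)
    (T : Finset (J → Option ℤ))
    (hT : ∀ f ∈ T, ∃ (S : Finset J) (b : J → ℤ), f = lab l t S b ∧ P S ∧ S.card ≤ m ∧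
      ∑ j ∈ S, |(b j : ℝ)| * l j ≤ x) :
    (T.card : ℝ) ≤ N * Real.exp (x * t + 3 * m) := by
  choose! S b h1 h2 h3 h4 using hT
  refine fib T S N _ (Real.exp_pos _).le (hN _ fun W hW => ?_) fun T' hT' e => ?_
  · obtain ⟨f, hf, rfl⟩ := mem_image.1 hW
    exact h2 f hf
  · rcases T'.eq_empty_or_nonempty with rfl | ⟨f, hf⟩
    · simpa using (Real.exp_pos _).le
    · refine (lab_count hl ht (S f) x hx T' fun g hg => ⟨b g, ?_, ?_⟩).trans
        (Real.exp_le_exp.2 ?_)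
      · rw [← e g hg f hf]
        exact h1 g (hT' hg)
      · rw [← e g hg f hf]
        exact h4 g (hT' hg)
      · have : ((S f).card : ℝ) ≤ m := Nat.cast_le.2 (h3 f (hT' hf))
        linarith

end

end

section

open Finset

theorem leaf_pi {ι β : Type*} [Fintype ι] [DecidableEq β] (T : Finset (ι → β)) (r : ι → ℝ)
    (h : ∀ i, ((T.image fun f => f i).card : ℝ) ≤ Real.exp (r i)) :
    (T.card : ℝ) ≤ Real.exp (∑ i, r i) := by
  classical
  have a : T.card ≤ (Fintype.piFinset fun i => T.image fun f => f i).card :=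
    card_le_card fun f hf => Fintype.mem_piFinset.2 fun i => mem_image_of_mem _ hf
  rw [Fintype.card_piFinset] at a
  rw [Real.exp_sum]
  refine (Nat.cast_le.2 a).trans ?_
  rw [Nat.cast_prod]
  exact prod_le_prod (fun _ _ => Nat.cast_nonneg _) fun i _ => h i

theorem leaf_sign {ι : Type*} [Fintype ι] (s : ι → ℤ) :
    ∃ σ : ℤ, (σ = 1 ∨ σ = -1) ∧ 2 * (univ.filter fun i => s i = σ).card ≤ Fintype.card ι := by
  classical
  have a : (univ.filter fun i => s i = 1).card + (univ.filter fun i => s i = -1).card ≤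
      Fintype.card ι := by
    rw [← card_union_of_disjoint (disjoint_filter.2 fun i _ h => by omega)]
    exact card_le_univ _
  rcases le_total (univ.filter fun i => s i = 1).card (univ.filter fun i => s i = -1).card with h | h
  · exact ⟨1, Or.inl rfl, by omega⟩
  · exact ⟨-1, Or.inr rfl, by omega⟩

theorem leaf_count {J : Type*} [Fintype J] [DecidableEq J] (l : J → ℝ) (hl : ∀ j, 0 ≤ l j)
    {ι : Type} [Fintype ι] (s : ι → ℤ) (hs : ∀ x, s x = 1 ∨ s x = -1) (t x y Q : ℝ) (m : ℕ)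
    (ht : 0 ≤ t) (hx : 0 ≤ x) (hy : 0 ≤ y)
    (ct : ∀ W : Finset (Finset J), (∀ S ∈ W, ms l S ≤ x) → (W.card : ℝ) ≤ Real.exp (x + m))
    (T : Finset (ι → J → Option ℤ))
    (hT : ∀ f ∈ T, ∀ i, ∃ (S : Finset J) (b : J → ℤ), f i = lab l t S b ∧ ms l S ≤ x ∧
      S.card ≤ m ∧ ∑ j ∈ S, |(b j : ℝ)| * l j ≤ y)
    (hQ : ((T.image (ind s)).card : ℝ) ≤ Q) :
    (T.card : ℝ) ≤ Q * Real.exp (Fintype.card ι *
      (x / 2 + m + Fintype.card ι * m + (y * t + 3 * m))) := by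
  classical
  choose! D b h1 h2 h3 h4 using hT
  obtain ⟨σ, hσ, hc⟩ := leaf_sign s
  refine fib T (ind s) Q _ (Real.exp_pos _).le hQ fun T' hT' e => ?_
  have hm : (0 : ℝ) ≤ m := Nat.cast_nonneg m
  have hc' : 2 * ((univ.filter fun i => s i = σ).card : ℝ) ≤ Fintype.card ι := by exact_mod_cast hc
  have a := leaf_pi (T'.image fun f i => if s i = σ then D f i else ∅)
    (fun i => if s i = σ then x + m else 0) fun i => by
      rw [image_image]
      by_cases h : s i = σ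
      · rw [if_pos h]
        refine ct _ fun S hS => ?_
        obtain ⟨f, hf, rfl⟩ := mem_image.1 hS
        simp only [Function.comp, if_pos h]
        exact h2 f (hT' hf) i
      · rw [if_neg h, Real.exp_zero]
        refine Nat.cast_le_one.2 (card_le_one.2 fun S hS S' hS' => ?_)
        obtain ⟨f, hf, rfl⟩ := mem_image.1 hS
        obtain ⟨g, hg, rfl⟩ := mem_image.1 hS'
        simp only [Function.comp, if_neg h]
  rw [← sum_filter, sum_const, nsmul_eq_mul] at a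
  have c := fib T' (fun f i => if s i = σ then D f i else ∅) _
    (Real.exp (∑ _i : ι, (Fintype.card ι * m + (y * t + 3 * m)))) (Real.exp_pos _).le a
    fun T'' hT'' e' => by
      rcases T''.eq_empty_or_nonempty with rfl | ⟨f, hf⟩
      · simpa using (Real.exp_pos _).le
      have mem : ∀ g ∈ T'', ∀ i j, g i j = none ↔ j ∉ D g i := fun g hg i j => by
        rw [h1 g (hT' (hT'' hg)) i, lab_none]
      have sub : ∀ g ∈ T'', ∀ i, D g i ⊆ univ.biUnion (D f) := fun g hg i j hj => by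
        by_contra hn
        have hn' : ∀ i', j ∉ D f i' := fun i' h => hn (mem_biUnion.2 ⟨i', mem_univ _, h⟩)
        have cl : ∀ i', s i' = σ → j ∉ D g i' := fun i' h => by
          have := congrFun (e' g hg f hf) i'
          simp only [if_pos h] at this
          rw [this]
          exact hn' i'
        have z : ind s f j = 0 := sum_eq_zero fun i' _ => if_pos ((mem f hf i' j).2 (hn' i'))
        have key : ∀ i', j ∈ D g i' → σ * (if g i' j = none then 0 else s i') = -1 :=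
          fun i' h => by
            rw [if_neg fun k => (mem g hg i' j).1 k h]
            have := fun k => cl i' k h
            rcases hσ with rfl | rfl <;> rcases hs i' with k | k <;> simp_all
        have lt : ∑ i', σ * (if g i' j = none then 0 else s i') < ∑ _i' : ι, (0 : ℤ) :=
          sum_lt_sum (fun i' _ => by
            by_cases h : j ∈ D g i'
            · rw [key i' h]; omega
            · rw [if_pos ((mem g hg i' j).2 h), mul_zero]) ⟨i, mem_univ _, by rw [key i hj]; omega⟩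
        rw [← mul_sum, sum_const_zero] at lt
        have e1 : ind s g j = 0 := (congrFun (e g (hT'' hg) f (hT'' hf)) j).trans z
        rw [show (∑ i', if g i' j = none then 0 else s i') = ind s g j from rfl, e1] at lt
        omega
      have cw : (univ.biUnion (D f)).card ≤ Fintype.card ι * m :=
        card_biUnion_le_card_mul _ _ _ fun i _ => h3 f (hT' (hT'' hf)) i
      refine leaf_pi T'' _ fun i => ?_
      rw [Real.exp_add]
      refine lab_count2 hl ht (fun S => S ⊆ univ.biUnion (D f)) _ y m hy (fun W hW => ?_) _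
        fun p hp => ?_
      · have w1 : W.card ≤ 2 ^ (Fintype.card ι * m) := by
          refine (card_le_card fun S hS => mem_powerset.2 (hW S hS)).trans ?_
          rw [card_powerset]
          exact Nat.pow_le_pow_right two_pos cw
        refine (Nat.cast_le.2 w1).trans ?_
        rw [← Nat.cast_mul, ← mul_one ((Fintype.card ι * m : ℕ) : ℝ), Real.exp_nat_mul, Nat.cast_pow]
        exact pow_le_pow_left₀ (Nat.cast_nonneg _) (by
          have := Real.add_one_le_exp 1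
          push_cast
          linarith) _
      · obtain ⟨g, hg, rfl⟩ := mem_image.1 hp
        have k := hT' (hT'' hg)
        exact ⟨D g i, b g i, h1 g k i, sub g hg i, h3 g k i, h4 g k i⟩
  refine c.trans ?_
  rw [← Real.exp_add, sum_const, card_univ, nsmul_eq_mul]
  refine Real.exp_le_exp.2 ?_
  have k0 : (0 : ℝ) ≤ Fintype.card ι := Nat.cast_nonneg _
  have k1 := mul_le_mul_of_nonneg_right hc' (add_nonneg hx hm)
  have k2 := mul_nonneg k0 hm
  linarith

end

section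

open Finset

section
variable {J α : Type*} [Fintype J] [DecidableEq J] {l : J → ℝ}

/-- Restriction of a vector to a set of coordinates. -/
noncomputable def pair_rs (S : Finset J) (b : J → ℤ) (j : J) : ℝ := if j ∈ S then (b j : ℝ) else 0

omit [DecidableEq J] in
theorem pair_sp {c : J → ℤ} {j : J} : j ∈ sp c ↔ c j ≠ 0 := by
  rw [sp, mem_filter, and_iff_right (mem_univ j)]

theorem pair_bnd (hl : ∀ j, 0 ≤ l j) {μ : J → ℝ} {S : Finset J} {c : ℝ}
    (h : ∀ j, |μ j| ≤ if j ∈ S then c else 0) : nr l μ ≤ c * ms l S := by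
  have e : c * ms l S = ∑ j, (if j ∈ S then c else 0) * l j := by
    simp only [ite_mul, zero_mul, sum_ite_mem, univ_inter, ms, mul_sum]
  rw [e]
  exact sum_le_sum fun j _ => mul_le_mul_of_nonneg_right (h j) (hl j)

omit [DecidableEq J] in
theorem pair_sgn (hl : ∀ j, 0 ≤ l j) {ι : Type} [Fintype ι] {s : ι → ℤ}
    (hs : ∀ i, s i = 1 ∨ s i = -1) {μ : ι → J → ℝ} {c : ℝ} (h : ∀ i, nr l (μ i) ≤ c) :
    nr l (fun j => ∑ i, (s i : ℝ) * μ i j) ≤ Fintype.card ι * c := by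
  refine (nr_sum hl univ fun i j => (s i : ℝ) * μ i j).trans ?_
  rw [← card_univ, ← nsmul_eq_mul]
  refine sum_le_card_nsmul _ _ _ fun i _ => ?_
  rw [nr_smul]
  rcases hs i with k | k <;> simpa [k] using h i

theorem pair_close {m : ℕ} {z : ℝ} (hz : 0 < z) {S S' : Finset J} {b b' : J → ℤ} (hS : S.card ≤ m)
    (h : lab l ((m + 1) / z) S b = lab l ((m + 1) / z) S' b') :
    nr l (fun j => pair_rs S b j - pair_rs S' b' j) ≤ z := by
  have a := lab_close (by positivity) h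
  have e := lab_dom h
  subst e
  have c : nr l (fun j => pair_rs S b j - pair_rs S b' j) = ∑ j ∈ S, |(b j : ℝ) - b' j| * l j := by
    rw [nr, ← sum_subset (subset_univ S) fun j _ hj => by simp [pair_rs, hj]]
    exact sum_congr rfl fun j hj => by simp only [pair_rs, if_pos hj]
  rw [c]
  refine a.trans ?_
  rw [div_div_eq_mul_div, div_le_iff₀ (by positivity)]
  have : (S.card : ℝ) ≤ m := Nat.cast_le.2 hS
  nlinarith

variable {F : Finset α} {b : α → J → ℤ} {L h : ℝ} {m : ℕ} {lam sm : ℝ}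

omit [DecidableEq J] in
theorem pair_card (P : Pre l F b L h m lam sm) {e : α} (he : e ∈ F) {S : Finset J} {w : ℝ}
    (hw : 0 < w) (hS : ∀ j ∈ S, w ≤ |(b e j : ℝ)|) : S.card ≤ m :=
  P.om S ((ms_mono P.l0 fun j hj => pair_sp.2 fun k => by
    have := hS j hj
    rw [k, Int.cast_zero, abs_zero] at this
    linarith).trans (P.mass e he))

theorem pair_low (P : Pre l F b L h m lam sm) {n : ℕ} {D wl wm wt : ℝ} (hwl : 0 < wl) (hD : 0 < D)
    (hn : wt ≤ n * D) {e : α} (he : e ∈ F) :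
    nr l (fun j => (b e j : ℝ) - ∑ v : Fin (2 * n + 1),
      pair_rs (it wm wt D ((v : ℤ) - n) (b e)) (b e) j - pair_rs (fx wl wm wt (b e)) (b e) j) ≤
      wl * L := by
  refine (pair_bnd P.l0 (S := sp (b e)) (c := wl) fun j => ?_).trans
    (mul_le_mul_of_nonneg_left (P.mass e he) hwl.le)
  have p0 : (0 : ℝ) ≤ if j ∈ sp (b e) then wl else 0 := by split_ifs <;> linarith
  simp only [pair_rs, it, fx, mem_filter, mem_univ, true_and]
  by_cases c : wm ≤ |(b e j : ℝ)| ∧ |(b e j : ℝ)| < wt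
  · have a := abs_lt.1 (c.2.trans_le hn)
    have a1 : -(n : ℤ) ≤ ⌊(b e j : ℝ) / D⌋ := Int.le_floor.2 (by
      rw [le_div_iff₀ hD]; push_cast; linarith)
    have a2 : ⌊(b e j : ℝ) / D⌋ < (n : ℤ) := Int.floor_lt.2 (by
      rw [div_lt_iff₀ hD]; push_cast; linarith)
    rw [sum_eq_single (⟨(⌊(b e j : ℝ) / D⌋ + n).toNat, by omega⟩ : Fin (2 * n + 1))
      (fun v _ hv => if_neg fun k => hv (Fin.ext (by have := k.2.2; simp only; omega)))
      (fun k => absurd (mem_univ _) k), if_pos ⟨c.1, c.2, by simp only; omega⟩,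
      if_neg fun k => k.2 c, sub_self, sub_zero, abs_zero]
    exact p0
  · rw [sum_eq_zero fun v _ => if_neg fun k => c ⟨k.1, k.2.1⟩, sub_zero]
    by_cases d : wl ≤ |(b e j : ℝ)|
    · rw [if_pos ⟨d, c⟩, sub_self, abs_zero]
      exact p0
    · rw [if_neg fun k => d k.1, sub_zero]
      by_cases f : j ∈ sp (b e)
      · rw [if_pos f]
        exact (not_le.1 d).le
      · rw [if_neg f, not_not.1 fun k => f (pair_sp.2 k), Int.cast_zero, abs_zero]

theorem pair_rest (P : Pre l F b L h m lam sm) {n : ℕ} {D wl wm wt z : ℝ} (hwl : 0 < wl)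
    (hD : 0 < D) (hn : wt ≤ n * D) (hz : 0 < z) {e e' : α} (he : e ∈ F) (he' : e' ∈ F)
    (hfix : lab l ((m + 1) / z) (fx wl wm wt (b e)) (b e) =
      lab l ((m + 1) / z) (fx wl wm wt (b e')) (b e')) :
    nr l (fun j => (b e j : ℝ) - b e' j - (∑ v : Fin (2 * n + 1),
      pair_rs (it wm wt D ((v : ℤ) - n) (b e)) (b e) j - ∑ v : Fin (2 * n + 1),
      pair_rs (it wm wt D ((v : ℤ) - n) (b e')) (b e') j)) ≤ z + 2 * (wl * L) := by
  have a := pair_close hz (pair_card P he hwl fun j hj => (mem_filter.1 hj).2.1) hfix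
  have c := pair_low P (wm := wm) hwl hD hn he
  have d := pair_low P (wm := wm) hwl hD hn he'
  have f := (nr_add P.l0 _ _).trans (add_le_add a ((nr_sub P.l0 _ _).trans (add_le_add c d)))
  refine (le_of_eq (congrArg (nr l) (funext fun j => ?_))).trans (f.trans_eq (by ring))
  ring

omit [DecidableEq J] in
theorem pair_it {wm wt D : ℝ} (hD : 0 < D) {w : ℤ} {c : J → ℤ} {j : J} (hj : j ∈ it wm wt D w c) :
    |(c j : ℝ) - w * D| ≤ D := by
  have k := (mem_filter.1 hj).2.2.2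
  have a := Int.floor_le ((c j : ℝ) / D)
  have d := Int.lt_floor_add_one ((c j : ℝ) / D)
  rw [k, le_div_iff₀ hD] at a
  rw [k, div_lt_iff₀ hD] at d
  rw [abs_le]
  constructor <;> linarith

end

/-- Two good tuples for the item `u`: the data needed for the separation property. -/
theorem pair {J α : Type*} [Fintype J] [DecidableEq J] {l : J → ℝ} {F : Finset α}
    {b : α → J → ℤ} {L h : ℝ} {m : ℕ} {lam sm : ℝ} (P : Pre l F b L h m lam sm) (n : ℕ)
    (η D wl wm wt z x E : ℝ) (hη : 0 < η) (hη1 : η ≤ 1 / 20) (hwl : 0 < wl) (hwm : 0 < wm)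
    (hD : D = η * wm) (hn : wt ≤ n * D) (hz : 0 < z)
    (hfix : ∀ e ∈ F, ∀ e' ∈ F, lab l ((m + 1) / z) (fx wl wm wt (b e)) (b e) =
      lab l ((m + 1) / z) (fx wl wm wt (b e')) (b e'))
    (u : Fin (2 * n + 1)) (hx : ∀ e ∈ F, ms l (it wm wt D ((u : ℤ) - n) (b e)) ≤ x)
    (hu : wm ≤ 2 * (|(((u : ℤ) - n : ℤ) : ℝ)| * D))
    {ι : Type} [Fintype ι] (s : ι → ℤ) (hs : ∀ i, s i = 1 ∨ s i = -1) (e e' : ι → α)
    (he : ∀ i, e i ∈ F) (he' : ∀ i, e' i ∈ F)
    (hE : nr l (fun j => ∑ i, (s i : ℝ) * ∑ v ∈ univ.erase u,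
      if j ∈ it wm wt D (((v : Fin (2 * n + 1)) : ℤ) - n) (b (e i)) then (b (e i) j : ℝ) else 0) ≤ E)
    (hE' : nr l (fun j => ∑ i, (s i : ℝ) * ∑ v ∈ univ.erase u,
      if j ∈ it wm wt D (((v : Fin (2 * n + 1)) : ℤ) - n) (b (e' i)) then (b (e' i) j : ℝ) else 0) ≤
        E) :
    nr l (fun j => ((∑ i, s i * (b (e i) j - b (e' i) j) : ℤ) : ℝ)) ≤
      2 * Fintype.card ι * ((|(((u : ℤ) - n : ℤ) : ℝ)| + 1) * D * x) +
        (2 * E + Fintype.card ι * (z + 2 * (wl * L))) ∧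
    nr l (fun j =>
      (ind s (fun i => lab l ((m + 1) / z) (it wm wt D ((u : ℤ) - n) (b (e i))) (b (e i))) j : ℝ) -
      (ind s (fun i => lab l ((m + 1) / z) (it wm wt D ((u : ℤ) - n) (b (e' i))) (b (e' i))) j : ℝ) -
      1 / ((((u : ℤ) - n : ℤ) : ℝ) * D) * ((∑ i, s i * (b (e i) j - b (e' i) j) : ℤ) : ℝ)) ≤
      4 * η * Fintype.card ι * x + 2 / wm * (2 * E + Fintype.card ι * (z + 2 * (wl * L))) := by
  have hl := P.l0
  have D0 : 0 < D := hD ▸ mul_pos hη hwm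
  set w : ℤ := (u : ℤ) - n with hw
  have wD : 0 < |(w : ℝ)| * D := by linarith
  have w0 : (w : ℝ) * D ≠ 0 := fun k => by
    rw [← abs_of_pos D0, ← abs_mul, k, abs_zero] at wD
    exact lt_irrefl _ wD
  have aw : |(w : ℝ) * D| = |(w : ℝ)| * D := by rw [abs_mul, abs_of_pos D0]
  have r := (nr_add hl _ _).trans (add_le_add ((nr_sub hl _ _).trans (add_le_add hE hE'))
    (pair_sgn hl hs fun i => pair_rest P (wm := wm) hwl D0 hn hz (he i) (he' i)
      (hfix _ (he i) _ (he' i))))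
  have res : nr l (fun j => ((∑ i, s i * (b (e i) j - b (e' i) j) : ℤ) : ℝ) -
      ∑ i, (s i : ℝ) * (pair_rs (it wm wt D w (b (e i))) (b (e i)) j -
        pair_rs (it wm wt D w (b (e' i))) (b (e' i)) j)) ≤
      2 * E + Fintype.card ι * (z + 2 * (wl * L)) := by
    refine (le_of_eq (congrArg (nr l) (funext fun j => ?_))).trans (r.trans_eq (by ring))
    push_cast
    rw [← sum_sub_distrib, ← sum_sub_distrib, ← sum_add_distrib]
    refine sum_congr rfl fun i _ => ?_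
    rw [← add_sum_erase _ _ (mem_univ u), ← add_sum_erase _ _ (mem_univ u)]
    simp only [pair_rs, hw]
    ring
  have n1 : ∀ a ∈ F, nr l (pair_rs (it wm wt D w (b a)) (b a)) ≤ (|(w : ℝ)| + 1) * D * x :=
    fun a ha => (pair_bnd hl (S := it wm wt D w (b a)) (c := (|(w : ℝ)| + 1) * D) fun j => by
      unfold pair_rs
      split_ifs with hj
      · have := abs_sub_abs_le_abs_sub (b a j : ℝ) (w * D)
        have := pair_it D0 hj
        linarith
      · exact abs_zero.le).trans (mul_le_mul_of_nonneg_left (hx a ha) (by positivity))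
  have n2 : ∀ a ∈ F, nr l (fun j => (if j ∈ it wm wt D w (b a) then (1 : ℝ) else 0) -
      1 / (w * D) * pair_rs (it wm wt D w (b a)) (b a) j) ≤ 2 * η * x :=
    fun a ha => (pair_bnd hl (S := it wm wt D w (b a)) (c := 2 * η) fun j => by
      unfold pair_rs
      split_ifs with hj
      · rw [show 1 - 1 / ((w : ℝ) * D) * b a j = -(b a j - w * D) / (w * D) by
            rw [neg_sub, sub_div, div_self w0]; ring,
          abs_div, abs_neg, aw, div_le_iff₀ wD]
        have := pair_it D0 hj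
        have := mul_le_mul_of_nonneg_left hu hη.le
        linarith
      · simp).trans (mul_le_mul_of_nonneg_left (hx a ha) (by positivity))
  constructor
  · have a := (nr_add hl _ _).trans (add_le_add (pair_sgn hl hs fun i =>
      (nr_sub hl _ _).trans (add_le_add (n1 _ (he i)) (n1 _ (he' i)))) res)
    refine (le_of_eq (congrArg (nr l) (funext fun j => ?_))).trans (a.trans_eq (by ring))
    ring
  · have t : |1 / ((w : ℝ) * D)| ≤ 2 / wm := by
      rw [abs_div, abs_one, aw, div_le_div_iff₀ wD hwm]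
      linarith
    have c := (nr_smul (l := l) (1 / ((w : ℝ) * D)) _).trans_le
      (mul_le_mul t res (nr_nonneg hl _) (by positivity))
    have a := (nr_sub hl _ _).trans (add_le_add (pair_sgn hl hs fun i =>
      (nr_sub hl _ _).trans (add_le_add (n2 _ (he i)) (n2 _ (he' i)))) c)
    refine (le_of_eq (congrArg (nr l) (funext fun j => ?_))).trans (a.trans_eq (by ring))
    have k : ∀ f : ι → α, (ind s (fun i => lab l ((m + 1) / z) (it wm wt D w (b (f i))) (b (f i))) j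
        : ℝ) = ∑ i, (s i : ℝ) * if j ∈ it wm wt D w (b (f i)) then (1 : ℝ) else 0 := fun f => by
      unfold ind
      push_cast
      refine sum_congr rfl fun i _ => ?_
      by_cases hj : j ∈ it wm wt D w (b (f i))
      · rw [if_neg fun k => lab_none.1 k hj, if_pos hj, mul_one]
      · rw [if_pos (lab_none.2 hj), if_neg hj, mul_zero]
    rw [k e, k e', mul_sub, mul_sum, sub_sub_eq_add_sub, ← sum_add_distrib, ← sum_sub_distrib]
    refine congrArg (· - _) (sum_congr rfl fun i _ => ?_)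
    ring

/-- Equal labels on all items: the vectors are close. -/
theorem pair_inj {J α : Type*} [Fintype J] [DecidableEq J] {l : J → ℝ} {F : Finset α}
    {b : α → J → ℤ} {L h : ℝ} {m : ℕ} {lam sm : ℝ} (P : Pre l F b L h m lam sm) (n : ℕ)
    (D wl wm wt z : ℝ) (hwl : 0 < wl) (hwm : 0 < wm) (hD : 0 < D) (hn : wt ≤ n * D) (hz : 0 < z)
    {e e' : α} (he : e ∈ F) (he' : e' ∈ F)
    (hfix : lab l ((m + 1) / z) (fx wl wm wt (b e)) (b e) =
      lab l ((m + 1) / z) (fx wl wm wt (b e')) (b e'))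
    (hit : ∀ u : Fin (2 * n + 1), lab l ((m + 1) / z) (it wm wt D ((u : ℤ) - n) (b e)) (b e) =
      lab l ((m + 1) / z) (it wm wt D ((u : ℤ) - n) (b e')) (b e')) :
    nr l (fun j => (b e j : ℝ) - b e' j) ≤ (2 * n + 2) * z + 2 * (wl * L) := by
  have a := pair_rest P (wm := wm) hwl hD hn hz he he' hfix
  have c := (nr_sum P.l0 univ _).trans (sum_le_card_nsmul _ _ z fun (v : Fin (2 * n + 1)) _ =>
    pair_close hz (pair_card P he hwm fun j hj => (mem_filter.1 hj).2.1) (hit v))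
  rw [card_univ, Fintype.card_fin, nsmul_eq_mul] at c
  have f := (nr_add P.l0 _ _).trans (add_le_add c a)
  refine (le_of_eq (congrArg (nr l) (funext fun j => ?_))).trans (f.trans_eq (by push_cast; ring))
  rw [sum_sub_distrib]
  ring

end

section

open Finset

theorem dirichlet {J : Type*} (S : Finset J) (x : J → ℝ) (K M : ℕ) (hK : S.card ≤ K)
    (hM : 1 ≤ M) : ∃ d : ℕ, 1 ≤ d ∧ d ≤ M ^ K ∧ ∀ j ∈ S, |d * x j - round (d * x j)| ≤ 1 / M := by
  classical
  have hM0 : (0 : ℝ) < M := by exact_mod_cast hM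
  let f : ℕ → S → ℕ := fun d j => ⌊Int.fract (d * x j) * M⌋₊
  have hc : (Fintype.piFinset fun _ : S => range M).card < (range (M ^ K + 1)).card := by
    rw [Fintype.card_piFinset, card_range]
    simp only [card_range, prod_const, card_univ, Fintype.card_coe]
    exact Nat.lt_succ_of_le (Nat.pow_le_pow_right hM hK)
  have key : ∀ d1 d2 : ℕ, d1 < d2 → d2 ≤ M ^ K → f d1 = f d2 →
      ∃ d : ℕ, 1 ≤ d ∧ d ≤ M ^ K ∧ ∀ j ∈ S, |d * x j - round (d * x j)| ≤ 1 / M := by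
    intro d1 d2 h12 h2 hf
    refine ⟨d2 - d1, by omega, by omega, fun j hj => ?_⟩
    refine (round_le _ (⌊d2 * x j⌋ - ⌊d1 * x j⌋)).trans ?_
    have e : ((d2 - d1 : ℕ) : ℝ) * x j - ((⌊d2 * x j⌋ - ⌊d1 * x j⌋ : ℤ) : ℝ) =
        Int.fract (d2 * x j) - Int.fract (d1 * x j) := by
      rw [Nat.cast_sub h12.le]; unfold Int.fract; push_cast; ring
    have h0 : ⌊Int.fract (d1 * x j) * M⌋₊ = ⌊Int.fract (d2 * x j) * M⌋₊ := congrFun hf ⟨j, hj⟩
    have a1 := Nat.floor_le (mul_nonneg (Int.fract_nonneg (d1 * x j)) hM0.le)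
    have a2 := Nat.floor_le (mul_nonneg (Int.fract_nonneg (d2 * x j)) hM0.le)
    have a3 := Nat.lt_floor_add_one (Int.fract (d1 * x j) * M)
    have a4 := Nat.lt_floor_add_one (Int.fract (d2 * x j) * M)
    rw [h0] at a1 a3
    rw [e, le_div_iff₀ hM0, ← abs_of_pos hM0, ← abs_mul, abs_le, sub_mul]
    constructor <;> linarith only [a1, a2, a3, a4]
  obtain ⟨d1, h1, d2, h2, hne, hf⟩ := exists_ne_map_eq_of_card_lt_of_maps_to hc (f := f) (by
    intro d _
    simp only [mem_coe, Fintype.mem_piFinset, mem_range]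
    intro j
    rw [Nat.floor_lt (mul_nonneg (Int.fract_nonneg _) hM0.le)]
    exact mul_lt_of_lt_one_left hM0 (Int.fract_lt_one _))
  rw [mem_range] at h1 h2
  rcases lt_or_gt_of_ne hne with h | h
  · exact key d1 d2 h (by omega) hf
  · exact key d2 d1 h (by omega) hf.symm

theorem ind_small {β : Type*} [DecidableEq β] (U : Finset β) (K : ℕ) (Z : Finset (Finset β))
    (hZ : ∀ S ∈ Z, S ⊆ U ∧ S.card ≤ K) : Z.card ≤ (K + 1) * (U.card + 1) ^ K := by
  have h1 : Z ⊆ (range (K + 1)).biUnion fun i => powersetCard i U := fun S hS =>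
    mem_biUnion.2 ⟨S.card, mem_range.2 (Nat.lt_succ_of_le (hZ S hS).2),
      mem_powersetCard.2 ⟨(hZ S hS).1, rfl⟩⟩
  refine (card_le_card h1).trans (card_biUnion_le.trans ?_)
  refine (sum_le_card_nsmul _ _ ((U.card + 1) ^ K) fun i hi => ?_).trans (by simp)
  rw [card_powersetCard]
  exact (Nat.choose_le_pow _ _).trans ((Nat.pow_le_pow_left (Nat.le_succ _) _).trans
    (Nat.pow_le_pow_right (Nat.succ_pos _) (Nat.lt_succ_iff.1 (mem_range.1 hi))))

theorem indep {J : Type*} [Fintype J] [DecidableEq J] (T : Finset (J → ℤ)) (K n D : ℕ) (Q : ℝ)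
    (hT : ∀ μ ∈ T, (sp μ).card ≤ K ∧ ∀ j, |μ j| ≤ D)
    (hQ : ∀ W : Finset (J → ℤ), (∀ ω ∈ W, ∃ t : Fin n → J → ℤ, (∀ i, t i ∈ T) ∧
      ∀ j, ω j = ∑ i, t i j) → (W.card : ℝ) ≤ Q) :
    ∃ G : ℕ, (G : ℝ) ^ n ≤ (n : ℝ) ^ n * Q ∧ T.card ≤ (K + 1) * ((2 * D + 1) * K * G + 1) ^ K := by
  classical
  obtain ⟨G, hG, hmin⟩ := exists_min_image
    (T.powerset.filter fun G => ∀ μ ∈ T, ∀ j, μ j ≠ 0 → ∃ g ∈ G, g j ≠ 0) card
    ⟨T, mem_filter.2 ⟨mem_powerset_self T, fun μ hμ j hj => ⟨μ, hμ, hj⟩⟩⟩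
  obtain ⟨hGT, hcov⟩ := mem_filter.1 hG
  rw [mem_powerset] at hGT
  have hpriv : ∀ g ∈ G, ∃ j, g j ≠ 0 ∧ ∀ g' ∈ G, g' ≠ g → g' j = 0 := by
    intro g hg
    by_contra hcon
    push Not at hcon
    have := hmin (G.erase g) (mem_filter.2 ⟨mem_powerset.2 ((erase_subset _ _).trans hGT), ?_⟩)
    · exact absurd (card_erase_lt_of_mem hg) (not_lt.2 this)
    · intro μ hμ j hj
      obtain ⟨g1, h1, h2⟩ := hcov μ hμ j hj
      by_cases e : g1 = g
      · obtain ⟨g', h3, h4, h5⟩ := hcon j (e ▸ h2)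
        exact ⟨g', mem_erase.2 ⟨h4, h3⟩, h5⟩
      · exact ⟨g1, mem_erase.2 ⟨e, h1⟩, h2⟩
  refine ⟨G.card, ?_, ?_⟩
  · have h1 := fib (Fintype.piFinset fun _ : Fin n => G) (fun t j => ∑ i, t i j) Q ((n : ℝ) ^ n)
      (by positivity) (hQ _ fun ω hω => by
        obtain ⟨t, ht, rfl⟩ := mem_image.1 hω
        exact ⟨t, fun i => hGT (Fintype.mem_piFinset.1 ht i), fun _ => rfl⟩) (by
      intro S' hS' hsame
      rcases S'.eq_empty_or_nonempty with rfl | ⟨t0, ht0⟩
      · simp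
      have hsub : S' ⊆ Fintype.piFinset fun _ : Fin n => univ.image t0 := by
        intro t ht
        rw [Fintype.mem_piFinset]
        intro i
        have htG := Fintype.mem_piFinset.1 (hS' ht)
        have ht0G := Fintype.mem_piFinset.1 (hS' ht0)
        obtain ⟨j, hj, hp⟩ := hpriv _ (htG i)
        by_contra hn
        have e : ∑ i, t i j = ∑ i, t0 i j := congrFun (hsame t ht t0 ht0) j
        have e0 : ∑ i', t0 i' j = 0 := sum_eq_zero fun i' _ =>
          hp _ (ht0G i') fun h => hn (mem_image.2 ⟨i', mem_univ _, h⟩)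
        have e1 : ∑ i', t i' j * t i j = 0 := by rw [← sum_mul, e, e0, zero_mul]
        have e2 := (sum_eq_zero_iff_of_nonneg fun i' _ => by
          by_cases h : t i' = t i
          · rw [h]; exact mul_self_nonneg _
          · rw [hp _ (htG i') h, zero_mul]).1 e1 i (mem_univ _)
        exact hj (mul_self_eq_zero.1 e2)
      have h2 : S'.card ≤ n ^ n := by
        refine (card_le_card hsub).trans ?_
        rw [Fintype.card_piFinset, prod_const, card_univ, Fintype.card_fin]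
        exact Nat.pow_le_pow_left (card_image_le.trans (by simp)) _
      exact_mod_cast h2)
    rw [Fintype.card_piFinset, prod_const, card_univ, Fintype.card_fin] at h1
    push_cast at h1
    rwa [mul_comm]
  · let gr : (J → ℤ) → Finset (J × ℤ) := fun μ => (sp μ).image fun j => (j, μ j)
    have hinj : Function.Injective gr := by
      have aux : ∀ μ μ' : J → ℤ, gr μ = gr μ' → ∀ j, μ j ≠ 0 → μ j = μ' j := by
        intro μ μ' h j hj
        have : (j, μ j) ∈ gr μ' := h ▸ mem_image.2 ⟨j, by simpa [sp] using hj, rfl⟩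
        obtain ⟨j', -, e⟩ := mem_image.1 this
        obtain ⟨rfl, e2⟩ := Prod.mk.inj e
        exact e2.symm
      intro μ μ' h
      funext j
      by_cases h1 : μ j = 0
      · by_cases h2 : μ' j = 0
        · rw [h1, h2]
        · exact (aux μ' μ h.symm j h2).symm
      · exact aux μ μ' h j h1
    rw [← card_image_of_injective T hinj]
    refine (ind_small (G.biUnion sp ×ˢ Icc (-(D : ℤ)) D) K _ fun S hS => ?_).trans ?_
    · obtain ⟨μ, hμ, rfl⟩ := mem_image.1 hS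
      refine ⟨fun p hp => ?_, card_image_le.trans (hT μ hμ).1⟩
      obtain ⟨j, hj, rfl⟩ := mem_image.1 hp
      obtain ⟨g, h1, h2⟩ := hcov μ hμ j (by simpa [sp] using hj)
      exact mem_product.2 ⟨mem_biUnion.2 ⟨g, h1, by simpa [sp] using h2⟩,
        mem_Icc.2 (abs_le.1 ((hT μ hμ).2 j))⟩
    · have h1 : (G.biUnion sp).card ≤ G.card * K :=
        card_biUnion_le_card_mul _ _ _ fun g hg => (hT g (hGT hg)).1
      have h2 : (Icc (-(D : ℤ)) D).card = 2 * D + 1 := by rw [Int.card_Icc]; omega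
      rw [card_product, h2]
      refine Nat.mul_le_mul_left _ (Nat.pow_le_pow_left (Nat.succ_le_succ ?_) _)
      calc _ ≤ G.card * K * (2 * D + 1) := Nat.mul_le_mul_right _ h1
        _ = _ := by ring

end

section

open Finset

/-- Rounded vector. -/
noncomputable def s2mu {J : Type*} (l : J → ℝ) (lam τ : ℝ) (b : J → ℤ) : J → ℤ :=
  fun j => if lam ≤ l j then round (τ * b j) else 0

theorem s2_err {J : Type*} [Fintype J] {l : J → ℝ} (hl : ∀ j, 0 ≤ l j) {lam τ δ L sm : ℝ}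
    {b : J → ℤ} (hτ : 0 ≤ τ) (hδ : 0 ≤ δ) (hm : ms l (sp b) ≤ L)
    (hs : ∑ j with l j < lam, |(b j : ℝ)| * l j ≤ sm)
    (hr : ∀ j, b j ≠ 0 → lam ≤ l j → |τ * b j - round (τ * b j)| ≤ δ) :
    nr l (fun j => (s2mu l lam τ b j : ℝ) - τ * b j) ≤ δ * L + τ * sm := by
  refine le_trans ?_ (add_le_add (mul_le_mul_of_nonneg_left hm hδ)
    (mul_le_mul_of_nonneg_left hs hτ))
  unfold nr ms sp
  rw [mul_sum, mul_sum, sum_filter, sum_filter, ← sum_add_distrib]
  refine sum_le_sum fun j _ => ?_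
  have h0 := hl j
  unfold s2mu
  beta_reduce
  by_cases h1 : lam ≤ l j
  · rw [if_pos h1, if_neg (not_lt.2 h1), add_zero]
    by_cases h2 : b j = 0
    · simp [h2]
    · rw [if_pos h2, abs_sub_comm]
      exact mul_le_mul_of_nonneg_right (hr j h2 h1) h0
  · rw [if_neg h1, if_pos (not_le.1 h1), Int.cast_zero, zero_sub, abs_neg, abs_mul,
      abs_of_nonneg hτ, mul_assoc]
    refine le_add_of_nonneg_left ?_
    split_ifs
    · exact mul_nonneg hδ h0
    · exact le_rfl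

theorem s2_big {J : Type*} {l : J → ℝ} (hl : ∀ j, 0 ≤ l j) {S S' : Finset J} {ε L : ℝ} {K : ℕ}
    (hL : 0 < L) (hK : 1 ≤ K * ε) (hε : 0 < ε) (hS : S ⊆ S') (hm : ms l S' ≤ L)
    (hb : ∀ j ∈ S, ε * L ≤ l j) : S.card ≤ K := by
  have h1 : (S.card : ℝ) * (ε * L) ≤ ms l S := by
    rw [← nsmul_eq_mul]; exact card_nsmul_le_sum _ _ _ hb
  have h2 := h1.trans ((ms_mono hl hS).trans hm)
  have h3 : (S.card : ℝ) * (ε * L) ≤ K * (ε * L) := by
    refine h2.trans ?_
    rw [← mul_assoc]; exact le_mul_of_one_le_left hL.le hK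
  exact_mod_cast le_of_mul_le_mul_right h3 (mul_pos hε hL)

theorem s2_cls {α J : Type*} [Fintype J] {l : J → ℝ} {F : Finset α} {b : α → J → ℤ}
    {L h lam sm θ ρ ε τ w : ℝ} {m K N P : ℕ} (M : Mdl l F b L h m lam sm θ (4 * N) ρ)
    (hN : 1 ≤ N) (hε : 0 < ε) (hL : 0 < L) (hθ : 0 < θ) (hK : 1 ≤ K * ε) (hτ : 0 < τ)
    (hτθ : τ ≤ θ) (hτ1 : L ≤ τ * h) (hτP : τ * h ≤ P * L) (hw : 2 * N * w ≤ ε * θ * L)
    (hwL : w ≤ L) (hw2 : 2 * w ≤ θ * L) (hm : (m : ℝ) + 1 ≤ θ * (ε * θ * L))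
    (hκ : ε * θ * L ≤ θ * h) (hNL : N * L ≤ θ * h)
    (herr : ∀ e ∈ F, nr l (fun j => (s2mu l (ε * L) τ (b e) j : ℝ) - τ * b e j) ≤ w) :
    ∃ G : ℕ, (G : ℝ) ^ N ≤ (N : ℝ) ^ N * (Real.exp (ε * L + ρ) * (N * (2 * P + 1) * L + 1)) ∧
      F.card ≤ (K + 1) * ((2 * ((2 * P + 1) * K) + 1) * K * G + 1) ^ K := by
  classical
  have hl := M.pre.l0
  set μ : α → J → ℤ := fun e => s2mu l (ε * L) τ (b e) with hμ
  have hnr : ∀ e ∈ F, nr l (fun j => (μ e j : ℝ)) ≤ (2 * P + 1) * L := by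
    intro e he
    have h1 := nr_add hl (fun j => (μ e j : ℝ) - τ * b e j) fun j => τ * b e j
    simp only [sub_add_cancel] at h1
    rw [nr_smul, abs_of_pos hτ] at h1
    have h2 := mul_le_mul_of_nonneg_left (M.pre.nb e he) hτ.le
    linarith only [h1, h2, herr e he, hwL, hτP]
  have hinj : Set.InjOn μ F := by
    intro e he e' he' hee
    refine M.li e he e' he' (le_of_mul_le_mul_left ?_ hτ)
    have h1 := nr_sub hl (fun j => (μ e' j : ℝ) - τ * b e' j) fun j => (μ e j : ℝ) - τ * b e j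
    have h2 : (fun j => ((μ e' j : ℝ) - τ * b e' j) - ((μ e j : ℝ) - τ * b e j)) =
        fun j => τ * ((b e j : ℝ) - b e' j) := by
      funext j; rw [hee]; ring
    rw [h2, nr_smul, abs_of_pos hτ] at h1
    have h3 := mul_le_mul_of_nonneg_left hτ1 hθ.le
    linarith only [h1, h3, herr e he, herr e' he', hw2]
  rw [← card_image_of_injOn hinj]
  refine indep _ K N ((2 * P + 1) * K) _ (fun ν hν => ?_) fun W hW => ?_
  · obtain ⟨e, he, rfl⟩ := mem_image.1 hν
    have hb : ∀ j, μ e j ≠ 0 → ε * L ≤ l j ∧ b e j ≠ 0 := by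
      intro j hj
      simp only [hμ, s2mu] at hj
      by_cases h1 : ε * L ≤ l j
      · exact ⟨h1, fun h2 => hj (by simp [h2])⟩
      · exact absurd (if_neg h1) hj
    refine ⟨s2_big hl hL hK hε (fun j hj => ?_) (M.pre.mass e he) fun j hj => ?_, fun j => ?_⟩
    · simp only [sp, mem_filter, mem_univ, true_and] at hj ⊢
      exact (hb j hj).2
    · simp only [sp, mem_filter, mem_univ, true_and] at hj
      exact (hb j hj).1
    · by_cases hj : μ e j = 0
      · rw [hj]; positivity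
      have h1 : |(μ e j : ℝ)| * l j ≤ nr l fun j => (μ e j : ℝ) :=
        single_le_sum (f := fun j => |(μ e j : ℝ)| * l j)
          (fun j _ => mul_nonneg (abs_nonneg _) (hl j)) (mem_univ j)
      have h2 := mul_le_mul_of_nonneg_left (hb j hj).1 (abs_nonneg (μ e j : ℝ))
      have h3 : (2 * P + 1) * L * 1 ≤ (2 * P + 1) * L * (K * ε) :=
        mul_le_mul_of_nonneg_left hK (by positivity)
      have h4 : |(μ e j : ℝ)| * (ε * L) ≤ (2 * P + 1) * K * (ε * L) := by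
        linarith only [h1, h2, h3, hnr e he]
      have h5 := le_of_mul_le_mul_right h4 (mul_pos hε hL)
      exact_mod_cast h5
  · have hW' : ∀ ω ∈ W, ∃ e : Fin N → α, (∀ i, e i ∈ F) ∧ ∀ j, ω j = ∑ i, μ (e i) j := by
      intro ω hω
      obtain ⟨t, h1, h2⟩ := hW ω hω
      choose e he1 he2 using fun i => mem_image.1 (h1 i)
      exact ⟨e, he1, fun j => by rw [h2]; exact sum_congr rfl fun i _ => by rw [he2]⟩
    have hs := M.sep N (ε * θ * L) (N * (2 * P + 1) * L) (by positivity) hm hκ hNL W ?_ ?_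
    · rwa [show ε * θ * L / θ = ε * L by field_simp] at hs
    · intro ω hω
      obtain ⟨e, h1, h2⟩ := hW' ω hω
      simp only [h2, Int.cast_sum]
      refine (nr_sum hl _ _).trans ((sum_le_card_nsmul _ _ _ fun i _ => hnr _ (h1 i)).trans ?_)
      simp [mul_assoc]
    · intro ω hω ω' hω'
      obtain ⟨e, h1, h2⟩ := hW' ω hω
      obtain ⟨e', h1', h2'⟩ := hW' ω' hω'
      refine ⟨fun j => ∑ i, (b (e i) j - b (e' i) j), τ, ⟨Fin N, inferInstance, e, e',
        fun _ => 1, by simp, fun x => ⟨h1 x, h1' x, Or.inl rfl⟩, fun j => by simp⟩,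
        by rwa [abs_of_pos hτ], ?_, ?_⟩
      · simp only [Int.cast_sum, Int.cast_sub]
        refine (nr_sum hl _ _).trans ((sum_le_card_nsmul _ _ (4 * h) fun i _ =>
          (nr_sub hl _ _).trans ?_).trans (le_of_eq ?_))
        · linarith only [M.pre.nb _ (h1 i), M.pre.nb _ (h1' i)]
        · rw [card_univ, Fintype.card_fin, nsmul_eq_mul]; ring
      · have e3 : (fun j => (ω j : ℝ) - ω' j - τ * ((∑ i, (b (e i) j - b (e' i) j) : ℤ) : ℝ)) =
            fun j => ∑ i, (((μ (e i) j : ℝ) - τ * b (e i) j) -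
              ((μ (e' i) j : ℝ) - τ * b (e' i) j)) := by
          funext j
          rw [h2, h2']
          push_cast
          rw [mul_sum, ← sum_sub_distrib, ← sum_sub_distrib]
          exact sum_congr rfl fun i _ => by ring
        rw [e3]
        refine (nr_sum hl _ _).trans ((sum_le_card_nsmul _ _ (2 * w) fun i _ =>
          (nr_sub hl _ _).trans ?_).trans ?_)
        · linarith only [herr _ (h1 i), herr _ (h1' i)]
        · rw [card_univ, Fintype.card_fin, nsmul_eq_mul]; linarith only [hw]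

theorem s2_num {ε L ρ c : ℝ} {K G D : ℕ} (hε : 0 < ε) (hε1 : ε ≤ 1) (hK : 1 ≤ K * ε)
    (hρ : 0 ≤ ρ) (hc : 0 ≤ c) (hL : 2 * c ≤ L)
    (hG : (G : ℝ) ^ (K * K) ≤ ((K * K : ℕ) : ℝ) ^ (K * K) * (Real.exp (ε * L + ρ) * (c * L + 1))) :
    ((D * G + 1 : ℕ) : ℝ) ^ K ≤
      ((D * (K * K) + 1 : ℕ) : ℝ) ^ K * Real.exp (ε * ρ + 2 * ε * L) := by
  have hL0 : 0 ≤ L := by linarith only [hc, hL]
  have hK0 : (0 : ℝ) < K := (mul_pos_iff_of_pos_right hε).1 (one_pos.trans_le hK)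
  have hKn : K * K ≠ 0 := by
    have : K ≠ 0 := by exact_mod_cast hK0.ne'
    positivity
  have h1 : c * L + 1 ≤ Real.exp L := by
    have := Real.quadratic_le_exp_of_nonneg hL0
    nlinarith only [this, hL, hL0]
  set Y := Real.exp ((ρ + 2 * L) / (K * K)) with hY
  have hY1 : 1 ≤ Y := Real.one_le_exp (by positivity)
  have h2 : (G : ℝ) ≤ (K * K : ℕ) * Y := by
    refine le_of_pow_le_pow_left₀ hKn (by positivity) (hG.trans ?_)
    rw [mul_pow]
    refine mul_le_mul_of_nonneg_left ?_ (by positivity)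
    rw [hY, ← Real.exp_nat_mul]
    refine (mul_le_mul_of_nonneg_left h1 (Real.exp_pos _).le).trans ?_
    rw [← Real.exp_add, Real.exp_le_exp]
    have : ((K * K : ℕ) : ℝ) * ((ρ + 2 * L) / (K * K)) = ρ + 2 * L := by
      push_cast; field_simp
    rw [this]
    nlinarith only [hε1, hL0]
  have h3 : ((D * G + 1 : ℕ) : ℝ) ≤ ((D * (K * K) + 1 : ℕ) : ℝ) * Y := by
    have := mul_le_mul_of_nonneg_left h2 (Nat.cast_nonneg (α := ℝ) D)
    push_cast at this ⊢
    linarith only [this, hY1]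
  refine (pow_le_pow_left₀ (by positivity) h3 K).trans ?_
  rw [mul_pow]
  refine mul_le_mul_of_nonneg_left ?_ (by positivity)
  rw [hY, ← Real.exp_nat_mul, Real.exp_le_exp]
  have e : (K : ℝ) * ((ρ + 2 * L) / (K * K)) = (ρ + 2 * L) / K := by field_simp
  rw [e, div_le_iff₀ hK0]
  have : (ρ + 2 * L) * 1 ≤ (ρ + 2 * L) * (K * ε) :=
    mul_le_mul_of_nonneg_left hK (by positivity)
  linarith only [this]

theorem S2 {α : Type*} (ε : ℝ) (hε : 0 < ε) (hε1 : ε ≤ 1) : ∃ C : ℝ, 1 ≤ C ∧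
    ∀ θ : ℝ, 0 < θ → θ ≤ 1 → ∃ η A ε₁ : ℝ, 0 < η ∧ η ≤ 1 ∧ 0 < ε₁ ∧
      ∀ (n : ℕ) (l : Fin n → ℝ) (F : Finset α) (b : α → Fin n → ℤ) (L h : ℝ) (m : ℕ) (ρ : ℝ),
        Mdl l F b L h m (ε * L) (η * h) θ C ρ → 0 ≤ ρ → A * L ≤ h → (m : ℝ) + 1 ≤ ε₁ * L →
        (F.card : ℝ) ≤ Real.exp (ε * ρ + 4 * ε * L) := by
  classical
  obtain ⟨K, hK⟩ : ∃ K : ℕ, 1 ≤ K * ε := ⟨⌈1 / ε⌉₊, (div_le_iff₀ hε).1 (Nat.le_ceil _)⟩
  have hK0 : (0 : ℝ) < K := (mul_pos_iff_of_pos_right hε).1 (one_pos.trans_le hK)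
  have hK1 : 1 ≤ K := by exact_mod_cast hK0
  obtain ⟨N, hN⟩ : ∃ N : ℕ, N = K * K := ⟨_, rfl⟩
  have hN1 : 1 ≤ N := hN ▸ Nat.mul_pos hK1 hK1
  have hN1' : (1 : ℝ) ≤ N := by exact_mod_cast hN1
  refine ⟨4 * N, by linarith only [hN1'], fun θ hθ hθ1 => ?_⟩
  have hεθ : 0 < ε * θ := mul_pos hε hθ
  have hεθ1 : ε * θ ≤ 1 := mul_le_one₀ hε1 hθ.le hθ1
  obtain ⟨M, hM⟩ : ∃ M : ℕ, 4 * N ≤ M * (ε * θ) :=
    ⟨⌈4 * N / (ε * θ)⌉₊, (div_le_iff₀ hεθ).1 (Nat.le_ceil _)⟩
  have hM0 : (0 : ℝ) < M :=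
    (mul_pos_iff_of_pos_right hεθ).1 (lt_of_lt_of_le (by linarith only [hN1']) hM)
  have hM1 : 1 ≤ M := by exact_mod_cast hM0
  obtain ⟨P, hP⟩ : ∃ P : ℕ, P = M ^ K := ⟨_, rfl⟩
  have hP1 : (1 : ℝ) ≤ P := by exact_mod_cast hP ▸ Nat.one_le_pow _ _ hM1
  obtain ⟨c, hc⟩ : ∃ c : ℝ, c = P * ((K + 1) *
    (((2 * ((2 * P + 1) * K) + 1) * K * (K * K) + 1 : ℕ) : ℝ) ^ K) := ⟨_, rfl⟩
  have hc0 : 0 < c := by rw [hc]; positivity
  obtain ⟨ε₁, h0, h1, h2, h3⟩ : ∃ ε₁ : ℝ, 0 < ε₁ ∧ ε₁ ≤ θ * (ε * θ) ∧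
      ε₁ * (2 * (N * (2 * P + 1))) ≤ 1 ∧ ε₁ * c ≤ ε := by
    refine ⟨min (θ * (ε * θ)) (min (1 / (2 * (N * (2 * P + 1)))) (ε / c)), by positivity,
      min_le_left _ _, ?_, ?_⟩
    · exact (le_div_iff₀ (by positivity)).1 ((min_le_right _ _).trans (min_le_left _ _))
    · exact (le_div_iff₀ hc0).1 ((min_le_right _ _).trans (min_le_right _ _))
  refine ⟨ε * θ / (4 * N * P), (P + N) / θ, ε₁, by positivity, ?_, h0, ?_⟩
  · rw [div_le_one (by positivity)]
    nlinarith only [hεθ1, hN1', hP1]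
  intro n l F b L h m ρ Md hρ hA hm
  have hL1 : 1 ≤ ε₁ * L := le_trans (le_add_of_nonneg_left (Nat.cast_nonneg m)) hm
  have hL : 0 < L := (mul_pos_iff_of_pos_left h0).1 (one_pos.trans_le hL1)
  rw [div_mul_eq_mul_div, div_le_iff₀ hθ] at hA
  have hPL : 0 < P * L := by positivity
  have hNL : L ≤ N * L := le_mul_of_one_le_left hL.le hN1'
  have hh : 0 < h := (mul_pos_iff_of_pos_right hθ).1
    (by linarith only [hA, hPL, hNL, hL])
  have hdir : ∀ e : α, ∃ d : ℕ, e ∈ F → 1 ≤ d ∧ d ≤ P ∧ ∀ j, b e j ≠ 0 → ε * L ≤ l j →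
      |d * L / h * b e j - round (d * L / h * b e j)| ≤ 1 / M := by
    intro e
    by_cases he : e ∈ F
    · obtain ⟨d, d1, d2, d3⟩ := dirichlet ((sp (b e)).filter fun j => ε * L ≤ l j)
        (fun j => L / h * b e j) K M (s2_big Md.pre.l0 hL hK hε (filter_subset _ _)
          (Md.pre.mass e he) fun j hj => (mem_filter.1 hj).2) hM1
      refine ⟨d, fun _ => ⟨d1, hP ▸ d2, fun j j1 j2 => ?_⟩⟩
      have := d3 j (mem_filter.2 ⟨by simpa [sp] using j1, j2⟩)
      rwa [show (d : ℝ) * (L / h * b e j) = d * L / h * b e j by ring] at this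
    · exact ⟨0, fun h => absurd h he⟩
  choose d hd using hdir
  have main := fib F d P (c / P * Real.exp (ε * ρ + 2 * ε * L)) (by positivity) (by
    have : F.image d ⊆ Icc 1 P := fun x hx => by
      obtain ⟨e, he, rfl⟩ := mem_image.1 hx
      exact mem_Icc.2 ⟨(hd e he).1, (hd e he).2.1⟩
    have := card_le_card this
    rw [Nat.card_Icc, Nat.add_sub_cancel] at this
    exact_mod_cast this) (by
    intro S hS hsame
    rcases S.eq_empty_or_nonempty with rfl | ⟨e0, he0⟩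
    · simp only [card_empty, Nat.cast_zero]; positivity
    have d1 : (1 : ℝ) ≤ d e0 := by exact_mod_cast (hd e0 (hS he0)).1
    have d2 : (d e0 : ℝ) ≤ P := by exact_mod_cast (hd e0 (hS he0)).2.1
    have hτh : (d e0 : ℝ) * L / h * h = d e0 * L := div_mul_cancel₀ _ hh.ne'
    have d3 : (d e0 : ℝ) * L ≤ P * L := mul_le_mul_of_nonneg_right d2 hL.le
    have hw : 2 * N * (ε * θ * L / (2 * N)) = ε * θ * L := by field_simp
    have hw1 : ε * θ * L / (2 * N) ≤ ε * θ * L / 2 := by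
      gcongr; linarith only [hN1']
    have hθL : θ * L ≤ L := mul_le_of_le_one_left hL.le hθ1
    have hεL : ε * (θ * L) ≤ θ * L := mul_le_of_le_one_left (by positivity) hε1
    obtain ⟨G, g1, g2⟩ := s2_cls (ε := ε) (τ := d e0 * L / h) (w := ε * θ * L / (2 * N)) (K := K)
      (P := P) (Md.mono hS) hN1 hε hL hθ hK (by positivity)
      (by rw [div_le_iff₀ hh]; linarith only [hA, d3, hNL, hL])
      (by rw [hτh]; exact le_mul_of_one_le_left hL.le d1) (by rw [hτh]; exact d3) hw.le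
      (by linarith only [hw1, hθL, hεL, hL]) (by linarith only [hw1, hεL])
      (hm.trans (by
        have := mul_le_mul_of_nonneg_right h1 hL.le
        linarith only [this]))
      (by linarith only [hA, hPL, hNL, hθL, hεL]) (by linarith only [hA, hPL]) (by
        intro e he
        refine (s2_err Md.pre.l0 (by positivity) (by positivity : (0 : ℝ) ≤ 1 / M)
          (Md.pre.mass e (hS he)) (Md.pre.small e (hS he)) (by
            rw [← hsame e he e0 he0]; exact (hd e (hS he)).2.2)).trans ?_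
        have a1 : 1 / (M : ℝ) ≤ ε * θ / (4 * N) := by
          rw [div_le_div_iff₀ hM0 (by positivity)]; linarith only [hM]
        have a2 := mul_le_mul_of_nonneg_right a1 hL.le
        have a3 : (d e0 : ℝ) * L / h * (ε * θ / (4 * N * P) * h) =
            d e0 * L * (ε * θ / (4 * N * P)) := by field_simp
        have a4 := mul_le_mul_of_nonneg_right d3 (by positivity : 0 ≤ ε * θ / (4 * N * P))
        have a5 : P * L * (ε * θ / (4 * N * P)) = ε * θ / (4 * N) * L := by field_simp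
        have a6 : ε * θ * L / (2 * N) = 2 * (ε * θ / (4 * N) * L) := by field_simp; ring
        linarith only [a2, a3, a4, a5, a6])
    rw [hN] at g1
    have g3 := s2_num (D := (2 * ((2 * P + 1) * K) + 1) * K) hε hε1 hK hρ (by positivity) (by
      rw [← hN]
      have := mul_le_mul_of_nonneg_right hL1 (by positivity : (0 : ℝ) ≤ 2 * (N * (2 * P + 1)))
      have h4 := mul_le_mul_of_nonneg_right h2 hL.le
      linarith only [this, h4]) g1
    have g4 : (S.card : ℝ) ≤ (K + 1) * (((2 * ((2 * P + 1) * K) + 1) * K * G + 1 : ℕ) : ℝ) ^ K := by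
      exact_mod_cast g2
    refine g4.trans ((mul_le_mul_of_nonneg_left g3 (by positivity)).trans (le_of_eq ?_))
    rw [hc, mul_div_cancel_left₀ _ (by positivity)]
    exact (mul_assoc _ _ _).symm)
  refine main.trans ?_
  rw [← mul_assoc, mul_div_cancel₀ _ (by positivity),
    show ε * ρ + 4 * ε * L = 2 * ε * L + (ε * ρ + 2 * ε * L) by ring, Real.exp_add (2 * ε * L)]
  refine mul_le_mul_of_nonneg_right (le_trans ?_ (Real.add_one_le_exp _)) (Real.exp_pos _).le
  have b1 := mul_le_mul_of_nonneg_right hL1 hc0.le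
  have b2 := mul_le_mul_of_nonneg_right h3 hL.le
  have b3 : 0 < ε * L := mul_pos hε hL
  linarith only [b1, b2, b3]

end

section

open Finset

theorem cls1 {J α : Type*} [Fintype J] [DecidableEq J] {l : J → ℝ} {F : Finset α}
    {b : α → J → ℤ} {L h : ℝ} {m : ℕ} {lam sm θ ρ : ℝ} (M : Mdl l F b L h m lam sm θ 50 ρ)
    (n : ℕ) (N η D wl wm wt z κ : ℝ) (x : Fin (2 * n + 1) → ℝ) (hN : N = 2 * n + 1)
    (hL : 0 < L) (hh : 0 < h) (hθ : 0 < θ) (hθ1 : θ ≤ 1) (hρ : 0 ≤ ρ) (hη : 0 < η)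
    (hη1 : η ≤ 1 / 20) (hwl : 0 < wl) (hwm : 2 ≤ θ * wm) (hD : D = η * wm) (hn : wt ≤ n * D)
    (hz : 0 < z)
    (hfix : ∀ e ∈ F, ∀ e' ∈ F, lab l ((m + 1) / z) (fx wl wm wt (b e)) (b e) =
      lab l ((m + 1) / z) (fx wl wm wt (b e')) (b e'))
    (hx : ∀ e ∈ F, ∀ u : Fin (2 * n + 1), ms l (it wm wt D ((u : ℤ) - n) (b e)) ≤ x u)
    (hx0 : ∀ u, 0 ≤ x u) (hx2 : ∀ u, x u ≤ 2 * L)
    (hH : ∑ u : Fin (2 * n + 1), (|(((u : ℤ) - n : ℤ) : ℝ)| + 1) * D * x u ≤ 6 * h)
    (hR1 : 36 * N ^ 3 * z + 8 * N * (wl * L) ≤ θ * h)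
    (hR2 : 2 * (36 * N ^ 3 * z + 8 * N * (wl * L)) ≤ wm * κ)
    (hm : (m : ℝ) + 1 ≤ θ * κ) (hκ : 2 * N * L + κ ≤ θ * h) (hk : 4 * N * L ≤ θ * h) :
    (F.card : ℝ) ≤ Real.exp ((∑ u, x u) / 2 + (4 * η * ∑ u, x u + κ) / θ + ρ +
      Real.log (4 * N * L + 1) + N * (4 * N * m + m + (2 * h * ((m + 1) / z) + 3 * m))) := by
  classical
  have P := M.pre
  have hl := P.l0
  have hwm0 : 0 < wm := by
    by_contra hc
    nlinarith only [hwm, hθ, not_lt.1 hc]
  have hD0 : 0 < D := by rw [hD]; positivity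
  have hn0 : (0 : ℝ) ≤ n := Nat.cast_nonneg n
  have hm0 : (0 : ℝ) ≤ m := Nat.cast_nonneg m
  have hN1 : 1 ≤ N := by linarith only [hN, hn0]
  have hκ0 : 0 < κ := by
    by_contra hc
    nlinarith only [hm, hθ, hm0, not_lt.1 hc]
  have hcU : (Fintype.card (Fin (2 * n + 1)) : ℝ) = N := by
    rw [Fintype.card_fin, hN]; push_cast; ring
  obtain ⟨t, ht⟩ : ∃ t : ℝ, t = (m + 1) / z := ⟨_, rfl⟩
  have ht0 : 0 < t := by rw [ht]; positivity
  obtain ⟨H, hHd⟩ : ∃ H : Fin (2 * n + 1) → ℝ,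
    H = fun u : Fin (2 * n + 1) => (|(((u : ℤ) - n : ℤ) : ℝ)| + 1) * D * x u := ⟨_, rfl⟩
  have hH0 : ∀ u, 0 ≤ H u := fun u => by rw [hHd]; have := hx0 u; positivity
  have hHs : ∑ u, H u ≤ 6 * h := by rw [hHd]; exact hH
  have hH6 : ∀ u, H u ≤ 6 * h := fun u =>
    (single_le_sum (fun v _ => hH0 v) (mem_univ u)).trans hHs
  have hN2 : 1 / (2 * N) ≤ 1 / 2 := one_div_le_one_div_of_le (by norm_num) (by linarith only [hN1])
  choose d _ hd2 hd3 using fun u => depth (H u / (12 * h) + 1 / (2 * N))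
    (by have := hH0 u; positivity) (by
      have : H u / (12 * h) ≤ 1 / 2 := by
        rw [div_le_iff₀ (by positivity)]; linarith only [hH6 u]
      linarith only [this, hN2])
  have hK : ∑ u, (1 / 2 : ℝ) ^ d u ≤ 1 := by
    refine (sum_le_sum fun u _ => hd2 u).trans ?_
    rw [sum_add_distrib, ← sum_div, sum_const, card_univ, nsmul_eq_mul, hcU]
    have h1 : (∑ u, H u) / (12 * h) ≤ 1 / 2 := by
      rw [div_le_iff₀ (by positivity)]; linarith only [hHs]
    have h2 : N * (1 / (2 * N)) = 1 / 2 := by field_simp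
    linarith only [h1, h2]
  have hk4 : ∀ u, (2 : ℝ) ^ d u ≤ 4 * N := fun u => by
    have h1 : 0 ≤ (2 : ℝ) ^ d u * (H u / (12 * h)) := by have := hH0 u; positivity
    have h2 : (2 : ℝ) ^ d u * (1 / (2 * N)) ≤ 2 := by linarith only [hd3 u, h1, mul_add ((2 : ℝ) ^ d u) (H u / (12 * h)) (1 / (2 * N))]
    rw [mul_one_div, div_le_iff₀ (by positivity)] at h2
    linarith only [h2]
  have hkH : ∀ u, (2 : ℝ) ^ d u * H u ≤ 24 * h := fun u => by
    have h1 : 0 ≤ (2 : ℝ) ^ d u * (1 / (2 * N)) := by positivity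
    have h2 : (2 : ℝ) ^ d u * (H u / (12 * h)) ≤ 2 := by linarith only [hd3 u, h1, mul_add ((2 : ℝ) ^ d u) (H u / (12 * h)) (1 / (2 * N))]
    rw [← mul_div_assoc, div_le_iff₀ (by positivity)] at h2
    linarith only [h2]
  obtain ⟨lg, hlg⟩ : ∃ lg : ℝ, lg = Real.log (4 * N * L + 1) := ⟨_, rfl⟩
  have hlg0 : 0 ≤ lg := by
    rw [hlg]; exact Real.log_nonneg (by have : 0 ≤ 4 * N * L := by positivity
                                        linarith only [this])
  obtain ⟨c, hc⟩ : ∃ c : ℝ, c = 4 * N * m + m + (2 * h * t + 3 * m) := ⟨_, rfl⟩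
  have hc0 : 0 ≤ c := by rw [hc]; positivity
  have hsub : ∀ (u : ℤ) (β : J → ℤ), it wm wt D u β ⊆ sp β := fun u β j hj => by
    have h1 := (mem_filter.1 hj).2.1
    refine mem_filter.2 ⟨mem_univ _, fun h0 => ?_⟩
    rw [h0, Int.cast_zero, abs_zero] at h1
    linarith only [h1, hwm0]
  have hcard : ∀ e ∈ F, ∀ u : ℤ, ms l (it wm wt D u (b e)) ≤ L ∧ (it wm wt D u (b e)).card ≤ m :=
    fun e he u => by
      have := (ms_mono hl (hsub u _)).trans (P.mass e he)
      exact ⟨this, P.om _ this⟩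
  rw [← ht] at hfix ⊢
  rw [← hlg, ← hc]
  have hNz : 0 ≤ N * z := by positivity
  have hN3 : N * z ≤ N ^ 3 * z := by
    have : N ≤ N ^ 3 := le_self_pow₀ hN1 (by norm_num)
    gcongr
  have hwL : 0 ≤ wl * L := by positivity
  have hinj : Set.InjOn (fun e (u : Fin (2 * n + 1)) =>
      lab l t (it wm wt D ((u : ℤ) - n) (b e)) (b e)) F := by
    intro e he e' he' hee
    refine M.li e he e' he' ((pair_inj P n D wl wm wt z hwl hwm0 hD0 hn hz he he'
      (ht ▸ hfix e he e' he') fun u => ht ▸ congrFun hee u).trans ?_)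
    have e1 : (2 * n + 2 : ℝ) * z = N * z + z := by rw [hN]; ring
    nlinarith only [e1, hR1, hN3, hN1, hwL, hz, hNz]
  rw [← card_image_of_injOn hinj]
  refine (tree l hl F (fun (u : Fin (2 * n + 1)) e => lab l t (it wm wt D ((u : ℤ) - n) (b e)) (b e))
    (fun u e j => if j ∈ it wm wt D ((u : ℤ) - n) (b e) then (b e j : ℝ) else 0) z hz.le ?_ d hK
    (fun u => Real.exp (x u / 2 + c + ((4 * η * 2 ^ d u * x u + κ) / θ + ρ + lg) * (1 / 2) ^ d u))
    (fun u => (Real.exp_pos _).le) ?_).trans ?_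
  · intro u e he e' he' hee
    have h1 := lab_close ht0 hee
    have h2 := lab_dom hee
    have h3 : nr l (fun j => (if j ∈ it wm wt D ((u : ℤ) - n) (b e) then (b e j : ℝ) else 0) -
        if j ∈ it wm wt D ((u : ℤ) - n) (b e') then (b e' j : ℝ) else 0) =
        ∑ j ∈ it wm wt D ((u : ℤ) - n) (b e), |(b e j : ℝ) - b e' j| * l j := by
      rw [← h2, nr, ← sum_subset (subset_univ (it wm wt D ((u : ℤ) - n) (b e)))]
      · exact sum_congr rfl fun j hj => by rw [if_pos hj, if_pos hj]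
      · intro j _ hj
        rw [if_neg hj, if_neg hj, sub_zero, abs_zero, zero_mul]
    rw [h3]
    refine h1.trans ?_
    have h4 : ((it wm wt D ((u : ℤ) - n) (b e)).card : ℝ) ≤ m := by exact_mod_cast (hcard e he _).2
    rw [div_le_iff₀ ht0, ht, mul_div_cancel₀ _ hz.ne']
    linarith only [h4]
  · intro u ι _ s hs hι T hT
    obtain ⟨k, hk'⟩ : ∃ k : ℝ, k = 2 ^ d u := ⟨_, rfl⟩
    have hk1 : 1 ≤ k := by rw [hk']; exact one_le_pow₀ (by norm_num)
    have hιk : (Fintype.card ι : ℝ) = k := by rw [hι, hk']; push_cast; rfl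
    have hkN : k ≤ 4 * N := hk' ▸ hk4 u
    have hxu := hx0 u
    have hR : Real.exp (x u / 2 + c + ((4 * η * 2 ^ d u * x u + κ) / θ + ρ + lg) * (1 / 2) ^ d u) ^
        2 ^ d u = Real.exp (k * (x u / 2 + c) + ((4 * η * k * x u + κ) / θ + ρ + lg)) := by
      rw [← Real.exp_nat_mul]
      congr 1
      push_cast
      rw [one_div_pow, ← hk']
      field_simp
    rw [hR]
    by_cases hu : wm ≤ 2 * (|(((u : ℤ) - n : ℤ) : ℝ)| * D)
    swap
    · have h1 : ∀ f ∈ T, f = fun _ _ => none := by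
        intro f hf
        obtain ⟨e, he, -⟩ := hT f hf
        funext i j
        rw [← (he i).2, lab_none]
        intro hj
        obtain ⟨a1, -, a2⟩ := (mem_filter.1 hj).2
        have a3 := Int.floor_le ((b (e i) j : ℝ) / D)
        have a4 := Int.lt_floor_add_one ((b (e i) j : ℝ) / D)
        rw [a2, le_div_iff₀ hD0] at a3
        rw [a2, div_lt_iff₀ hD0] at a4
        have a5 := le_abs_self ((((u : ℤ) - n : ℤ) : ℝ))
        have a6 := neg_abs_le ((((u : ℤ) - n : ℤ) : ℝ))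
        have a7 : |(b (e i) j : ℝ)| ≤ |(((u : ℤ) - n : ℤ) : ℝ)| * D + D := by
          rw [abs_le]
          constructor <;> nlinarith only [a3, a4, a5, a6, hD0]
        have a8 : D ≤ wm / 20 := by rw [hD]; nlinarith only [hη1, hwm0]
        exact hu (by linarith only [a1, a7, a8, hwm0])
      have h2 : T.card ≤ 1 := card_le_one.2 fun f hf g hg => (h1 f hf).trans (h1 g hg).symm
      refine le_trans (by exact_mod_cast h2) (Real.one_le_exp (by positivity))
    have hdk : (d u : ℝ) ≤ k := by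
      rw [hk']; exact_mod_cast (Nat.lt_two_pow_self (n := d u)).le
    have hRes : 2 * (d u * 2 ^ d u * (Fintype.card (Fin (2 * n + 1)) : ℝ) * z) +
        k * (z + 2 * (wl * L)) ≤ 36 * N ^ 3 * z + 8 * N * (wl * L) := by
      rw [hcU, ← hk']
      have a1 : (d u : ℝ) * k * N * z ≤ 4 * N * (4 * N) * N * z := by
        have := hdk.trans hkN
        gcongr
      have a2 : k * (z + 2 * (wl * L)) ≤ 4 * N * (z + 2 * (wl * L)) := by gcongr
      linarith only [a1, a2, hN3]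
    have hx8 : 4 * η * k * x u ≤ 2 * N * L := by
      have a1 : 4 * η * k * x u ≤ 4 * (1 / 20) * (4 * N) * (2 * L) := by
        have := hx2 u
        gcongr
      have a2 : 0 ≤ N * L := by positivity
      linarith only [a1, a2]
    have hx9 : 0 ≤ 4 * η * k * x u := by positivity
    have hkL : k * L ≤ 4 * N * L := by gcongr
    have hQ := M.sep (Fintype.card ι) (4 * η * k * x u + κ) (k * L) (by positivity)
      (by nlinarith only [hm, hx9, hθ]) (by linarith only [hx8, hκ])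
      (by rw [hιk]; linarith only [hkL, hk]) (T.image (ind s)) ?_ ?_
    · have h1 := leaf_count l hl s hs t (x u) (2 * h) _ m ht0.le hxu (by positivity)
        (P.ct _ hxu) T (fun f hf i => ?_) hQ
      · refine h1.trans ?_
        rw [hιk, Real.exp_add (k * (x u / 2 + c)), mul_comm (Real.exp (k * (x u / 2 + c))),
          Real.exp_add _ lg, hlg,
          Real.exp_log (by positivity)]
        have a1 : k * m ≤ 4 * N * m := by gcongr
        have a2 : x u / 2 + m + k * m + (2 * h * t + 3 * m) ≤ x u / 2 + c := by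
          linarith only [a1, hc]
        generalize x u / 2 + m + k * m + (2 * h * t + 3 * m) = y at a2
        gcongr
      · obtain ⟨e, he, -⟩ := hT f hf
        refine ⟨_, _, (he i).2.symm, hx _ (he i).1 u, (hcard _ (he i).1 _).2,
          le_trans ?_ (P.nb _ (he i).1)⟩
        exact sum_le_sum_of_subset_of_nonneg (subset_univ _) fun j _ _ =>
          mul_nonneg (abs_nonneg _) (hl j)
    · intro μ hμ
      obtain ⟨f, hf, rfl⟩ := mem_image.1 hμ
      obtain ⟨e, he, -⟩ := hT f hf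
      have a1 : (fun j => (ind s f j : ℝ)) =
          fun j => ∑ i, (if f i j = none then (0 : ℝ) else s i) := by
        funext j; simp only [ind]; push_cast; rfl
      rw [a1]
      refine (nr_sum hl _ _).trans ((sum_le_card_nsmul _ _ L fun i _ => ?_).trans ?_)
      · refine le_trans (le_of_eq ?_) (hcard _ (he i).1 ((u : ℤ) - n)).1
        rw [nr, ms, ← sum_subset (subset_univ (it wm wt D ((u : ℤ) - n) (b (e i))))]
        · refine sum_congr rfl fun j hj => ?_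
          rw [← (he i).2, if_neg fun a => lab_none.1 a hj]
          rcases hs i with a | a <;> simp [a]
        · intro j _ hj
          rw [← (he i).2, if_pos (lab_none.2 hj), abs_zero, zero_mul]
      · rw [card_univ, nsmul_eq_mul, hιk]
    · intro μ hμ μ' hμ'
      obtain ⟨f, hf, rfl⟩ := mem_image.1 hμ
      obtain ⟨f', hf', rfl⟩ := mem_image.1 hμ'
      obtain ⟨e, he, hE⟩ := hT f hf
      obtain ⟨e', he', hE'⟩ := hT f' hf'
      obtain ⟨a1, a2⟩ := pair P n η D wl wm wt z (x u) _ hη hη1 hwl hwm0 hD hn hz (ht ▸ hfix) u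
        (fun e he => hx e he u) hu s hs e e' (fun i => (he i).1) (fun i => (he' i).1) hE hE'
      rw [← ht, funext fun i => (he i).2, funext fun i => (he' i).2] at a2
      rw [hιk] at a1 a2
      refine ⟨fun j => ∑ i, s i * (b (e i) j - b (e' i) j), _,
        ⟨ι, inferInstance, e, e', s, le_rfl, fun i => ⟨(he i).1, (he' i).1, hs i⟩, fun _ => rfl⟩,
        ?_, a1.trans ?_, a2.trans ?_⟩
      · rw [abs_div, abs_one, abs_mul, abs_of_pos hD0, div_le_iff₀ (by linarith only [hu, hwm0])]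
        nlinarith only [hu, hwm, hθ]
      · have a3 := hkH u
        rw [hHd, ← hk'] at a3
        have a4 : θ * h ≤ h := mul_le_of_le_one_left hh.le hθ1
        linarith only [a3, a4, hRes, hR1, hh]
      · have a3 : 2 / wm * (2 * (d u * 2 ^ d u * (Fintype.card (Fin (2 * n + 1)) : ℝ) * z) +
            k * (z + 2 * (wl * L))) ≤ κ := by
          rw [div_mul_eq_mul_div, div_le_iff₀ hwm0]
          linarith only [hRes, hR2]
        linarith only [a3]
  · rw [← Real.exp_sum, Real.exp_le_exp]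
    have e1 : ∀ u, x u / 2 + c + ((4 * η * 2 ^ d u * x u + κ) / θ + ρ + lg) * (1 / 2) ^ d u =
        x u / 2 + c + 4 * η / θ * x u + (κ / θ + ρ + lg) * (1 / 2) ^ d u := fun u => by
      rw [one_div_pow]
      field_simp
      ring
    simp only [e1, sum_add_distrib, ← sum_div, ← mul_sum, sum_const, card_univ, nsmul_eq_mul, hcU]
    have a1 : (κ / θ + ρ + lg) * ∑ u, (1 / 2 : ℝ) ^ d u ≤ κ / θ + ρ + lg :=
      mul_le_of_le_one_right (by positivity) hK
    have a2 : (4 * η * ∑ u, x u + κ) / θ = 4 * η / θ * ∑ u, x u + κ / θ := by ring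
    linarith only [a1, a2]

end

section

open Finset

theorem sc_disj {J : Type*} [Fintype J] [DecidableEq J] (wm wt D : ℝ) (hwm : 0 < wm) (n : ℕ)
    (β : J → ℤ) (f : J → ℝ) (hf : ∀ j, 0 ≤ f j) :
    ∑ u : Fin (2 * n + 1), ∑ j ∈ it wm wt D ((u : ℤ) - n) β, f j ≤ ∑ j ∈ sp β, f j := by
  rw [← sum_biUnion]
  · refine sum_le_sum_of_subset_of_nonneg (fun j hj => ?_) fun j _ _ => hf j
    obtain ⟨u, -, hu⟩ := mem_biUnion.1 hj
    have h1 := (mem_filter.1 hu).2.1
    refine mem_filter.2 ⟨mem_univ _, fun h0 => ?_⟩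
    rw [h0, Int.cast_zero, abs_zero] at h1
    linarith only [h1, hwm]
  · intro u _ v _ huv
    refine disjoint_left.2 fun j hu hv => huv (Fin.ext ?_)
    have h1 := (mem_filter.1 hu).2.2.2
    have h2 := (mem_filter.1 hv).2.2.2
    omega

theorem sc_log {N L ε : ℝ} (hN : 1 ≤ N) (hL : 1 ≤ L) (hε : 0 < ε) :
    Real.log (4 * N * L + 1) ≤ 10 * N / ε + ε * L / 2 := by
  have h0 : 1 ≤ N * L := one_le_mul_of_one_le_of_one_le hN hL
  have h1 : 4 * N * L + 1 ≤ 10 * N / ε * (ε * L / 2) := by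
    have : 10 * N / ε * (ε * L / 2) = 5 * (N * L) := by field_simp; ring
    linarith only [this, h0]
  have h2 : 0 < 10 * N / ε := by positivity
  have h3 : 0 < ε * L / 2 := by positivity
  refine (Real.log_le_log (by positivity) h1).trans ?_
  rw [Real.log_mul h2.ne' h3.ne']
  linarith only [Real.log_le_sub_one_of_pos h2, Real.log_le_sub_one_of_pos h3]

theorem scale1 {α : Type*} (ε θ hi : ℝ) (hε : 0 < ε) (hε1 : ε ≤ 1) (hθ : 0 < θ) (hθ1 : θ ≤ 1)
    (hhi : 0 < hi) (hhi1 : hi ≤ 1) : ∃ lo A ε₁ : ℝ, 0 < lo ∧ lo ≤ hi ∧ 0 < ε₁ ∧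
      ∀ (n : ℕ) (l : Fin n → ℝ) (F : Finset α) (b : α → Fin n → ℤ) (L h : ℝ) (m : ℕ)
        (lam sm ρ : ℝ), Mdl l F b L h m lam sm θ 50 ρ → 0 ≤ ρ → A * L ≤ h →
        (m : ℝ) + 1 ≤ ε₁ * L →
        (∀ e ∈ F, ms l (univ.filter fun j =>
          lo * h ≤ |(b e j : ℝ)| * L ∧ |(b e j : ℝ)| * L < hi * h) ≤ ε * L) →
        (F.card : ℝ) ≤ Real.exp (L / 2 + ρ + 7 * ε * L) := by
  classical
  obtain ⟨η, hη⟩ : ∃ η : ℝ, η = ε * θ / 20 := ⟨_, rfl⟩
  have hεθ : ε * θ ≤ 1 := mul_le_one₀ hε1 hθ.le hθ1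
  have hη0 : 0 < η := by rw [hη]; positivity
  have hη1 : η ≤ 1 / 20 := by linarith only [hη, hεθ]
  obtain ⟨n₀, hn₀⟩ : ∃ n₀ : ℕ, n₀ = ⌈2 / (ε * η * hi)⌉₊ := ⟨_, rfl⟩
  have hn1 : 2 / (ε * η * hi) ≤ n₀ := hn₀ ▸ Nat.le_ceil _
  have hn2 : (n₀ : ℝ) ≤ 2 / (ε * η * hi) + 1 := hn₀ ▸ (Nat.ceil_lt_add_one (by positivity)).le
  obtain ⟨N, hN⟩ : ∃ N : ℝ, N = 2 * n₀ + 1 := ⟨_, rfl⟩
  have hN1 : 1 ≤ N := by have : (0 : ℝ) ≤ n₀ := Nat.cast_nonneg _
                         linarith only [hN, this]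
  obtain ⟨z₀, hz₀⟩ : ∃ z₀ : ℝ, z₀ = ε * θ * hi / (200 * N ^ 3) := ⟨_, rfl⟩
  have hz0 : 0 < z₀ := by rw [hz₀]; positivity
  obtain ⟨lo, hlo⟩ : ∃ lo : ℝ, lo = ε * θ * hi / (40 * N) := ⟨_, rfl⟩
  have hlo0 : 0 < lo := by rw [hlo]; positivity
  obtain ⟨c, hc⟩ : ∃ c : ℝ,
    c = N * (4 * N + 4) + 2 * N / z₀ + 4 + 2 / z₀ + N * (N / ε) + 10 * N / ε := ⟨_, rfl⟩
  have hc0 : 0 ≤ c := by rw [hc]; positivity
  refine ⟨lo, 4 * N / θ + 2 / (θ * hi), ε * θ ^ 2 / (c + 1), hlo0, ?_, by positivity,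
    fun n l F b L h m lam sm ρ M hρ hA hm hmid => ?_⟩
  · rw [hlo, div_le_iff₀ (by positivity)]
    nlinarith only [hεθ, hhi, hN1]
  have P := M.pre
  have hl := P.l0
  have hm0 : (0 : ℝ) ≤ m := Nat.cast_nonneg m
  have hθ2 : θ ^ 2 ≤ 1 := pow_le_one₀ hθ.le hθ1
  have hL : 0 < L := by
    by_contra hc'
    have : ε * θ ^ 2 / (c + 1) * L ≤ 0 :=
      mul_nonpos_of_nonneg_of_nonpos (by positivity) (not_lt.1 hc')
    linarith only [this, hm, hm0]
  have hm1 : (m + 1) * (c + 1) ≤ ε * θ ^ 2 * L := by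
    rwa [div_mul_eq_mul_div, le_div_iff₀ (by positivity)] at hm
  have hm2 : ε * θ ^ 2 * L ≤ ε * L := by
    have := mul_le_mul_of_nonneg_left hθ2 (mul_pos hε hL).le
    linarith only [this]
  have hm3 : 0 ≤ (m + 1) * c := by positivity
  have hεL : ε * L ≤ L := mul_le_of_le_one_left hL.le hε1
  have hL1 : 1 ≤ L := by linarith only [hm1, hm2, hm3, hεL, hm0]
  have hA1 : 4 * N * L ≤ θ * h := by
    have h1 : 0 ≤ 2 / (θ * hi) * L := by positivity
    have h2 : 4 * N / θ * L ≤ h := by linarith only [hA, h1]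
    rw [div_mul_eq_mul_div, div_le_iff₀ hθ] at h2
    linarith only [h2]
  have hA2 : 2 * L ≤ θ * hi * h := by
    have h1 : 0 ≤ 4 * N / θ * L := by positivity
    have h2 : 2 / (θ * hi) * L ≤ h := by linarith only [hA, h1]
    rw [div_mul_eq_mul_div, div_le_iff₀ (by positivity)] at h2
    linarith only [h2]
  have hh : 0 < h := by
    by_contra hc'
    have : θ * hi * h ≤ 0 := mul_nonpos_of_nonneg_of_nonpos (by positivity) (not_lt.1 hc')
    linarith only [this, hA2, hL]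
  obtain ⟨k, hk⟩ : ∃ k : ℝ, k = h / L := ⟨_, rfl⟩
  have hk0 : 0 < k := by rw [hk]; positivity
  have hkL : k * L = h := by rw [hk]; field_simp
  have hwm : 0 < hi * k := by positivity
  obtain ⟨t, ht⟩ : ∃ t : ℝ, t = (m + 1) / (z₀ * h) := ⟨_, rfl⟩
  have ht0 : 0 < t := by rw [ht]; positivity
  have hht : 2 * h * t = 2 / z₀ * (m + 1) := by rw [ht]; field_simp
  have hnr : ∀ e ∈ F, ∀ S : Finset (Fin n), ∑ j ∈ S, |(b e j : ℝ)| * l j ≤ 2 * h := fun e he S =>
    le_trans (sum_le_sum_of_subset_of_nonneg (subset_univ _) fun j _ _ =>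
      mul_nonneg (abs_nonneg _) (hl j)) (P.nb e he)
  have hfx : ∀ e ∈ F, ms l (fx (lo * k) (hi * k) (2 * k / ε) (b e)) ≤ 2 * (ε * L) := by
    intro e he
    have h1 : 2 * k / ε * ms l (univ.filter fun j => 2 * k / ε ≤ |(b e j : ℝ)|) ≤ 2 * h := by
      refine le_trans ?_ (hnr e he (univ.filter fun j => 2 * k / ε ≤ |(b e j : ℝ)|))
      rw [ms, mul_sum]
      exact sum_le_sum fun j hj => mul_le_mul_of_nonneg_right (mem_filter.1 hj).2 (hl j)
    have h2 : ms l (univ.filter fun j => 2 * k / ε ≤ |(b e j : ℝ)|) ≤ ε * L := by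
      refine le_of_mul_le_mul_left (h1.trans (le_of_eq ?_)) (by positivity : 0 < 2 * k / ε)
      rw [← hkL]; field_simp
    have h3 := sum_union_inter (s₁ := univ.filter fun j =>
      lo * h ≤ |(b e j : ℝ)| * L ∧ |(b e j : ℝ)| * L < hi * h)
      (s₂ := univ.filter fun j => 2 * k / ε ≤ |(b e j : ℝ)|) (f := l)
    have h4 := ms_nonneg hl ((univ.filter fun j =>
      lo * h ≤ |(b e j : ℝ)| * L ∧ |(b e j : ℝ)| * L < hi * h) ∩
      univ.filter fun j => 2 * k / ε ≤ |(b e j : ℝ)|)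
    have h5 := hmid e he
    refine (ms_mono hl (S' := (univ.filter fun j =>
      lo * h ≤ |(b e j : ℝ)| * L ∧ |(b e j : ℝ)| * L < hi * h) ∪
      univ.filter fun j => 2 * k / ε ≤ |(b e j : ℝ)|) fun j hj => ?_).trans ?_
    · obtain ⟨a1, a2⟩ := (mem_filter.1 hj).2
      rw [mem_union, mem_filter, mem_filter]
      by_cases a3 : |(b e j : ℝ)| < 2 * k / ε
      · have a4 : |(b e j : ℝ)| < hi * k := not_le.1 fun a => a2 ⟨a, a3⟩
        refine Or.inl ⟨mem_univ _, ?_, ?_⟩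
        · rw [← hkL, ← mul_assoc]; gcongr
        · rw [← hkL, ← mul_assoc]; gcongr
      · exact Or.inr ⟨mem_univ _, not_lt.1 a3⟩
    · unfold ms at h2 h4 h5 ⊢
      linarith only [h2, h3, h4, h5]
  have hfs : ∀ e ∈ F, (fx (lo * k) (hi * k) (2 * k / ε) (b e)).card ≤ m := fun e he => by
    refine P.om _ ((ms_mono hl (S' := sp (b e)) fun j hj => ?_).trans (P.mass e he))
    refine mem_filter.2 ⟨mem_univ _, fun h0 => ?_⟩
    have h1 := (mem_filter.1 hj).2.1
    rw [h0, Int.cast_zero, abs_zero] at h1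
    exact absurd h1 (not_le.2 (by positivity))
  obtain ⟨q, hq⟩ : ∃ q : ℝ, q = ε * L / N := ⟨_, rfl⟩
  have hq0 : 0 < q := by rw [hq]; positivity
  have hqN : N * q = ε * L := by rw [hq]; field_simp
  obtain ⟨w, hw⟩ : ∃ w : α → Fin (2 * n₀ + 1) → ℝ, w = fun e (u : Fin (2 * n₀ + 1)) =>
    ms l (it (hi * k) (2 * k / ε) (η * (hi * k)) ((u : ℤ) - n₀) (b e)) := ⟨_, rfl⟩
  have hw0 : ∀ e u, 0 ≤ w e u := fun e u => by rw [hw]; exact ms_nonneg hl _
  have hw1 : ∀ e ∈ F, ∑ u, w e u ≤ L := fun e he => by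
    rw [hw]; exact (sc_disj _ _ _ hwm n₀ (b e) l hl).trans (P.mass e he)
  have hw2 : ∀ e ∈ F, ∀ u, w e u ≤ L := fun e he u =>
    (single_le_sum (fun v _ => hw0 e v) (mem_univ u)).trans (hw1 e he)
  have hcU : (Fintype.card (Fin (2 * n₀ + 1)) : ℝ) = N := by
    rw [Fintype.card_fin, hN]; push_cast; ring
  refine (fib F (fun e => lab l t (fx (lo * k) (hi * k) (2 * k / ε) (b e)) (b e))
    (Real.exp (2 * (ε * L) + m) * Real.exp (2 * h * t + 3 * m)) (Real.exp (N * (N / ε)) *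
      Real.exp ((L + ε * L) / 2 + (4 * η * (L + ε * L) + ε * θ * L) / θ + ρ +
        Real.log (4 * N * L + 1) + N * (4 * N * m + m + (2 * h * t + 3 * m)))) (by positivity)
    (lab_count2 hl ht0.le (fun S => ms l S ≤ 2 * (ε * L)) _ (2 * h) m (by positivity)
      (P.ct _ (by positivity)) _ fun f hf => ?_) fun F₁ hF₁ c₁ =>
      fib F₁ (fun e u => ⌊w e u / q⌋₊) _ _ (Real.exp_pos _).le ?_ fun F₂ hF₂ c₂ => ?_).trans ?_
  · obtain ⟨e, he, rfl⟩ := mem_image.1 hf
    exact ⟨_, _, rfl, hfx e he, hfs e he, hnr e he _⟩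
  · have h1 : F₁.image (fun e u => ⌊w e u / q⌋₊) ⊆
        Fintype.piFinset fun _ : Fin (2 * n₀ + 1) => range (⌊N / ε⌋₊ + 1) := by
      intro f hf
      obtain ⟨e, he, rfl⟩ := mem_image.1 hf
      refine Fintype.mem_piFinset.2 fun u => mem_range.2 (Nat.lt_succ_of_le (Nat.floor_le_floor ?_))
      rw [div_le_div_iff₀ hq0 hε, hqN, mul_comm]
      exact mul_le_mul_of_nonneg_left (hw2 e (hF₁ he) u) hε.le
    have h2 := card_le_card h1
    rw [Fintype.card_piFinset, prod_const, card_range, card_univ] at h2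
    have h3 : ((⌊N / ε⌋₊ + 1 : ℕ) : ℝ) ≤ Real.exp (N / ε) := by
      push_cast
      linarith only [Nat.floor_le (show 0 ≤ N / ε by positivity), Real.add_one_le_exp (N / ε)]
    rw [← hcU, Real.exp_nat_mul, hcU]
    exact le_trans (by exact_mod_cast h2) (pow_le_pow_left₀ (Nat.cast_nonneg _) h3 _)
  · rcases F₂.eq_empty_or_nonempty with rfl | ⟨e₀, he₀⟩
    · rw [card_empty, Nat.cast_zero]; exact (Real.exp_pos _).le
    have hF : F₂ ⊆ F := hF₂.trans hF₁
    have hx1 : ∀ u, (⌊w e₀ u / q⌋₊ + 1 : ℝ) * q ≤ w e₀ u + q := fun u => by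
      have := Nat.floor_le (div_nonneg (hw0 e₀ u) hq0.le)
      rw [le_div_iff₀ hq0] at this
      linarith only [this]
    have hx2 : ∑ u, (⌊w e₀ u / q⌋₊ + 1 : ℝ) * q ≤ L + ε * L := by
      refine (sum_le_sum fun u _ => hx1 u).trans ?_
      rw [sum_add_distrib, sum_const, card_univ, nsmul_eq_mul, hcU, hqN]
      linarith only [hw1 e₀ (hF he₀)]
    have hR : 36 * N ^ 3 * (z₀ * h) + 8 * N * (lo * k * L) = 19 / 50 * (ε * θ * hi * h) := by
      rw [mul_assoc lo, hkL, hz₀, hlo]; field_simp; norm_num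
    have hR0 : 0 ≤ ε * θ * hi * h := by positivity
    have hR1 : ε * θ * hi * h ≤ θ * h := by
      have a1 : ε * hi ≤ 1 := mul_le_one₀ hε1 hhi.le hhi1
      have := mul_le_mul_of_nonneg_right a1 (mul_pos hθ hh).le
      linarith only [this]
    refine (cls1 (M.mono hF) n₀ N η (η * (hi * k)) (lo * k) (hi * k) (2 * k / ε) (z₀ * h)
      (ε * θ * L) (fun u => (⌊w e₀ u / q⌋₊ + 1 : ℝ) * q) hN hL hh hθ hθ1 hρ hη0 hη1
      (by positivity) ?_ rfl ?_ (by positivity)
      (fun e he e' he' => ht ▸ c₁ e (hF₂ he) e' (hF₂ he')) (fun e he u => ?_)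
      (fun u => by positivity) (fun u => ?_) ?_ (by linarith only [hR, hR0, hR1]) ?_
      (by linarith only [hm1, hm3]) ?_ hA1).trans ?_
    · refine le_of_mul_le_mul_right ?_ hL
      rw [mul_assoc, mul_assoc, hkL]; linarith only [hA2]
    · rw [div_le_iff₀ (by positivity)] at hn1
      rw [div_le_iff₀ hε]
      linarith only [mul_le_mul_of_nonneg_right hn1 hk0.le]
    · have a1 := Nat.lt_floor_add_one (w e u / q)
      rw [congrFun (c₂ e he e₀ he₀) u, div_lt_iff₀ hq0, hw] at a1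
      rw [hw]
      exact a1.le
    · have a1 : q ≤ N * q := le_mul_of_one_le_left hq0.le hN1
      linarith only [hx1 u, hw2 e₀ (hF he₀) u, a1, hqN, hεL]
    · have a1 : ∀ u : Fin (2 * n₀ + 1), (|(((u : ℤ) - n₀ : ℤ) : ℝ)| + 1) * (η * (hi * k)) *
          ((⌊w e₀ u / q⌋₊ + 1 : ℝ) * q) ≤
          ∑ j ∈ it (hi * k) (2 * k / ε) (η * (hi * k)) ((u : ℤ) - n₀) (b e₀),
            11 / 10 * (|(b e₀ j : ℝ)| * l j) + (n₀ + 1) * (η * (hi * k)) * q := fun u => by
        have hD : 0 < η * (hi * k) := by positivity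
        refine (mul_le_mul_of_nonneg_left (hx1 u) (by positivity)).trans ?_
        rw [mul_add]
        refine add_le_add ?_ ?_
        · simp only [hw, ms]
          rw [mul_sum]
          refine sum_le_sum fun j hj => ?_
          obtain ⟨b1, -, b2⟩ := (mem_filter.1 hj).2
          have b3 := Int.floor_le ((b e₀ j : ℝ) / (η * (hi * k)))
          have b4 := Int.lt_floor_add_one ((b e₀ j : ℝ) / (η * (hi * k)))
          rw [b2, le_div_iff₀ hD] at b3
          rw [b2, div_lt_iff₀ hD] at b4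
          have b5 : η * (hi * k) ≤ 1 / 20 * |(b e₀ j : ℝ)| := by gcongr
          have b6 : |(((u : ℤ) - n₀ : ℤ) : ℝ)| * (η * (hi * k)) ≤ |(b e₀ j : ℝ)| + η * (hi * k) := by
            rw [← abs_of_pos hD, ← abs_mul, abs_of_pos hD, abs_le]
            constructor <;>
              linarith only [b3, b4, le_abs_self (b e₀ j : ℝ), neg_abs_le (b e₀ j : ℝ), hD]
          rw [← mul_assoc (11 / 10 : ℝ)]
          exact mul_le_mul_of_nonneg_right (by linarith only [b5, b6]) (hl j)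
        · have b1 : |(u : ℤ) - n₀| ≤ n₀ := by rw [abs_le]; constructor <;> omega
          have b2 : |(((u : ℤ) - n₀ : ℤ) : ℝ)| ≤ n₀ := by exact_mod_cast b1
          gcongr
      refine (sum_le_sum fun u _ => a1 u).trans ?_
      rw [sum_add_distrib, sum_const, card_univ, nsmul_eq_mul, hcU]
      have a2 := sc_disj (hi * k) (2 * k / ε) (η * (hi * k)) hwm n₀ (b e₀)
        (fun j => 11 / 10 * (|(b e₀ j : ℝ)| * l j)) fun j => by have := hl j; positivity
      rw [← mul_sum (sp _)] at a2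
      have a3 : N * ((n₀ + 1) * (η * (hi * k)) * q) = (n₀ + 1) * (ε * η * hi) * h := by
        rw [← hkL, hq]; field_simp
      have a4 : (n₀ + 1) * (ε * η * hi) ≤ 3 := by
        have b0 : 0 < ε * η * hi := by positivity
        have b1 := mul_le_mul_of_nonneg_right hn2 b0.le
        rw [add_mul, div_mul_cancel₀ _ b0.ne'] at b1
        have b2 : ε * η * hi ≤ 1 * (1 / 20) * 1 := by gcongr
        linarith only [b1, b2]
      linarith only [a2, a3, mul_le_mul_of_nonneg_right a4 hh.le, hnr e₀ (hF he₀) (sp (b e₀)), hh]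
    · have a1 : hi * k * (ε * θ * L) = ε * θ * hi * h := by rw [← hkL]; ring
      linarith only [hR, hR0, a1]
    · have a1 : ε * θ * L ≤ L := mul_le_of_le_one_left hL.le hεθ
      have a2 : L ≤ N * L := le_mul_of_one_le_left hL.le hN1
      linarith only [a1, a2, hA1, hL]
    · rw [← ht]
      gcongr
  · rw [← Real.exp_add, ← Real.exp_add, ← Real.exp_add, Real.exp_le_exp, hht]
    have a1 : (4 * η * (L + ε * L) + ε * θ * L) / θ = ε / 5 * (L + ε * L) + ε * L := by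
      rw [hη]; field_simp; ring
    have a2 : ε / 5 * (L + ε * L) ≤ ε / 5 * (L + L) := by gcongr
    have a3 := sc_log hN1 hL1 hε
    have a4 : 0 ≤ N * (N / ε) * m := by positivity
    have a5 : 0 ≤ 10 * N / ε * m := by positivity
    have a6 : 0 ≤ N * (4 * N + 4) := by positivity
    have a7 : N * (2 / z₀ * (m + 1)) = 2 * N / z₀ * (m + 1) := by ring
    have a8 : 0 ≤ ε * L := by positivity
    rw [hc] at hm1
    linarith only [a1, a2, a3, a4, a5, a6, a7, a8, hm1, hm2, hm0]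

end

section

open Finset

theorem s1_min (f : ℕ → ℝ) (hf : ∀ i, 0 < f i) (c : ℝ) (hc : 0 < c) (n : ℕ) :
    ∃ x, 0 < x ∧ x ≤ c ∧ ∀ i < n, x ≤ f i := by
  induction n with
  | zero => exact ⟨c, hc, le_rfl, fun i hi => absurd hi (Nat.not_lt_zero i)⟩
  | succ n ih =>
    obtain ⟨x, h0, h1, h2⟩ := ih
    refine ⟨min x (f n), lt_min h0 (hf n), (min_le_left _ _).trans h1, fun i hi => ?_⟩
    rcases Nat.lt_succ_iff_lt_or_eq.1 hi with h | rfl
    · exact (min_le_left _ _).trans (h2 i h)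
    · exact min_le_right _ _

theorem s1_pig {n : ℕ} {l : Fin n → ℝ} (hl : ∀ j, 0 ≤ l j) (b : Fin n → ℤ) {L h ε : ℝ} (hh : 0 < h)
    (hL : 0 < L) (hm : ms l (sp b) ≤ L) (a : ℕ → ℝ) (ha : Antitone a) (h0 : ∀ i, 0 < a i) (N : ℕ)
    (hN0 : 0 < N) (hN : 1 ≤ N * ε) : ∃ i < N, ms l (univ.filter fun j =>
      a (i + 1) * h ≤ |(b j : ℝ)| * L ∧ |(b j : ℝ)| * L < a i * h) ≤ ε * L := by
  by_contra hn
  have h1 : ∑ _i ∈ range N, ε * L < ∑ i ∈ range N, ms l (univ.filter fun j =>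
      a (i + 1) * h ≤ |(b j : ℝ)| * L ∧ |(b j : ℝ)| * L < a i * h) :=
    sum_lt_sum_of_nonempty (nonempty_range_iff.2 hN0.ne') fun i hi =>
      not_le.1 fun k => hn ⟨i, mem_range.1 hi, k⟩
  have key : ∀ i i' : ℕ, i < i' → Disjoint (univ.filter fun j =>
      a (i + 1) * h ≤ |(b j : ℝ)| * L ∧ |(b j : ℝ)| * L < a i * h) (univ.filter fun j =>
      a (i' + 1) * h ≤ |(b j : ℝ)| * L ∧ |(b j : ℝ)| * L < a i' * h) := fun i i' hi =>
    disjoint_left.2 fun j hj hj' => by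
      have e1 := (mem_filter.1 hj).2.1
      have e2 := (mem_filter.1 hj').2.2
      have e3 := mul_le_mul_of_nonneg_right (ha (Nat.succ_le_of_lt hi)) hh.le
      exact absurd (e2.trans_le (e3.trans e1)) (lt_irrefl _)
  unfold ms at h1
  rw [← sum_biUnion fun i _ i' _ hi => (lt_or_gt_of_ne hi).elim (key i i') fun k => (key i' i k).symm,
    sum_const, card_range, nsmul_eq_mul] at h1
  have h2 := ms_mono hl (S' := sp b) (S := (range N).biUnion fun i => univ.filter fun j =>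
      a (i + 1) * h ≤ |(b j : ℝ)| * L ∧ |(b j : ℝ)| * L < a i * h) fun j hj => by
    obtain ⟨i, -, hi⟩ := mem_biUnion.1 hj
    refine mem_filter.2 ⟨mem_univ _, fun e => ?_⟩
    have e1 := (mem_filter.1 hi).2.1
    rw [e, Int.cast_zero, abs_zero, zero_mul] at e1
    exact absurd (mul_pos (h0 _) hh) (not_lt.2 e1)
  have h3 := mul_le_mul_of_nonneg_right hN hL.le
  have h4 := h1.trans_le (h2.trans hm)
  linarith only [h3, h4]

theorem S1 {α : Type*} (ε θ : ℝ) (hε : 0 < ε) (hε1 : ε ≤ 1) (hθ : 0 < θ) (hθ1 : θ ≤ 1) :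
    ∃ A ε₁ : ℝ, 0 < ε₁ ∧
      ∀ (n : ℕ) (l : Fin n → ℝ) (F : Finset α) (b : α → Fin n → ℤ) (L h : ℝ) (m : ℕ)
        (lam sm ρ : ℝ), Mdl l F b L h m lam sm θ 50 ρ → 0 ≤ ρ → A * L ≤ h →
        (m : ℝ) + 1 ≤ ε₁ * L → (F.card : ℝ) ≤ Real.exp (L / 2 + ρ + 8 * ε * L) := by
  classical
  choose! lo A e1 h1 h2 h3 h4 using fun hi (k : 0 < hi ∧ hi ≤ 1) =>
    scale1 (α := α) ε θ hi hε hε1 hθ hθ1 k.1 k.2
  let a : ℕ → ℝ := fun i => lo^[i] 1
  have as : ∀ i, a (i + 1) = lo (a i) := fun i => Function.iterate_succ_apply' lo i 1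
  have ha : ∀ i, 0 < a i ∧ a i ≤ 1 := fun i => by
    induction i with
    | zero => exact ⟨one_pos, le_rfl⟩
    | succ i ih => rw [as]; exact ⟨h1 _ ih, (h2 _ ih).trans ih.2⟩
  have an : Antitone a := antitone_nat_of_succ_le fun i => by rw [as]; exact h2 _ (ha i)
  obtain ⟨N, hN⟩ := exists_nat_gt (1 / ε)
  have hN1 : (0 : ℝ) < N := (one_div_pos.2 hε).trans hN
  have hN2 : 1 ≤ N * ε := ((div_lt_iff₀ hε).1 hN).le
  obtain ⟨x, x0, x1, x2⟩ := s1_min (fun i => e1 (a i)) (fun i => h3 _ (ha i)) (ε / N)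
    (div_pos hε hN1) N
  refine ⟨1 + ∑ i ∈ range N, |A (a i)|, x, x0, fun n l F b L h m lam sm ρ M hρ hA hm => ?_⟩
  have m1 : (1 : ℝ) ≤ x * L := (le_add_of_nonneg_left (Nat.cast_nonneg m)).trans hm
  have hL : 0 < L := (mul_pos_iff_of_pos_left x0).1 (one_pos.trans_le m1)
  have s0 : 0 ≤ ∑ i ∈ range N, |A (a i)| := sum_nonneg fun i _ => abs_nonneg _
  have hh : 0 < h := (mul_pos (by linarith only [s0]) hL).trans_le hA
  choose! idx i1 i2 using fun e (he : e ∈ F) => s1_pig (ε := ε) M.pre.l0 (b e) hh hL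
    (M.pre.mass e he) a an (fun i => (ha i).1) N (by exact_mod_cast hN1) hN2
  have hc : ((F.image idx).card : ℝ) ≤ N := by
    have := card_le_card (t := range N) (s := F.image idx) fun i hi => by
      obtain ⟨e, he, rfl⟩ := mem_image.1 hi
      exact mem_range.2 (i1 e he)
    rw [card_range] at this
    exact_mod_cast this
  refine (fib F idx N (Real.exp (L / 2 + ρ + 7 * ε * L)) (Real.exp_pos _).le hc
    fun S hS hx => ?_).trans ?_
  · rcases S.eq_empty_or_nonempty with rfl | ⟨y, hy⟩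
    · simpa using (Real.exp_pos _).le
    have k := i1 y (hS hy)
    refine h4 (a (idx y)) (ha _) n l S b L h m lam sm ρ (M.mono hS) hρ (le_trans ?_ hA)
      (hm.trans (mul_le_mul_of_nonneg_right (x2 _ k) hL.le)) fun e he => ?_
    · refine mul_le_mul_of_nonneg_right ((le_abs_self _).trans ?_) hL.le
      have := single_le_sum (f := fun i => |A (a i)|) (fun i _ => abs_nonneg _) (mem_range.2 k)
      linarith only [this]
    · rw [← as, ← hx e he y hy]
      exact i2 e (hS he)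
  · have k1 : (N : ℝ) ≤ ε * L := by
      have := mul_le_mul_of_nonneg_right ((le_div_iff₀ hN1).1 x1) hL.le
      nlinarith only [this, m1, hN1]
    have k2 : (N : ℝ) ≤ Real.exp (ε * L) := by linarith only [k1, Real.add_one_le_exp (ε * L)]
    refine (mul_le_mul_of_nonneg_right k2 (Real.exp_pos _).le).trans_eq ?_
    rw [← Real.exp_add]
    exact congrArg Real.exp (by ring)

end

end Pool.Agent.MP_2a5a28_nt.H9
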