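import Pool.Agent.MP_2a5a28_nt.H63.Main
import Pool.Agent.MP_2a5a28_nt.H9.Model

/-! Counting by the radical: triples of large height. -/

set_option autoImplicit false
set_option linter.unusedSectionVars false
set_option linter.unusedVariables false

namespace Pool.Agent.MP_2a5a28_nt.H9

section

open Finset UniqueFactorizationMonoid H70

variable {O : Type*} [CommRing O] [IsDomain O] [IsPrincipalIdealRing O] [NormalizationMonoid O]
  [DecidableEq O] {V : Type*} [Fintype V] (D : Dat O V)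
  (K : Type*) [Field K] [CharZero K] [Algebra O K] [IsFractionRing O K]

/-- Pairwise coprime balanced prime generators with their logarithmic norms. -/
structure Gn {n : ℕ} (g : Fin n → O) (l : Fin n → ℝ) : Prop where
  prime : ∀ j, Prime (g j)
  cop : Pairwise fun i j => IsCoprime (g i) (g j)
  eq : ∀ j, l j = Real.log (D.N (g j))
  sz : ∀ j, ∑ w, |Real.log (D.σ w (g j))| ≤ 3 * l j

/-- The colouring property of a family of absolute values. -/
def Col {n : ℕ} (g : Fin n → O) (l : Fin n → ℝ) {I : Type*} (S : Finset I)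
    (ν : I → AbsoluteValue K ℝ) (U : I → ℝ) (ρ : ℝ) : Prop :=
  ∀ y X : ℝ, 0 < y → 0 ≤ X → ∃ γ : I → ℝ, (∀ i ∈ S, Real.log 2 ≤ γ i ∧ U i ≤ y * γ i) ∧
    ∀ T : Finset (Fin n → ℤ), (∀ μ ∈ T, nr l (fun j => (μ j : ℝ)) ≤ X) →
      Real.exp ((∑ i ∈ S, U i) / y + ρ) * (X + 1) < T.card →
      ∃ μ ∈ T, ∃ μ' ∈ T, μ ≠ μ' ∧
        ∀ i ∈ S, ν i (pw K g (fun j => μ j - μ' j) - 1) ≤ Real.exp (-γ i)

/-- The exponent of `p` in `y`. -/
noncomputable def vv (y p : O) : ℕ := (normalizedFactors y).count p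

/-- The balancing unit. -/
noncomputable def bu : O → Oˣ := D.setup_bal.choose

/-- The unit part of `y`. -/
noncomputable def un (y : O) : Oˣ :=
  if h : y = 0 then 1 else (setup_fac (primeFactors y) (bu D) h subset_rfl).choose

theorem bu_spec {a : O} (h : a ≠ 0) :
    ∑ w, |Real.log (D.σ w (bu D a * a))| ≤ Real.log (D.N a) + 1 := D.setup_bal.choose_spec a h

theorem un_spec {y : O} (h : y ≠ 0) :
    (∏ p ∈ primeFactors y, ((bu D p : O) * p) ^ vv y p) * un D y = y := by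
  rw [un, dif_neg h]
  exact (setup_fac (primeFactors y) (bu D) h subset_rfl).choose_spec

/-- The part of the height of `y` carried by primes of logarithmic norm less than `lam`. -/
noncomputable def sml (lam : ℝ) (y : O) : ℝ :=
  ∑ p ∈ primeFactors y with Real.log (D.N p) < lam, vv y p * Real.log (D.N p)

/-- A family of triples with bounded radical and height. -/
structure Tr {α : Type*} (S : Finset α) (a b c : α → O) (L h : ℝ) : Prop where
  sum : ∀ e ∈ S, a e + b e + c e = 0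
  ne : ∀ e ∈ S, a e * b e * c e ≠ 0
  cop : ∀ e ∈ S, IsCoprime (a e) (b e)
  inj : ∀ e ∈ S, ∀ e' ∈ S, b e * c e' = b e' * c e → e = e'
  rad : ∀ e ∈ S, Real.log (D.rad (a e * b e * c e)) ≤ L
  ht : ∀ e ∈ S, Real.log (D.ht (a e) (b e) (c e)) ≤ h

/-- Bounds for sets of normalized primes. -/
structure Om (L : ℝ) (m : ℕ) : Prop where
  om : ∀ P : Finset O, (∀ p ∈ P, Prime p ∧ normalize p = p) →
    ∑ p ∈ P, Real.log (D.N p) ≤ L → P.card ≤ m
  ct : ∀ x : ℝ, 0 ≤ x → ∀ T : Finset (Finset O),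
    (∀ P ∈ T, (∀ p ∈ P, Prime p ∧ normalize p = p) ∧ ∑ p ∈ P, Real.log (D.N p) ≤ x) →
    (T.card : ℝ) ≤ Real.exp (x + m)

/-- The number of normalized elements of norm at most `Y` is `O(Y)`. -/
def Box : Prop := ∃ c : ℝ, ∀ Y : ℝ, 1 ≤ Y → ∀ S : Finset O,
  (∀ p ∈ S, p ≠ 0 ∧ normalize p = p ∧ D.N p ≤ Y) → (S.card : ℝ) ≤ c * Y

variable {D} {α : Type*} {S S' : Finset α} {a b c : α → O} {L h : ℝ}

theorem Tr.mono (T : Tr D S a b c L h) (hS : S' ⊆ S) : Tr D S' a b c L h :=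
  ⟨fun e he => T.sum e (hS he), fun e he => T.ne e (hS he), fun e he => T.cop e (hS he),
    fun e he e' he' => T.inj e (hS he) e' (hS he'), fun e he => T.rad e (hS he),
    fun e he => T.ht e (hS he)⟩

theorem Tr.copac (T : Tr D S a b c L h) {e : α} (he : e ∈ S) : IsCoprime (a e) (c e) := by
  obtain ⟨u, v, k⟩ := T.cop e he
  exact ⟨u - v, -v, by linear_combination k - v * T.sum e he⟩

theorem Tr.copbc (T : Tr D S a b c L h) {e : α} (he : e ∈ S) : IsCoprime (b e) (c e) := by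
  obtain ⟨u, v, k⟩ := T.cop e he
  exact ⟨v - u, -u, by linear_combination k - u * T.sum e he⟩

theorem Tr.rot (T : Tr D S a b c L h) : Tr D S b c a L h := by
  refine ⟨fun e he => by linear_combination T.sum e he, fun e he => ?_, fun e he => T.copbc he,
    fun e he e' he' k => T.inj e he e' he' ?_, fun e he => ?_, fun e he => ?_⟩
  · rw [show b e * c e * a e = a e * b e * c e by ring]; exact T.ne e he
  · linear_combination k - c e * T.sum e' he' + c e' * T.sum e he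
  · rw [show b e * c e * a e = a e * b e * c e by ring]; exact T.rad e he
  · rw [D.main_rot]; exact T.ht e he

end

section

open Finset H70

theorem core_num2 (U y δ h κ τ r r' S d k T : ℝ) (hδ : 0 < δ) (hδ1 : δ ≤ 1) (hlo : δ * h ≤ U)
    (hhi : U ≤ h) (hτ0 : 0 ≤ τ) (hτ : τ ≤ δ ^ 3 / 120) (hκ1 : 1 ≤ κ) (hS : 0 ≤ S) (hd : 0 ≤ d)
    (hκ : 120 * (11 * S + 4 * d) ≤ δ ^ 2 * κ) (hr : 0 ≤ r) (hr' : 0 ≤ r')
    (hh1 : 180 * κ ≤ δ ^ 3 * h)
    (hh2 : 60 * (2 * r + S * r') ≤ δ ^ 3 * h) (hk0 : 0 ≤ k) (hk : 2 * k ≤ T) (hT : T ≤ U / κ + 1)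
    (H : U ^ 3 / (12 * κ * h) - U ^ 2 / (4 * h) - U / 2 ≤ U * y / 4 +
      k * (2 * (τ * h + κ + r) + S * (r' + 11 * (T + 1)) + 4 * d * (T + 1))) :
    (1 - δ) * U ^ 2 / (3 * κ * h) < y := by
  have hδ3 : 0 < δ ^ 3 := by positivity
  have hh : 0 < h := by
    by_contra hc
    have : δ ^ 3 * h ≤ 0 := mul_nonpos_of_nonneg_of_nonpos hδ3.le (not_lt.1 hc)
    linarith only [hκ1, hh1, this]
  have hκ0 : 0 < κ := by linarith only [hκ1]
  have hU : 0 < U := lt_of_lt_of_le (by positivity) hlo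
  obtain ⟨q, hq⟩ : ∃ q, q = U / κ := ⟨_, rfl⟩
  obtain ⟨μ, hμ⟩ : ∃ μ, μ = U / h := ⟨_, rfl⟩
  have eq1 : U = q * κ := by rw [hq]; field_simp
  have eq2 : U = μ * h := by rw [hμ]; field_simp
  have hμ1 : δ ≤ μ := by rw [hμ, le_div_iff₀ hh]; exact hlo
  have hμ2 : μ ≤ 1 := by rw [hμ, div_le_one hh]; exact hhi
  have hμ0 : 0 < μ := by linarith only [hδ, hμ1]
  have hδ2 : δ ^ 3 ≤ δ * μ ^ 2 := by
    rw [pow_succ' δ 2]; gcongr
  have hq0 : 0 < q := by rw [hq]; positivity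
  have hq2 : 180 ≤ δ * μ * q := by
    have h1 : 180 * κ ≤ δ * μ ^ 2 * h := hh1.trans (by gcongr)
    have h2 : δ * μ ^ 2 * h = δ * μ * q * κ := by
      rw [mul_assoc (δ * μ), ← eq1, eq2]; ring
    rw [h2] at h1
    exact le_of_mul_le_mul_right h1 hκ0
  have hq3 : 2 ≤ q := by
    have h1 : δ * μ * q ≤ 1 * 1 * q := by gcongr
    linarith only [hq2, h1]
  have e1 : U ^ 3 / (12 * κ * h) = U * (q * μ / 12) := by rw [hq, hμ]; field_simp
  have e2 : U ^ 2 / (4 * h) = U * (μ / 4) := by rw [hμ]; field_simp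
  have e3 : (1 - δ) * U ^ 2 / (3 * κ * h) = (1 - δ) * (q * μ) / 3 := by rw [hq, hμ]; field_simp
  rw [e1, e2] at H
  rw [e3]
  rw [← hq] at hT
  have hkq : k ≤ q := by linarith only [hk, hT, hq3]
  have hTq : T + 1 ≤ 2 * q := by linarith only [hT, hq3]
  have hT0 : 0 ≤ T + 1 := by linarith only [hk0, hk]
  have a1 : q * (2 * (τ * h)) ≤ U * (δ * (q * μ) / 60) := by
    have : τ ≤ δ * μ ^ 2 / 120 := by linarith only [hτ, hδ2]
    calc q * (2 * (τ * h)) ≤ q * (2 * (δ * μ ^ 2 / 120 * h)) := by gcongr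
      _ = _ := by rw [eq2]; ring
  have a2 : q * (2 * r + S * r') ≤ U * (δ * (q * μ) / 60) := by
    have : (2 * r + S * r') ≤ δ * μ ^ 2 * h / 60 := by
      linarith only [mul_le_mul_of_nonneg_right hδ2 hh.le, hh2]
    calc q * (2 * r + S * r') ≤ q * (δ * μ ^ 2 * h / 60) := by gcongr
      _ = _ := by rw [eq2]; ring
  have a3 : q * ((11 * S + 4 * d) * (T + 1)) ≤ U * (δ * (q * μ) / 60) := by
    have h1 : 11 * S + 4 * d ≤ δ * μ * κ / 120 := by
      have : δ ^ 2 * κ ≤ δ * μ * κ := by rw [sq]; gcongr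
      linarith only [hκ, this]
    calc q * ((11 * S + 4 * d) * (T + 1)) ≤ q * ((δ * μ * κ / 120) * (2 * q)) := by gcongr
      _ = _ := by rw [eq1]; ring
  have a4 : 3 * U ≤ U * (δ * (q * μ) / 60) := by
    linarith only [mul_le_mul_of_nonneg_left hq2 hU.le]
  have a5 : k * (2 * (τ * h + κ + r) + S * (r' + 11 * (T + 1)) + 4 * d * (T + 1)) ≤
      q * (2 * (τ * h + κ + r) + S * (r' + 11 * (T + 1)) + 4 * d * (T + 1)) := by
    gcongr
  have a6 : U * (μ / 4) ≤ U / 2 := by linarith only [mul_le_mul_of_nonneg_left hμ2 hU.le, hU]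
  have a0 : q * (2 * (τ * h + κ + r) + S * (r' + 11 * (T + 1)) + 4 * d * (T + 1)) =
      q * (2 * (τ * h)) + q * (2 * r + S * r') + q * ((11 * S + 4 * d) * (T + 1)) + 2 * U := by
    rw [eq1]; ring
  have a7 : U * (q * μ / 12) ≤ U * (y / 4 + δ * (q * μ) / 15) := by linarith only [H, eq1, a1, a2, a3, a4, a5, a6]
  have a8 := le_of_mul_le_mul_left a7 hU
  have a9 : 0 < δ * (q * μ) := by positivity
  linarith only [hq2, a8]

theorem core2 {K : Type*} [Field K] [CharZero K] {I : Type*} (S : Finset I)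
    (ν : I → AbsoluteValue K ℝ) (hν : ∀ i ∈ S, ∀ n : ℕ, ν i n ≤ n) (HL : K → ℝ → Prop) (d : ℕ)
    (hL : ∀ (k T : ℕ) (t : Fin k × Bool → ℕ) (P : Fin k × Bool → K) (x : Fin k × Bool → ℝ),
      2 * k ≤ T + 1 → (∀ i, t i ≤ T) → (∀ i, HL (P i) (x i)) → (mat k t P).det ≠ 0 →
      Real.exp (-(∑ i, x i) - 4 * d * (T + 1) * k) ≤ ∏ i ∈ S, ν i (mat k t P).det)
    (ψ η : K) (hψ0 : ψ ≠ 0) (hη0 : η ≠ 0) (hη1 : η ≠ 1) (U g : I → ℝ) (y δ h κ τ r r' : ℝ)
    (hψ : ∀ i ∈ S, ν i (ψ - 1) ≤ Real.exp (-U i)) (hη : ∀ i ∈ S, ν i (η - 1) ≤ Real.exp (-g i))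
    (hU2 : ∀ i ∈ S, Real.log 2 ≤ U i) (hg2 : ∀ i ∈ S, Real.log 2 ≤ g i)
    (hy : ∀ i ∈ S, U i ≤ y * g i) (hδ : 0 < δ) (hδ1 : δ ≤ 1) (hlo : δ * h ≤ ∑ i ∈ S, U i)
    (hhi : ∑ i ∈ S, U i ≤ h) (hτ : |τ| ≤ δ ^ 3 / 120) (hκ1 : 1 ≤ κ)
    (hκ : 120 * (11 * S.card + 4 * d) ≤ δ ^ 2 * κ) (hr : 0 ≤ r) (hr' : 0 ≤ r')
    (hh1 : 180 * κ ≤ δ ^ 3 * h) (hh2 : 60 * (2 * r + S.card * r') ≤ δ ^ 3 * h)
    (hZ : ∀ w ∈ Set.Icc (0 : ℝ) 1, ∃ Z : K, Z ≠ 0 ∧ (∀ i ∈ S, ν i Z⁻¹ ≤ Real.exp r') ∧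
      ∀ s t : ℤ, HL (ψ ^ s * η ^ t / Z) (h * |s + t * τ - w| + κ * |(t : ℝ)| + r)) :
    (1 - δ) * (∑ i ∈ S, U i) ^ 2 / (3 * κ * h) < y := by
  classical
  obtain ⟨Ut, hUt⟩ : ∃ Ut, Ut = ∑ i ∈ S, U i := ⟨_, rfl⟩
  rw [← hUt] at hlo hhi ⊢
  have hδ3 : 0 < δ ^ 3 := by positivity
  have hh : 0 < h := by
    by_contra hc
    have : δ ^ 3 * h ≤ 0 := mul_nonpos_of_nonneg_of_nonpos hδ3.le (not_lt.1 hc)
    linarith only [hκ1, hh1, this]
  have hκ0 : 0 < κ := by linarith only [hκ1]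
  have hU : 0 < Ut := lt_of_lt_of_le (by positivity) hlo
  have hτ1 : |τ| ≤ 1 := by
    have : δ ^ 3 ≤ 1 := pow_le_one₀ hδ.le hδ1
    linarith
  obtain ⟨T0, hT0⟩ : ∃ T0, T0 = ⌊Ut / (2 * κ)⌋₊ := ⟨_, rfl⟩
  obtain ⟨w, hw, hav⟩ := avg h κ Ut τ hκ0 hU hhi T0 hT0
  obtain ⟨Z, hZ0, hZ1, hZ2⟩ := hZ w hw
  obtain ⟨s, hs⟩ : ∃ s : ℕ → ℤ, s = fun t : ℕ => round (w - ((t : ℝ) - T0) * τ) := ⟨_, rfl⟩
  obtain ⟨c, hc⟩ : ∃ c : ℕ → ℝ, c = fun t : ℕ => h * |(w - ((t : ℝ) - T0) * τ) -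
    round (w - ((t : ℝ) - T0) * τ)| + κ * |(t : ℝ) - T0| := ⟨_, rfl⟩
  have hc0 : ∀ t, 0 ≤ c t := fun t => by rw [hc]; positivity
  obtain ⟨E0, hE0⟩ : ∃ E0, E0 = (range (2 * T0 + 1)).filter fun t => c t ≤ Ut / 2 := ⟨_, rfl⟩
  have hav2 : Ut ^ 3 / (12 * κ * h) - Ut ^ 2 / (4 * h) ≤ ∑ t ∈ E0, (Ut / 2 - c t) := by
    refine hav.trans (le_of_eq ?_)
    rw [hE0, Finset.sum_filter]
    refine Finset.sum_congr rfl fun t _ => ?_
    have : c t = h * |(w - ((t : ℝ) - T0) * τ) - round (w - ((t : ℝ) - T0) * τ)| +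
      κ * |(t : ℝ) - T0| := by rw [hc]
    rw [← this]
    split_ifs with h1
    · exact max_eq_left (by linarith only [h1])
    · exact max_eq_right (by linarith only [h1])
  obtain ⟨k, E, hE, hEc, hav3⟩ : ∃ (k : ℕ) (E : Finset ℕ), E ⊆ E0 ∧ E.card = 2 * k ∧
      ∑ t ∈ E0, (Ut / 2 - c t) - Ut / 2 ≤ ∑ t ∈ E, (Ut / 2 - c t) := by
    obtain ⟨k, hk | hk⟩ := Nat.even_or_odd' E0.card
    · exact ⟨k, E0, subset_rfl, hk, by linarith only [hU]⟩
    · obtain ⟨a, ha⟩ : E0.Nonempty := Finset.card_pos.1 (by omega)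
      refine ⟨k, E0.erase a, Finset.erase_subset _ _, by rw [Finset.card_erase_of_mem ha]; omega, ?_⟩
      rw [← Finset.add_sum_erase _ _ ha]
      linarith only [hc0 a]
  have hEr : ∀ t ∈ E, t < 2 * T0 + 1 := fun t ht => by
    have := hE ht
    rw [hE0] at this
    exact Finset.mem_range.1 (Finset.mem_filter.1 this).1
  have hk : 2 * k ≤ 2 * T0 + 1 := by
    rw [← hEc, ← Finset.card_range (2 * T0 + 1)]
    exact Finset.card_le_card fun t ht => Finset.mem_range.2 (hEr t ht)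
  obtain ⟨t0, sh, h1, h2, h3⟩ := rows η hη1 k E hEc
    (fun t => η⁻¹ ^ T0 * Z⁻¹ * η ^ t * ψ ^ s t) (fun t _ => by positivity) c
  have eP : (fun i => η⁻¹ ^ T0 * Z⁻¹ * η ^ t0 i * ψ ^ s (t0 i) * η ^ sh i) =
      fun i => η⁻¹ ^ T0 * Z⁻¹ * η ^ (t0 i + sh i) * ψ ^ s (t0 i) := by
    funext i; ring
  rw [eP] at h3
  have ht : ∀ i, t0 i + sh i ≤ 2 * T0 + 1 := fun i => by
    have := hEr _ (h1 i).1
    have := (h1 i).2
    omega
  have hsb : ∀ i, (s (t0 i)).natAbs ≤ 2 * T0 + 1 + 1 := fun i => by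
    have a1 := abs_sub_round (w - ((t0 i : ℝ) - T0) * τ)
    have a2 : |((t0 i : ℝ) - T0)| ≤ T0 := by
      have : (t0 i : ℝ) ≤ 2 * T0 := by exact_mod_cast Nat.lt_succ_iff.1 (hEr _ (h1 i).1)
      rw [abs_le]; constructor <;> linarith only [this]
    have a3 : |((t0 i : ℝ) - T0) * τ| ≤ T0 := by
      rw [abs_mul]
      exact (mul_le_of_le_one_right (abs_nonneg _) hτ1).trans a2
    have a4 : |(s (t0 i) : ℝ)| ≤ (2 * T0 + 1 + 1 : ℕ) := by
      rw [hs]; dsimp only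
      push_cast
      rw [abs_le] at a1 a3 ⊢
      constructor <;> linarith only [hw.1, hw.2, a1, a3]
    have a5 : |s (t0 i)| ≤ (2 * T0 + 1 + 1 : ℕ) := by exact_mod_cast a4
    rw [Int.abs_eq_natAbs] at a5
    exact_mod_cast a5
  obtain ⟨x, hx⟩ : ∃ x : Fin k × Bool → ℝ, x = fun i => h * |(s (t0 i) : ℝ) +
    (((t0 i + sh i : ℕ) - T0 : ℤ) : ℝ) * τ - w| + κ * |((((t0 i + sh i : ℕ) - T0 : ℤ)) : ℝ)| + r :=
    ⟨_, rfl⟩
  have hx1 : ∀ i, x i ≤ c (t0 i) + (|τ| * h + κ + r) := fun i => by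
    have a1 : (sh i : ℝ) ≤ 1 := by exact_mod_cast (h1 i).2
    have a0 : (0 : ℝ) ≤ sh i := Nat.cast_nonneg _
    rw [hx, hc, hs]; dsimp only
    push_cast
    generalize (round (w - ((t0 i : ℝ) - T0) * τ) : ℝ) = ρ
    have a2 : |ρ + ((t0 i : ℝ) + sh i - T0) * τ - w| ≤ |w - ((t0 i : ℝ) - T0) * τ - ρ| + |τ| := by
      have e : ρ + ((t0 i : ℝ) + sh i - T0) * τ - w =
          -(w - ((t0 i : ℝ) - T0) * τ - ρ) + sh i * τ := by ring
      rw [e]
      refine (abs_add_le _ _).trans ?_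
      rw [abs_neg, abs_mul, abs_of_nonneg a0]
      linarith only [mul_le_of_le_one_left (abs_nonneg τ) a1]
    have a3 : |(t0 i : ℝ) + sh i - T0| ≤ |(t0 i : ℝ) - T0| + 1 := by
      have e : (t0 i : ℝ) + sh i - T0 = ((t0 i : ℝ) - T0) + sh i := by ring
      rw [e]
      refine (abs_add_le _ _).trans ?_
      rw [abs_of_nonneg a0]
      linarith only [a1]
    linarith only [mul_le_mul_of_nonneg_left a2 hh.le, mul_le_mul_of_nonneg_left a3 hκ0.le]
  have hx2 : ∑ i, x i ≤ ∑ t ∈ E, c t + 2 * k * (|τ| * h + κ + r) := by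
    refine (Finset.sum_le_sum fun i _ => hx1 i).trans ?_
    rw [Finset.sum_add_distrib, Finset.sum_const, Finset.card_univ, nsmul_eq_mul]
    have e5 : (Fintype.card (Fin k × Bool) : ℝ) = 2 * k := by simp only [Fintype.card_prod, Fintype.card_fin, Fintype.card_bool, Nat.cast_mul, Nat.cast_ofNat, mul_comm]
    rw [e5]
    linarith only [h2]
  have hlow := hL k (2 * T0 + 1) _ _ x (by omega) ht (fun i => ?_) h3
  · have hup : ∏ i ∈ S, ν i (mat k (fun i => t0 i + sh i)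
        fun i => η⁻¹ ^ T0 * Z⁻¹ * η ^ (t0 i + sh i) * ψ ^ s (t0 i)).det ≤
        ∏ i ∈ S, Real.exp (k * (r' + 11 * ((2 * T0 + 1 : ℕ) + 1)) - U i * (k - y / 4)) :=
      Finset.prod_le_prod (fun i _ => (ν i).nonneg _) fun i hi =>
        core_place (ν i) (hν i hi) k (2 * T0 + 1) T0 (by omega) (by omega) _ ht _ hsb ψ η Z hψ0
          _ _ y r' (hψ i hi) (hη i hi) (hU2 i hi) (hg2 i hi) (hy i hi) (hZ1 i hi)
    have h5 := hlow.trans hup
    rw [← Real.exp_sum, Real.exp_le_exp, Finset.sum_sub_distrib, Finset.sum_const, ← Finset.sum_mul,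
      ← hUt, nsmul_eq_mul] at h5
    have e6 : ∑ t ∈ E, (Ut / 2 - c t) = k * Ut - ∑ t ∈ E, c t := by
      rw [Finset.sum_sub_distrib, Finset.sum_const, hEc, nsmul_eq_mul]; push_cast; ring
    rw [e6] at hav3
    refine core_num2 Ut y δ h κ |τ| r r' S.card d k (2 * T0 + 1 : ℕ) hδ hδ1 hlo hhi (abs_nonneg τ) hτ
      hκ1 (by positivity) (by positivity) hκ hr hr' hh1 hh2 (by positivity) (by exact_mod_cast hk) ?_ ?_
    · have := Nat.floor_le (show 0 ≤ Ut / (2 * κ) by positivity)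
      rw [← hT0] at this
      have e : Ut / κ = 2 * (Ut / (2 * κ)) := by field_simp
      push_cast
      linarith only [this, e]
    · generalize ((2 * T0 + 1 : ℕ) : ℝ) = T at h5 ⊢
      linarith only [hav2, hav3, hx2, h5]
  · have := hZ2 (s (t0 i)) ((t0 i + sh i : ℕ) - T0)
    have e : ψ ^ s (t0 i) * η ^ (((t0 i + sh i : ℕ) : ℤ) - T0) / Z =
        η⁻¹ ^ T0 * Z⁻¹ * η ^ (t0 i + sh i) * ψ ^ s (t0 i) := by
      rw [zpow_sub₀ hη0, zpow_natCast, zpow_natCast, inv_pow]; field_simp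
    rw [e] at this
    rw [hx]
    exact this

end

section

open Finset UniqueFactorizationMonoid H70

variable {O : Type*} [CommRing O] [IsDomain O] [IsPrincipalIdealRing O] [NormalizationMonoid O]
  [DecidableEq O] {V : Type*} [Fintype V] (D : Dat O V)
  (K : Type*) [Field K] [CharZero K] [Algebra O K] [IsFractionRing O K]

theorem mod_sub {n : ℕ} {g : Fin n → O} (hg : ∀ j, g j ≠ 0) (a c : Fin n → ℤ) :
    pw K g (fun j => a j - c j) = pw K g a / pw K g c := by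
  simpa only [one_mul, zero_mul, add_zero, zpow_one, zpow_zero, mul_one] using
    kill_pw_comb K hg a a c 1 0

theorem mod_sum {n : ℕ} {g : Fin n → O} (hg : ∀ j, g j ≠ 0) {ι : Type*} (s : Finset ι)
    (f : ι → Fin n → ℤ) : pw K g (fun j => ∑ x ∈ s, f x j) = ∏ x ∈ s, pw K g (f x) := by
  classical
  unfold pw
  rw [prod_comm]
  refine prod_congr rfl fun j _ => ?_
  have h : algebraMap O K (g j) ≠ 0 := (map_ne_zero_iff _ (IsFractionRing.injective O K)).2 (hg j)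
  induction s using Finset.induction_on with
  | empty => simp only [sum_empty, zpow_zero, prod_empty]
  | insert x s hx ih => rw [prod_insert hx, ← ih]; simp only [sum_insert hx, zpow_add₀ h]

theorem mod_inj {n : ℕ} {g : Fin n → O} {l : Fin n → ℝ} (G : Gn D g l) {μ : Fin n → ℤ}
    (h : pw K g μ = 1) (j : Fin n) : μ j = 0 := by
  obtain ⟨ν, hν⟩ := D.fin_abv K (g j)
  obtain ⟨h1, -, h3⟩ := hν (G.prime j)
  have h4 := kill_log K (fun i => (G.prime i).ne_zero) ν μ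
  rw [h, map_one, Real.log_one, sum_eq_single j (fun i _ hi => by
    rw [h3 _ fun hd => (G.prime j).not_isUnit ((G.cop hi).isUnit_of_dvd' hd dvd_rfl), Real.log_one,
      mul_zero]) (fun k => absurd (mem_univ j) k), h1, Real.log_inv] at h4
  have h5 := Real.log_pos (lt_of_lt_of_le one_lt_two (D.two_le_N (G.prime j)))
  exact_mod_cast (mul_eq_zero.1 h4.symm).resolve_right (neg_ne_zero.2 h5.ne')

theorem mod_HL {n : ℕ} {g : Fin n → O} {l : Fin n → ℝ} (G : Gn D g l) (μ : Fin n → ℤ) :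
    D.HL K (pw K g μ) (6 * nr l fun j => (μ j : ℝ)) := by
  refine D.HL_mono K (D.kill_HL K (fun i => (G.prime i).ne_zero) G.cop μ)
    ((D.F_le (fun i => (G.prime i).ne_zero) G.sz _).trans (le_of_eq ?_))
  rw [nr, mul_sum, mul_sum]
  exact sum_congr rfl fun j _ => by ring

theorem mod_prod (ν : AbsoluteValue K ℝ) {ι : Type*} (s : Finset ι) (q : ι → K) {ε : ℝ}
    (h1 : ε ≤ 1) (h : ∀ x ∈ s, ν (q x - 1) ≤ ε) : ν (∏ x ∈ s, q x - 1) ≤ ε * (2 ^ s.card - 1) := by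
  classical
  induction s using Finset.induction_on with
  | empty => simp only [prod_empty, sub_self, map_zero, card_empty, pow_zero, mul_zero, le_refl]
  | insert x s hx ih =>
    have a := h x (mem_insert_self _ _)
    have b := ih fun y hy => h y (mem_insert_of_mem hy)
    have c := ν.add_le ((q x - 1) * (∏ x ∈ s, q x - 1) + (∏ x ∈ s, q x - 1)) (q x - 1)
    have d := ν.add_le ((q x - 1) * (∏ x ∈ s, q x - 1)) (∏ x ∈ s, q x - 1)
    rw [map_mul] at d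
    rw [show (q x - 1) * (∏ x ∈ s, q x - 1) + (∏ x ∈ s, q x - 1) + (q x - 1) =
      q x * ∏ x ∈ s, q x - 1 by ring] at c
    rw [prod_insert hx, card_insert_of_notMem hx, pow_succ]
    linarith only [a, b, c, d, mul_le_of_le_one_left (ν.nonneg (∏ x ∈ s, q x - 1)) (a.trans h1)]

theorem mod_div (ν : AbsoluteValue K ℝ) {x y υ : K} {ε : ℝ} (h1 : ε ≤ 1 / 2) (hυ : υ ≠ 0)
    (hy0 : y ≠ 0) (hx : ν (υ * x - 1) ≤ ε) (hy : ν (υ * y - 1) ≤ ε) : ν (x / y - 1) ≤ 4 * ε := by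
  have a := core_inv ν _ (hy.trans h1)
  have b := ν.add_le (υ * x - 1) (-(υ * y - 1))
  rw [ν.map_neg] at b
  rw [show x / y - 1 = (υ * x - 1 + -(υ * y - 1)) * (υ * y)⁻¹ by field_simp; ring, map_mul]
  have c := mul_le_mul (show ν (υ * x - 1 + -(υ * y - 1)) ≤ 2 * ε by linarith only [b, hx, hy]) a
    (ν.nonneg _) (by linarith only [ν.nonneg (υ * x - 1), hx])
  linarith only [c]

theorem mod_comb {α : Type*} {n : ℕ} {g : Fin n → O} (hg : ∀ j, g j ≠ 0) {F : Finset α}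
    {b : α → Fin n → ℤ} {k : ℕ} {B : Fin n → ℤ} (hB : Comb F b k B) (ν : AbsoluteValue K ℝ)
    {υ : K} (hυ : υ ≠ 0) {U : ℝ} (hU : 6 * k + 6 ≤ U)
    (h : ∀ e ∈ F, ν (υ * pw K g (b e) - 1) ≤ Real.exp (-U)) :
    ν (pw K g B - 1) ≤ Real.exp (-(U / 2)) := by
  obtain ⟨ι, _, e, e', s, c1, c2, c3⟩ := hB
  have hk : (0 : ℝ) ≤ k := Nat.cast_nonneg k
  have l2 := Real.log_two_lt_d9
  have h2 : ∀ N : ℕ, (2 : ℝ) ^ N ≤ Real.exp N := fun N => by
    rw [← Real.exp_one_pow]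
    exact pow_le_pow_left₀ zero_le_two (by linarith only [Real.add_one_le_exp 1]) N
  have h3 : 2 ^ (k + 2) * Real.exp (-U) ≤ Real.exp (-(U / 2)) := by
    refine (mul_le_mul_of_nonneg_right (h2 _) (Real.exp_pos _).le).trans ?_
    rw [← Real.exp_add, Real.exp_le_exp]
    push_cast
    linarith only [hU, hk]
  have h4 : Real.exp (-(U / 2)) ≤ 1 := Real.exp_le_one_iff.2 (by linarith only [hU, hk])
  have h5 : (1 : ℝ) ≤ 2 ^ k := one_le_pow₀ one_le_two
  have h6 : (2 : ℝ) ^ Fintype.card ι ≤ 2 ^ k := pow_le_pow_right₀ one_le_two c1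
  have h0 := Real.exp_pos (-U)
  rw [pow_add] at h3
  have h7 : 4 * Real.exp (-U) ≤ 1 := by
    linarith only [h3, h4, mul_le_mul_of_nonneg_right h5 h0.le]
  rw [funext c3, mod_sum K hg]
  refine (mod_prod K ν _ _ h7 fun x _ => ?_).trans ?_
  · obtain ⟨d1, d2, d3 | d3⟩ := c2 x
    · simp only [d3, one_mul]
      rw [mod_sub K hg]
      exact mod_div K ν (by linarith only [h7, h0]) hυ (kill_pw_ne K hg _) (h _ d1) (h _ d2)
    · simp only [d3, neg_mul, one_mul, neg_sub]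
      rw [mod_sub K hg]
      exact mod_div K ν (by linarith only [h7, h0]) hυ (kill_pw_ne K hg _) (h _ d2) (h _ d1)
  · rw [card_univ]
    linarith only [h3, h0, mul_le_mul_of_nonneg_right h6 h0.le]

theorem mod_mass {α : Type*} {n : ℕ} {l : Fin n → ℝ} {F : Finset α} {b : α → Fin n → ℤ} {L h : ℝ}
    {m : ℕ} {lam sm : ℝ} (P : Pre l F b L h m lam sm) (hL : 0 ≤ L) {k : ℕ} {B : Fin n → ℤ}
    (hB : Comb F b k B) (w : ℝ) :
    nr l (fun j => w * (B j : ℝ) - (fl B w j : ℤ)) ≤ 2 * (k * L) := by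
  obtain ⟨ι, _, e, e', s, c1, c2, c3⟩ := hB
  have h0 : ∀ (c : Fin n → ℤ) j, 0 ≤ if c j ≠ 0 then l j else 0 := fun c j => by
    split_ifs
    exacts [P.l0 j, le_rfl]
  calc _ ≤ ∑ j, ∑ x, ((if b (e x) j ≠ 0 then l j else 0) + if b (e' x) j ≠ 0 then l j else 0) := by
        refine sum_le_sum fun j _ => ?_
        by_cases hj : ∀ x, b (e x) j = 0 ∧ b (e' x) j = 0
        · have : B j = 0 := by
            rw [c3]; exact sum_eq_zero fun x _ => by rw [(hj x).1, (hj x).2, sub_zero, mul_zero]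
          simp only [fl, this, Int.cast_zero, mul_zero, Int.floor_zero, sub_zero, abs_zero, zero_mul]
          exact sum_nonneg fun x _ => add_nonneg (h0 _ j) (h0 _ j)
        · obtain ⟨x, hx⟩ := not_forall.1 hj
          refine ((mul_le_of_le_one_left (P.l0 j) (kill_fract B w j)).trans ?_).trans
            (single_le_sum (fun x _ => add_nonneg (h0 (b (e x)) j) (h0 (b (e' x)) j)) (mem_univ x))
          rcases not_and_or.1 hx with k | k
          · rw [if_pos k]; exact le_add_of_nonneg_right (h0 _ j)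
          · rw [if_pos k]; exact le_add_of_nonneg_left (h0 _ j)
    _ ≤ ∑ _x : ι, 2 * L := by
        rw [sum_comm]
        refine sum_le_sum fun x _ => ?_
        have a := P.mass _ (c2 x).1
        have a' := P.mass _ (c2 x).2.1
        rw [ms, sp, sum_filter] at a a'
        rw [sum_add_distrib]
        linarith only [a, a']
    _ ≤ _ := by
        rw [sum_const, card_univ, nsmul_eq_mul]
        have : (Fintype.card ι : ℝ) ≤ k := by exact_mod_cast c1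
        linarith only [mul_le_mul_of_nonneg_right this hL]

theorem mod_Z {n : ℕ} {g : Fin n → O} (hg : ∀ j, g j ≠ 0) {l : Fin n → ℝ} (ν : AbsoluteValue K ℝ)
    {a w x : ℝ} (ha0 : 0 ≤ a) (ha : ∀ j, |Real.log (ν (algebraMap O K (g j)))| ≤ a * l j)
    {B : Fin n → ℤ} (hB : ν (pw K g B - 1) ≤ 1 / 2) (hw : w ∈ Set.Icc (0 : ℝ) 1)
    (hx : nr l (fun j => w * (B j : ℝ) - (fl B w j : ℤ)) ≤ x) :
    ν (pw K g (fl B w))⁻¹ ≤ Real.exp (1 + a * x) := by
  have h2 := Real.log_le_log (ν.pos (inv_ne_zero (kill_pw_ne K hg B))) (core_inv ν _ hB)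
  rw [map_inv₀, Real.log_inv] at h2
  have h5 : -1 ≤ w * Real.log (ν (pw K g B)) := by
    nlinarith only [hw.1, hw.2, h2, Real.log_two_lt_d9]
  have h6 : w * Real.log (ν (pw K g B)) - Real.log (ν (pw K g (fl B w))) ≤
      a * nr l (fun j => w * (B j : ℝ) - (fl B w j : ℤ)) := by
    rw [kill_log K hg, kill_log K hg, mul_sum, ← sum_sub_distrib, nr, mul_sum]
    refine sum_le_sum fun j _ => ?_
    rw [← mul_assoc, ← sub_mul, mul_left_comm]
    refine (le_abs_self _).trans ?_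
    rw [abs_mul]
    exact mul_le_mul_of_nonneg_left (ha j) (abs_nonneg _)
  rw [map_inv₀, ← Real.exp_log (ν.pos (kill_pw_ne K hg (fl B w))), ← Real.exp_neg]
  exact Real.exp_le_exp.2 (by linarith only [h5, h6, mul_le_mul_of_nonneg_left hx ha0])

theorem mod_liou {I : Type*} {S : Finset I} {ν : I → AbsoluteValue K ℝ} (hL : D.Liou K S ν) {q : K}
    {x : ℝ} (h : D.HL K q x) (hq : q ≠ 1) :
    Real.exp (-(Fintype.card V + x)) ≤ ∏ i ∈ S, ν i (q - 1) := by
  obtain ⟨p, r, hr, e, hh⟩ := h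
  have hr0 : algebraMap O K r ≠ 0 := (map_ne_zero_iff _ (IsFractionRing.injective O K)).2 hr
  have e1 : q - 1 = algebraMap O K (p - r) / algebraMap O K r := by
    rw [e, map_sub, sub_div, div_self hr0]
  have hp : p - r ≠ 0 := fun k => hq (by rw [← sub_eq_zero, e1, k, map_zero, zero_div])
  have h1 := hL (p - r) r (fun w => Real.exp 1 * max |D.σ w p| |D.σ w r|) hp hr fun w => by
    have a := le_max_left |D.σ w p| |D.σ w r|
    have b := le_max_right |D.σ w p| |D.σ w r|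
    have c := mul_le_mul_of_nonneg_right (Real.add_one_le_exp 1) ((abs_nonneg _).trans a)
    rw [map_sub]
    exact ⟨by linarith only [a, b, c, abs_sub (D.σ w p) (D.σ w r)],
      by linarith only [b, c, abs_nonneg (D.σ w r)]⟩
  rw [e1]
  refine le_trans ?_ h1
  rw [Real.exp_neg]
  refine inv_anti₀ (prod_pos fun w _ => mul_pos (Real.exp_pos 1)
    (lt_max_of_lt_right (abs_pos.2 (D.σ_ne hr w)))) ?_
  rw [prod_mul_distrib, prod_const, card_univ, Real.exp_one_pow, Real.exp_add]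
  exact mul_le_mul_of_nonneg_left hh (Real.exp_pos _).le

theorem modA {α I : Type*} (θ₀ C : ℝ) (h0 : 0 < θ₀) (h1 : θ₀ ≤ 1) (hC : 1 ≤ C) :
    ∃ θ : ℝ, 0 < θ ∧ θ ≤ 1 ∧ ∀ (n : ℕ) (g : Fin n → O) (l : Fin n → ℝ) (F : Finset α)
      (b : α → Fin n → ℤ) (L h : ℝ) (m : ℕ) (lam sm ρ : ℝ) (υ : K) (S : Finset I)
      (ν : I → AbsoluteValue K ℝ) (U : I → ℝ) (a : ℝ),
      Gn D g l → Pre l F b L h m lam sm → υ ≠ 0 → (∀ e ∈ F, ∀ e' ∈ F, b e = b e' → e = e') →
      L ≤ θ * h → (m : ℝ) + 1 ≤ L → S.card ≤ m + 1 → D.Liou K S ν →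
      (∀ i ∈ S, ∀ k : ℕ, ν i k ≤ k) →
      (∀ e ∈ F, ∀ i ∈ S, ν i (υ * pw K g (b e) - 1) ≤ Real.exp (-U i)) →
      θ₀ * h ≤ ∑ i ∈ S, U i → ∑ i ∈ S, U i ≤ h → (∀ i ∈ S, θ₀ * h ≤ 2 * L * U i) →
      0 ≤ a → a * S.card ≤ 3 →
      (∀ i ∈ S, ∀ j, |Real.log (ν i (algebraMap O K (g j)))| ≤ a * l j) →
      Col K g l S ν U ρ → Mdl l F b L h m lam sm θ C ρ := by
  obtain ⟨δ, hδ⟩ : ∃ δ : ℝ, δ = θ₀ / (12 * C) := ⟨_, rfl⟩
  obtain ⟨d, hd⟩ : ∃ d : ℝ, d = (Fintype.card V : ℕ) := ⟨_, rfl⟩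
  have d0 : 0 ≤ d := hd ▸ Nat.cast_nonneg _
  have δ0 : 0 < δ := by rw [hδ]; positivity
  have δC : δ * (12 * C) = θ₀ := by rw [hδ]; field_simp
  have δ1 : δ ≤ 1 / 12 := by nlinarith only [δC, δ0, h1, hC]
  obtain ⟨θ, θ0, t1, t2, t3, t4, t5⟩ : ∃ θ : ℝ, 0 < θ ∧ θ ≤ δ ^ 3 / 400 ∧
      θ ≤ δ ^ 2 / (20 * (11 + 4 * d)) ∧ θ ≤ δ / 80 ∧ θ ≤ θ₀ / 24 ∧ θ ≤ θ₀ / (4 * d + 4) :=
    ⟨min (δ ^ 3 / 400) (min (δ ^ 2 / (20 * (11 + 4 * d))) (min (δ / 80) (min (θ₀ / 24)
      (θ₀ / (4 * d + 4))))), by positivity, le_min_iff.1 le_rfl |>.imp_right fun a =>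
        le_min_iff.1 a |>.imp_right fun a => le_min_iff.1 a |>.imp_right fun a => le_min_iff.1 a⟩
  rw [le_div_iff₀ (by positivity)] at t2 t5
  have θ1 : θ ≤ 1 := by linarith only [t4, h1]
  refine ⟨θ, θ0, θ1, fun n g l F b L h m lam sm ρ υ S ν U a G P hυ inj hL hm hS hLi hν hψ hlo hhi
    hU ha0 ha hlog hcol => ?_⟩
  have hg : ∀ j, g j ≠ 0 := fun j => (G.prime j).ne_zero
  have L1 : 1 ≤ L := by linarith only [hm, (Nat.cast_nonneg m : (0 : ℝ) ≤ m)]
  have hh : 0 < h := (mul_pos_iff_of_pos_left θ0).1 (by linarith only [L1, hL])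
  have a1 : θ * h ≤ θ₀ / 24 * h := mul_le_mul_of_nonneg_right t4 hh.le
  have hUk : ∀ k : ℕ, k * L ≤ θ * h → ∀ i ∈ S, 6 * k + 6 ≤ U i := fun k hk i hi =>
    le_of_mul_le_mul_left (by linarith only [hU i hi, hk, a1, hL]) (lt_of_lt_of_le one_pos L1)
  have hpr : ∀ {q : K}, (∀ i ∈ S, ν i q ≤ Real.exp (-(U i / 2))) →
      ∏ i ∈ S, ν i q ≤ Real.exp (-(θ₀ * h / 2)) := fun hq => by
    refine (prod_le_prod (fun i _ => (ν i).nonneg _) hq).trans ?_
    rw [← Real.exp_sum, Real.exp_le_exp, sum_neg_distrib, ← sum_div]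
    linarith only [hlo]
  refine ⟨P, fun e he e' he' hn => inj e he e' he' ?_, fun k κ X hX hκ1 hκ2 hk T hT hc => ?_⟩
  · by_contra hne
    have hB : Comb F b 1 fun j => b e j - b e' j :=
      ⟨Unit, inferInstance, fun _ => e, fun _ => e', fun _ => 1, le_rfl,
        fun _ => ⟨he, he', Or.inl rfl⟩, fun j => by simp⟩
    have h2 := (mod_liou D K hLi (mod_HL D K G fun j => b e j - b e' j) fun k =>
      hne (funext fun j => sub_eq_zero.1 (mod_inj D K G k j))).trans (hpr fun i hi =>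
        mod_comb K hg hB (ν i) hυ (hUk 1 (by rw [Nat.cast_one, one_mul]; exact hL) i hi)
          fun x hx => hψ x hx i hi)
    rw [Real.exp_le_exp, ← hd] at h2
    push_cast at h2
    nlinarith only [h2, hn, a1, mul_le_mul_of_nonneg_right t5 hh.le, L1.trans hL, d0]
  · by_contra hlt
    rw [not_le] at hlt
    have m0 : (0 : ℝ) ≤ m := Nat.cast_nonneg m
    have κ0 : 0 < κ := (mul_pos_iff_of_pos_left θ0).1 (by linarith only [hκ1, m0])
    have κ1 : θ * κ ≤ κ := mul_le_of_le_one_left κ0.le θ1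
    have C0 : 0 < C := by linarith only [hC]
    have hS' : (S.card : ℝ) ≤ m + 1 := by exact_mod_cast hS
    obtain ⟨W, hW⟩ : ∃ W, W = ∑ i ∈ S, U i / 2 := ⟨_, rfl⟩
    have eW : ∑ i ∈ S, U i = 2 * W := by rw [hW, ← sum_div]; ring
    have W1 : δ * (6 * C * h) ≤ W := by rw [← δC, eW] at hlo; linarith only [hlo]
    have W0 : 0 < W := lt_of_lt_of_le (by positivity) W1
    have δ2 : 0 < 1 - δ := by linarith only [δ1]
    obtain ⟨y, hy⟩ : ∃ y, y = (1 - δ) * W ^ 2 / (3 * (6 * κ) * (6 * C * h)) := ⟨_, rfl⟩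
    have y0 : 0 < y := by rw [hy]; positivity
    obtain ⟨γ, hγ, hcl⟩ := hcol (2 * y) X (by positivity) hX
    obtain ⟨μ, hμ, μ', hμ', hne, hη⟩ := hcl T hT (lt_of_le_of_lt (by
      refine mul_le_mul_of_nonneg_right (Real.exp_le_exp.2 (add_le_add_left ?_ ρ)) (by positivity)
      rw [eW, mul_div_mul_left _ _ two_ne_zero, div_le_div_iff₀ y0 θ0]
      have e : κ * y = W * ((1 - δ) * W / (108 * (C * h))) := by rw [hy]; field_simp; ring
      rw [e]
      refine mul_le_mul_of_nonneg_left ?_ W0.le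
      rw [le_div_iff₀ (by positivity)]
      nlinarith only [mul_le_mul_of_nonneg_right t3 (mul_pos C0 hh).le, W1, W0, δ1,
        mul_le_mul_of_nonneg_right δ1 W0.le]) hlt)
    obtain ⟨B, τ, hB, hτ, hB1, hB2⟩ := hc μ hμ μ' hμ'
    have hΨ := fun i hi => mod_comb K hg hB (ν i) hυ (hUk k hk i hi) fun x hx => hψ x hx i hi
    have k0 : (0 : ℝ) ≤ k := Nat.cast_nonneg k
    have kL : 0 ≤ k * L := by positivity
    have hU2 : ∀ i ∈ S, Real.log 2 ≤ U i / 2 := fun i hi => by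
      linarith only [hUk k hk i hi, k0, Real.log_two_lt_d9]
    have a2 : θ * h ≤ δ ^ 3 / 400 * h := mul_le_mul_of_nonneg_right t1 hh.le
    have a3 : δ ^ 3 * h ≤ C * (δ ^ 3 * h) := le_mul_of_one_le_left (by positivity) hC
    have a4 : 0 < δ ^ 3 * h := by positivity
    refine lt_irrefl y (hy.trans_lt (hW ▸ core2 S ν hν (D.HL K) (Fintype.card V) (D.det_liou K hLi)
      (pw K g B) (pw K g fun j => μ j - μ' j) (kill_pw_ne K hg _) (kill_pw_ne K hg _)
      (fun e => hne (funext fun j => sub_eq_zero.1 (mod_inj D K G e j))) (fun i => U i / 2) γ y δ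
      (6 * C * h) (6 * κ) τ (12 * (k * L)) (1 + a * (2 * (k * L))) hΨ hη hU2
      (fun i hi => (hγ i hi).1) (fun i hi => by linarith only [(hγ i hi).2]) δ0
      (by linarith only [δ1]) (hW ▸ W1) (by
        rw [← hW]; linarith only [eW, hhi, hh, le_mul_of_one_le_left hh.le hC])
      (by linarith only [hτ, t1, pow_pos δ0 3]) (by linarith only [κ1, hκ1, m0]) (by
        rw [← hd]
        nlinarith only [mul_le_mul_of_nonneg_right t2 κ0.le, hS', hκ1, m0, d0])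
      (by positivity) (by positivity) (by linarith only [hκ2, a2, a3, a4])
      (by linarith only [hk, a2, a3, a4, hS', hm, hL, mul_le_mul_of_nonneg_right ha kL])
      fun w hw => ⟨pw K g (fl B w), kill_pw_ne K hg _, fun i hi => mod_Z K hg (ν i) ha0 (hlog i hi)
        ((hΨ i hi).trans (core_half (hU2 i hi))) hw (mod_mass P (zero_le_one.trans L1) hB w),
        fun s t => ?_⟩))
    rw [← kill_pw_comb K hg]
    refine D.HL_mono K (mod_HL D K G _) ?_
    have e : (fun j => ((s * B j + t * (μ j - μ' j) - fl B w j : ℤ) : ℝ)) = fun j =>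
        ((s + t * τ - w) * (B j : ℝ) + t * ((μ j : ℝ) - μ' j - τ * B j)) +
          (w * (B j : ℝ) - (fl B w j : ℤ)) := by
      funext j
      push_cast
      ring
    have b1 := nr_add P.l0 (fun j => (s + t * τ - w) * (B j : ℝ) + t * ((μ j : ℝ) - μ' j - τ * B j))
      fun j => w * (B j : ℝ) - (fl B w j : ℤ)
    have b2 := nr_add P.l0 (fun j => (s + t * τ - w) * (B j : ℝ))
      fun j => t * ((μ j : ℝ) - μ' j - τ * B j)
    rw [nr_smul, nr_smul] at b2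
    rw [e]
    linarith only [b1, b2, mod_mass P (zero_le_one.trans L1) hB w,
      mul_le_mul_of_nonneg_left hB1 (abs_nonneg (s + t * τ - w)),
      mul_le_mul_of_nonneg_left hB2 (abs_nonneg (t : ℝ))]

end

section

open Finset UniqueFactorizationMonoid H70

variable {O : Type*} [CommRing O] [IsDomain O] [IsPrincipalIdealRing O] [NormalizationMonoid O]
  [DecidableEq O] {V : Type*} [Fintype V] (D : Dat O V)
  (K : Type*) [Field K] [CharZero K] [Algebra O K] [IsFractionRing O K]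

theorem col_sub {n : ℕ} {g : Fin n → O} (hg : ∀ j, g j ≠ 0) (a b : Fin n → ℤ) :
    pw K g (fun j => a j - b j) = pw K g a / pw K g b := by
  unfold pw
  rw [← prod_div_distrib]
  exact prod_congr rfl fun j _ =>
    zpow_sub₀ ((map_ne_zero_iff _ (IsFractionRing.injective O K)).2 (hg j)) _ _

theorem col_nat {n : ℕ} (g : Fin n → O) (a : Fin n → ℤ) (ha : ∀ j, 0 ≤ a j) :
    algebraMap O K (∏ j, g j ^ (a j).toNat) = pw K g a := by
  rw [pw, map_prod]
  exact prod_congr rfl fun j _ => by rw [map_pow, ← zpow_natCast, Int.toNat_of_nonneg (ha j)]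

theorem colFin {n : ℕ} {g : Fin n → O} {l : Fin n → ℝ} (G : Gn D g l) (S : Finset O)
    (hS : ∀ p ∈ S, Prime p) (hS' : ∀ p ∈ S, ∀ q ∈ S, p ∣ q → p = q) (u : O → ℕ)
    (hu : ∀ p ∈ S, 1 ≤ u p) (hg : ∀ p ∈ S, ∀ j, ¬p ∣ g j) :
    ∃ ν : O → AbsoluteValue K ℝ, D.Liou K S ν ∧ (∀ p ∈ S, ∀ k : ℕ, ν p k ≤ k) ∧
      (∀ p ∈ S, ∀ j, ν p (algebraMap O K (g j)) = 1) ∧
      (∀ p ∈ S, ∀ r s : O, p ^ u p ∣ r → ¬p ∣ s →
        ν p (algebraMap O K r / algebraMap O K s) ≤ Real.exp (-(u p * Real.log (D.N p)))) ∧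
      Col K g l S ν (fun p => u p * Real.log (D.N p)) (∑ p ∈ S, Real.log (D.N p)) := by
  classical
  choose ν hν using D.fin_abv K
  have h1 := fun p hp => (hν p (hS p hp)).1
  have h2 := fun p hp => (hν p (hS p hp)).2.1
  have h3 := fun p hp => (hν p (hS p hp)).2.2
  have inj := IsFractionRing.injective O K
  have hg0 : ∀ j, g j ≠ 0 := fun j => (G.prime j).ne_zero
  have hlog : ∀ p ∈ S, Real.log 2 ≤ Real.log (D.N p) := fun p hp =>
    Real.log_le_log two_pos (D.two_le_N (hS p hp))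
  have hl2 : 0 < Real.log 2 := Real.log_pos one_lt_two
  have hdiv : ∀ p ∈ S, ∀ (k : ℕ) (r s : O), p ^ k ∣ r → ¬p ∣ s →
      ν p (algebraMap O K r / algebraMap O K s) ≤ Real.exp (-(k * Real.log (D.N p))) := by
    rintro p hp k r s ⟨c, rfl⟩ hs
    rw [map_div₀, h3 p hp s hs, div_one, map_mul, map_pow, map_mul, map_pow, h1 p hp,
      Real.exp_neg, ← Real.log_pow, Real.exp_log (pow_pos (D.N_pos (hS p hp).ne_zero) k), inv_pow]
    exact mul_le_of_le_one_right (inv_nonneg.2 (pow_nonneg (D.N_nonneg p) k)) (h2 p hp c)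
  refine ⟨ν, fun n' d M hn hd hM => ?_, fun p hp k => ?_, fun p hp j => h3 p hp _ (hg p hp j),
    fun p hp => hdiv p hp _, fun y X hy hX => ?_⟩
  · have hN : D.N n' ≤ ∏ w, M w := prod_le_prod (fun _ _ => abs_nonneg _) fun w _ => (hM w).1
    refine (inv_anti₀ (D.N_pos hn) hN).trans ((D.fin_prod K ν S hS hS' h1 h3 n' hn).trans
      (prod_le_prod (fun p _ => (ν p).nonneg _) fun p hp => ?_))
    rw [map_div₀]
    exact le_div_self ((ν p).nonneg _) ((ν p).pos ((map_ne_zero_iff _ inj).2 hd)) (h2 p hp d)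
  · rcases Nat.eq_zero_or_pos k with rfl | hk
    · simp
    · have := h2 p hp k
      rw [map_natCast] at this
      exact this.trans (by exact_mod_cast hk)
  obtain ⟨m, hm⟩ : ∃ m : O → ℕ, ∀ p, m p = ⌈(u p : ℝ) / y⌉₊ := ⟨_, fun _ => rfl⟩
  refine ⟨fun p => m p * Real.log (D.N p), fun p hp => ⟨?_, ?_⟩, fun T _ hT => ?_⟩
  · have h0 : (0 : ℝ) < u p := by exact_mod_cast hu p hp
    have : (1 : ℝ) ≤ m p := by
      rw [hm]; exact_mod_cast Nat.ceil_pos.2 (div_pos h0 hy)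
    nlinarith only [hlog p hp, hl2, this]
  · rw [← mul_assoc]
    refine mul_le_mul_of_nonneg_right ?_ (hl2.le.trans (hlog p hp))
    rw [hm, ← div_le_iff₀' hy]
    exact Nat.le_ceil _
  set m0 : O := ∏ p ∈ S, p ^ m p with hm0
  have hm00 : m0 ≠ 0 := prod_ne_zero_iff.2 fun p hp => pow_ne_zero _ (hS p hp).ne_zero
  have hcard : (Nat.card (O ⧸ Ideal.span {m0}) : ℝ) = ∏ p ∈ S, D.N p ^ m p := by
    rw [D.card_quot m0 hm00, ← Dat.N, hm0, D.N_prod]
    exact prod_congr rfl fun p _ => D.N_pow _ _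
  have hfin : Finite (O ⧸ Ideal.span {m0}) := Nat.finite_of_card_ne_zero fun e => by
    have := D.one_le_norm m0 hm00
    rw [← D.card_quot m0 hm00, e] at this
    norm_num at this
  have := Fintype.ofFinite (O ⧸ Ideal.span {m0})
  have hle : ∏ p ∈ S, D.N p ^ m p ≤
      Real.exp ((∑ p ∈ S, u p * Real.log (D.N p)) / y + ∑ p ∈ S, Real.log (D.N p)) := by
    rw [sum_div, ← sum_add_distrib, Real.exp_sum]
    refine prod_le_prod (fun p _ => pow_nonneg (D.N_nonneg p) _) fun p hp => ?_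
    rw [hm, Real.exp_add, Real.exp_log (D.N_pos (hS p hp).ne_zero), mul_comm]
    exact M1_ceil (D.one_le_N (hS p hp).ne_zero) hy _
  have hlt : (univ : Finset (O ⧸ Ideal.span {m0})).card < T.card := by
    rw [card_univ, ← Nat.card_eq_fintype_card]
    have := (hcard.trans_le hle).trans_lt
      ((le_mul_of_one_le_right (Real.exp_pos _).le (by linarith only [hX])).trans_lt hT)
    exact_mod_cast this
  have hc : ∀ μ ∈ T, ∀ j, 0 ≤ μ j + ∑ μ' ∈ T, |μ' j| := fun μ hμ j => by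
    have := single_le_sum (f := fun μ' : Fin n → ℤ => |μ' j|) (fun _ _ => abs_nonneg _) hμ
    have := neg_abs_le (μ j)
    omega
  obtain ⟨μ, hμ, μ', hμ', hne, he⟩ := exists_ne_map_eq_of_card_lt_of_maps_to hlt
    (f := fun μ => Ideal.Quotient.mk (Ideal.span {m0}) (∏ j, g j ^ (μ j + ∑ μ' ∈ T, |μ' j|).toNat))
    fun _ _ => mem_coe.2 (mem_univ _)
  refine ⟨μ, hμ, μ', hμ', hne, fun p hp => ?_⟩
  have hd := Ideal.mem_span_singleton.1 (Ideal.Quotient.eq.1 he)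
  have hs : ¬p ∣ ∏ j, g j ^ (μ' j + ∑ μ' ∈ T, |μ' j|).toNat := fun e => by
    obtain ⟨j, -, hj⟩ := (hS p hp).exists_mem_finset_dvd e
    exact hg p hp j ((hS p hp).dvd_of_dvd_pow hj)
  have hb := hdiv p hp (m p) _ _ ((dvd_prod_of_mem (fun p => p ^ m p) hp).trans hd) hs
  rw [map_sub, col_nat K g _ (hc μ hμ), col_nat K g _ (hc μ' hμ'), sub_div,
    div_self (kill_pw_ne K hg0 _), ← col_sub K hg0] at hb
  simpa only [add_sub_add_right_eq_sub] using hb

theorem colArch {n : ℕ} {g : Fin n → O} {l : Fin n → ℝ} (G : Gn D g l) (w : V) (U : ℝ)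
    (hU : 0 ≤ U) :
    ∃ ν : AbsoluteValue K ℝ, D.Liou K (univ : Finset Unit) (fun _ => ν) ∧ (∀ k : ℕ, ν k ≤ k) ∧
      (∀ j, |Real.log (ν (algebraMap O K (g j)))| ≤ 3 * l j) ∧
      (∀ r s : O, ν (algebraMap O K r / algebraMap O K s) = |D.σ w r| / |D.σ w s|) ∧
      Col K g l (univ : Finset Unit) (fun _ => ν) (fun _ => U) 5 := by
  classical
  have hinj : Function.Injective (D.σ w) :=
    (injective_iff_map_eq_zero _).2 fun a ha => by_contra fun h0 => D.σ_ne h0 w ha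
  obtain ⟨τ, hτ⟩ : ∃ τ : K →+* ℝ, ∀ a, τ (algebraMap O K a) = D.σ w a :=
    ⟨IsFractionRing.lift hinj, fun a => IsFractionRing.lift_algebraMap hinj a⟩
  obtain ⟨ν, hν⟩ : ∃ ν : AbsoluteValue K ℝ, ∀ q, ν q = |τ q| :=
    ⟨AbsoluteValue.abs.comp τ.injective, fun _ => rfl⟩
  have hg0 : ∀ j, g j ≠ 0 := fun j => (G.prime j).ne_zero
  have hα0 : ∀ j, τ (algebraMap O K (g j)) ≠ 0 := fun j => by
    rw [hτ]; exact D.σ_ne (hg0 j) w
  have hA : ∀ j, |Real.log (τ (algebraMap O K (g j)))| ≤ 3 * l j := fun j => by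
    rw [hτ]
    exact (single_le_sum (f := fun w => |Real.log (D.σ w (g j))|)
      (fun _ _ => abs_nonneg _) (mem_univ w)).trans (G.sz j)
  refine ⟨ν, fun p q M hp hq hM => ?_, fun k => by rw [hν, map_natCast, Nat.abs_cast],
    fun j => by rw [hν, Real.log_abs]; exact hA j,
    fun r s => by rw [hν, map_div₀, hτ, hτ, abs_div], fun y X hy hX => ?_⟩
  · have hM0 : ∀ v, 0 < M v := fun v => (abs_pos.2 (D.σ_ne hq v)).trans_le (hM v).2
    have h1 : 1 ≤ |D.σ w p| * ∏ v ∈ univ.erase w, M v := by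
      refine (D.one_le_norm p hp).trans ?_
      rw [← mul_prod_erase _ _ (mem_univ w)]
      exact mul_le_mul_of_nonneg_left
        (prod_le_prod (fun _ _ => abs_nonneg _) fun v _ => (hM v).1) (abs_nonneg _)
    rw [prod_const, card_univ, Fintype.card_unit, pow_one, hν, map_div₀, hτ, hτ, abs_div,
      inv_eq_one_div, div_le_div_iff₀ (prod_pos fun v _ => hM0 v) (abs_pos.2 (D.σ_ne hq w)),
      ← mul_prod_erase _ _ (mem_univ w)]
    nlinarith only [(hM w).2, hM0 w, h1]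
  have hq : 0 ≤ U / y := div_nonneg hU hy.le
  refine ⟨fun _ => U / y + 1, fun _ _ => ⟨?_, ?_⟩, fun T hT hc => ?_⟩
  · linarith only [hq, Real.log_two_lt_d9]
  · rw [mul_add, mul_div_cancel₀ _ hy.ne']
    linarith only [hy]
  obtain ⟨E, hE⟩ : ∃ E, E = Real.exp (U / y + 1) := ⟨_, rfl⟩
  have he : 1 ≤ E := hE ▸ Real.one_le_exp (by linarith only [hq])
  obtain ⟨L, hL⟩ : ∃ L : ℕ, L = ⌈3 * X * (2 * E)⌉₊ := ⟨_, rfl⟩
  have hL1 : 3 * X * (2 * E) ≤ L := hL ▸ Nat.le_ceil _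
  have hL2 : (L : ℝ) ≤ 3 * X * (2 * E) + 1 := hL ▸ (Nat.ceil_lt_add_one (by positivity)).le
  have hlt : ((univ : Finset Prop) ×ˢ Icc (-(L : ℤ)) L).card < T.card := by
    have e1 : (L : ℤ) + 1 - -(L : ℤ) = ((2 * L + 1 : ℕ) : ℤ) := by push_cast; ring
    have e2 : Real.exp ((∑ _i : Unit, U) / y + 5) = E * (Real.exp 2 * Real.exp 2) := by
      rw [hE, ← Real.exp_add, ← Real.exp_add, sum_const, card_univ, Fintype.card_unit, one_smul]
      congr 1
      ring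
    have e3 : 5 ≤ Real.exp 2 := by
      linarith only [Real.quadratic_le_exp_of_nonneg (show (0 : ℝ) ≤ 2 by norm_num)]
    have e4 : 25 ≤ Real.exp 2 * Real.exp 2 := by nlinarith only [e3]
    have e5 := mul_le_mul_of_nonneg_right (mul_le_mul_of_nonneg_left e4 (zero_le_one.trans he))
      (show 0 ≤ X + 1 by linarith only [hX])
    have e6 := mul_nonneg hX (zero_le_one.trans he)
    rw [card_product, Int.card_Icc, e1, Int.toNat_natCast, card_univ, Fintype.card_prop,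
      ← Nat.cast_lt (α := ℝ)]
    rw [e2] at hc
    push_cast
    linarith only [hc, e5, e6, he, hL2]
  obtain ⟨μ, hμ, μ', hμ', hne, h⟩ := exists_ne_map_eq_of_card_lt_of_maps_to hlt
    (f := fun μ => (0 < τ (pw K g μ), ⌊Real.log (τ (pw K g μ)) * (2 * E)⌋)) fun μ hμ => by
      have h1 : |Real.log (τ (pw K g μ))| ≤ 3 * X := by
        rw [(arch_log K τ hα0 _).2]
        refine (abs_sum_le_sum_abs _ _).trans (le_trans ?_
          (mul_le_mul_of_nonneg_left (hT μ (mem_coe.1 hμ)) (by norm_num)))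
        rw [nr, mul_sum]
        refine sum_le_sum fun j _ => ?_
        rw [abs_mul, mul_left_comm]
        exact mul_le_mul_of_nonneg_left (hA j) (abs_nonneg _)
      have h4 : |Real.log (τ (pw K g μ)) * (2 * E)| ≤ L := by
        rw [abs_mul, abs_of_pos (by positivity : 0 < 2 * E)]
        exact (mul_le_mul_of_nonneg_right h1 (by positivity)).trans hL1
      obtain ⟨h5, h6⟩ := abs_le.1 h4
      refine mem_coe.2 (mem_product.2 ⟨mem_univ _, mem_Icc.2 ⟨Int.le_floor.2 ?_, ?_⟩⟩)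
      · push_cast
        exact h5
      · exact_mod_cast (Int.floor_le _).trans h6
  refine ⟨μ, hμ, μ', hμ', hne, fun _ _ => ?_⟩
  obtain ⟨e1, e2⟩ := Prod.mk.inj h
  rw [col_sub K hg0, hν, map_sub, map_one, map_div₀]
  rw [hE] at e2
  exact arch_close (arch_log K τ hα0 _).1 (arch_log K τ hα0 _).1 (iff_of_eq e1)
    (by linarith only [hq]) e2

end

section

open Finset UniqueFactorizationMonoid H70

variable {O : Type*} [CommRing O] [IsDomain O] [IsPrincipalIdealRing O] [NormalizationMonoid O]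
  [DecidableEq O] {V : Type*} [Fintype V] (D : Dat O V)
  (K : Type*) [Field K] [CharZero K] [Algebra O K] [IsFractionRing O K]

omit K in
theorem un_zpow (w : V) {u : Oˣ} {k : ℤ} (h : u = D.φ ^ k ∨ u = -D.φ ^ k) :
    Real.log (D.σ w u) = k * Real.log (D.σ w D.φ) := by
  have e : D.σ w ((D.φ ^ k : Oˣ) : O) = D.σ w D.φ ^ k :=
    map_zpow ((D.σ w : O →* ℝ).comp (Units.coeHom O)) D.φ k
  rcases h with rfl | rfl
  · rw [e, Real.log_zpow]
  · rw [Units.val_neg, map_neg, Real.log_neg_eq_log, e, Real.log_zpow]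

omit K in
theorem units : ∃ c : ℝ, 1 ≤ c ∧ ∀ x : ℝ, 0 ≤ x → ∀ T : Finset Oˣ,
    (∀ u ∈ T, ∀ w, |Real.log (D.σ w u)| ≤ x) → (T.card : ℝ) ≤ c * (x + 1) := by
  classical
  by_cases h : ∀ w, Real.log (D.σ w D.φ) = 0
  · obtain ⟨M, hM⟩ := D.few 1
    refine ⟨M + 1, le_add_of_nonneg_left (Nat.cast_nonneg _), fun x hx T _ => ?_⟩
    have h1 : T.card ≤ M := by
      rw [← card_image_of_injective T Units.val_injective]
      refine hM _ fun a ha w => ?_
      obtain ⟨u, -, rfl⟩ := mem_image.1 ha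
      obtain ⟨k, hk⟩ := D.unit_gen u
      have := un_zpow D w hk
      rw [h, mul_zero] at this
      rw [← Real.exp_log_eq_abs (D.σ_ne u.ne_zero w), this, Real.exp_zero]
    have h2 : (T.card : ℝ) ≤ M := by exact_mod_cast h1
    have h3 := mul_nonneg (Nat.cast_nonneg (α := ℝ) M) hx
    linarith only [h2, h3, hx]
  obtain ⟨w, hw⟩ := not_forall.1 h
  obtain ⟨a, ha⟩ : ∃ a, a = |Real.log (D.σ w D.φ)|⁻¹ := ⟨_, rfl⟩
  have ha0 : 0 < a := ha ▸ inv_pos.2 (abs_pos.2 hw)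
  refine ⟨4 * a + 2, by linarith only [ha0], fun x hx T hT => ?_⟩
  obtain ⟨N, hN⟩ : ∃ N : ℕ, N = ⌊x * a⌋₊ := ⟨_, rfl⟩
  have hN1 : (N : ℝ) ≤ x * a := hN ▸ Nat.floor_le (mul_nonneg hx ha0.le)
  have h1 : T ⊆ (Icc (-(N : ℤ)) N).image (fun k => D.φ ^ k) ∪
      (Icc (-(N : ℤ)) N).image (fun k => -D.φ ^ k) := fun u hu => by
    obtain ⟨k, hk⟩ := D.unit_gen u
    have h2 := hT u hu w
    rw [un_zpow D w hk, abs_mul, ← le_div_iff₀ (abs_pos.2 hw), div_eq_mul_inv, ← ha] at h2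
    have h3 : k.natAbs ≤ N := by
      rw [hN]
      refine Nat.le_floor ?_
      rwa [Nat.cast_natAbs, Int.cast_abs]
    have h4 : k ∈ Icc (-(N : ℤ)) N := mem_Icc.2 ⟨by omega, by omega⟩
    exact mem_union.2 (hk.imp (fun e => mem_image.2 ⟨k, h4, e.symm⟩)
      fun e => mem_image.2 ⟨k, h4, e.symm⟩)
  have h2 : (Icc (-(N : ℤ)) N).card = 2 * N + 1 := by
    rw [Int.card_Icc]; omega
  have h3 : T.card ≤ 2 * N + 1 + (2 * N + 1) := (card_le_card h1).trans
    ((card_union_le _ _).trans (add_le_add (h2 ▸ card_image_le) (h2 ▸ card_image_le)))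
  have h4 : (T.card : ℝ) ≤ 2 * N + 1 + (2 * N + 1) := by exact_mod_cast h3
  linarith only [h4, hN1, hx, ha0]

omit K in
theorem un_three {p : O} (hp : Prime p) :
    ∑ w, |Real.log (D.σ w (bu D p * p))| ≤ 3 * Real.log (D.N p) := by
  have h1 := Real.log_le_log two_pos (D.two_le_N hp)
  linarith only [bu_spec D hp.ne_zero, h1, Real.log_two_gt_d9]

omit K in
theorem un_aux {y : O} (hy : y ≠ 0) (w : V) :
    |Real.log (D.σ w y) - Real.log (D.σ w (un D y))| ≤ 3 * Real.log (D.N y) := by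
  have h0 : ∀ p ∈ primeFactors y, D.σ w (bu D p * p) ≠ 0 := fun p hp =>
    D.σ_ne (mul_ne_zero (bu D p).ne_zero (prime_of_mem hp).ne_zero) w
  have e := congrArg (fun t => Real.log (D.σ w t)) (un_spec D hy)
  simp only [map_mul (D.σ w) _ (un D y : O), map_prod, map_pow] at e
  rw [Real.log_mul (prod_ne_zero_iff.2 fun p hp => pow_ne_zero _ (h0 p hp))
    (D.σ_ne (un D y).ne_zero w), Real.log_prod fun p hp => pow_ne_zero _ (h0 p hp)] at e
  rw [← e, add_sub_cancel_right, D.main_logN hy, mul_sum]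
  refine (abs_sum_le_sum_abs _ _).trans (sum_le_sum fun p hp => ?_)
  rw [Real.log_pow, abs_mul, Nat.abs_cast, mul_left_comm]
  exact mul_le_mul_of_nonneg_left ((single_le_sum (f := fun w => |Real.log (D.σ w (bu D p * p))|)
    (fun _ _ => abs_nonneg _) (mem_univ w)).trans (un_three D (prime_of_mem hp))) (Nat.cast_nonneg _)

omit K in
theorem un_rat {y z : O} (hy : y ≠ 0) (hz : z ≠ 0) (w : V) :
    Real.log (D.σ w y) - Real.log (D.σ w z) ≤ Real.log (D.Hm y z) ∧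
      Real.log (D.N z) ≤ Real.log (D.Hm y z) := by
  classical
  have hp : ∀ v, 0 < |D.σ v z| := fun v => abs_pos.2 (D.σ_ne hz v)
  have h1 : ∀ v, Real.log (D.σ v z) ≤ Real.log (max |D.σ v y| |D.σ v z|) := fun v =>
    Real.log_abs (D.σ v z) ▸ Real.log_le_log (hp v) (le_max_right _ _)
  have h2 : Real.log (D.σ w y) ≤ Real.log (max |D.σ w y| |D.σ w z|) :=
    Real.log_abs (D.σ w y) ▸ Real.log_le_log (abs_pos.2 (D.σ_ne hy w)) (le_max_left _ _)
  have h3 := D.Fn_logN_nonneg hz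
  rw [Dat.Hm, Real.log_prod fun v _ => (lt_max_of_lt_right (hp v)).ne']
  rw [D.Fn_logN hz] at h3 ⊢
  refine ⟨?_, sum_le_sum fun v _ => h1 v⟩
  rw [← add_sum_erase _ _ (mem_univ w)] at h3 ⊢
  linarith only [h2, h3, sum_le_sum (s := univ.erase w) fun v _ => h1 v]

omit K in
theorem un_le {y z : O} (hy : y ≠ 0) (hz : z ≠ 0) {h : ℝ} (hh : Real.log (D.Hm y z) ≤ h)
    (w : V) : |Real.log (D.σ w ((un D y * (un D z)⁻¹ : Oˣ) : O))| ≤ 7 * h := by
  have e : D.σ w ((un D y * (un D z)⁻¹ : Oˣ) : O) = D.σ w (un D y) / D.σ w (un D z) := by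
    rw [eq_div_iff (D.σ_ne (un D z).ne_zero w), ← map_mul, ← Units.val_mul, inv_mul_cancel_right]
  obtain ⟨a1, a2⟩ := un_rat D hy hz w
  obtain ⟨b1, b2⟩ := un_rat D hz hy w
  rw [D.ht_comm] at b1 b2
  obtain ⟨c1, c2⟩ := abs_le.1 (un_aux D hy w)
  obtain ⟨d1, d2⟩ := abs_le.1 (un_aux D hz w)
  rw [e, Real.log_div (D.σ_ne (un D y).ne_zero w) (D.σ_ne (un D z).ne_zero w), abs_le]
  constructor <;> linarith only [a1, a2, b1, b2, c1, c2, d1, d2, hh]

omit K D in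
theorem un_sub {P P' : Finset O} (h : ∀ p ∈ P, Prime p ∧ normalize p = p)
    (h' : ∀ p ∈ P', Prime p ∧ normalize p = p) (hd : ∏ p ∈ P, p ∣ ∏ p ∈ P', p) : P ⊆ P' :=
  fun p hp => by
    obtain ⟨q, hq, k⟩ := (h p hp).1.exists_mem_finset_dvd ((dvd_prod_of_mem (fun p => p) hp).trans hd)
    rwa [((h p hp).1.irreducible.associated_of_dvd (h' q hq).1.irreducible k).eq_of_normalized
      (h p hp).2 (h' q hq).2]

omit K in
theorem om_ex (hB : Box D) (ε₁ : ℝ) (hε : 0 < ε₁) :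
    ∃ L₀ : ℝ, ∀ L : ℝ, L₀ ≤ L → ∃ m : ℕ, (m : ℝ) + 1 ≤ ε₁ * L ∧ Om D L m := by
  classical
  obtain ⟨c, hc⟩ := hB
  obtain ⟨Y, hY⟩ : ∃ Y, Y = Real.exp (4 / ε₁) := ⟨_, rfl⟩
  have hY1 : 1 ≤ Y := hY ▸ Real.one_le_exp (by positivity)
  refine ⟨(4 * (|c| * Y) + 2) / ε₁, fun L hL => ?_⟩
  rw [div_le_iff₀' hε] at hL
  have h1 : c * Y ≤ |c| * Y := mul_le_mul_of_nonneg_right (le_abs_self c) (zero_le_one.trans hY1)
  have h2 : |c| ≤ |c| * Y := le_mul_of_one_le_right (abs_nonneg c) hY1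
  have h3 := abs_nonneg c
  have h4 : 0 ≤ ε₁ * L / 2 := by linarith only [hL, h2, h3]
  have h5 := Nat.floor_le h4
  have h6 := Nat.lt_floor_add_one (ε₁ * L / 2)
  refine ⟨⌊ε₁ * L / 2⌋₊, by linarith only [h5, hL, h2, h3], fun P hP hs => Nat.le_floor ?_,
    fun x hx T hT => ?_⟩
  · have a1 := hc Y hY1 (P.filter fun p => D.N p ≤ Y) fun p hp =>
      ⟨(hP p (mem_filter.1 hp).1).1.ne_zero, (hP p (mem_filter.1 hp).1).2, (mem_filter.1 hp).2⟩
    have a2 : (P.filter fun p => ¬D.N p ≤ Y).card • (4 / ε₁) ≤ L :=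
      (card_nsmul_le_sum _ _ _ fun p hp => by
        rw [← Real.log_exp (4 / ε₁), ← hY]
        exact Real.log_le_log (by linarith only [hY1]) (not_le.1 (mem_filter.1 hp).2).le).trans
      ((sum_le_sum_of_subset_of_nonneg (filter_subset _ _) fun p hp _ =>
        D.Fn_logN_nonneg (hP p hp).1.ne_zero).trans hs)
    rw [nsmul_eq_mul, ← mul_div_assoc, div_le_iff₀' hε] at a2
    rw [← card_filter_add_card_filter_not (s := P) fun p => D.N p ≤ Y]
    push_cast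
    linarith only [a1, a2, h1, hL]
  · have a1 := hc (Real.exp x) (Real.one_le_exp hx) (T.image fun P => normalize (∏ p ∈ P, p))
      fun a ha => by
        obtain ⟨P, hP, rfl⟩ := mem_image.1 ha
        have h0 : ∀ p ∈ P, p ≠ 0 := fun p hp => ((hT P hP).1 p hp).1.ne_zero
        refine ⟨fun e => prod_ne_zero_iff.2 h0 (normalize_eq_zero.1 e), normalize_idem _, ?_⟩
        rw [normalize_apply, D.N_mul, D.N_unit, mul_one,
          ← Real.log_le_iff_le_exp (D.N_pos (prod_ne_zero_iff.2 h0)), D.N_prod,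
          Real.log_prod fun p hp => (D.N_pos (h0 p hp)).ne']
        exact (hT P hP).2
    rw [card_image_of_injOn fun P hP P' hP' e => by
      have k := normalize_eq_normalize_iff.1 e
      exact (un_sub (hT P hP).1 (hT P' hP').1 k.1).antisymm
        (un_sub (hT P' hP').1 (hT P hP).1 k.2)] at a1
    rw [Real.exp_add, mul_comm]
    refine a1.trans (mul_le_mul_of_nonneg_right ?_ (Real.exp_pos x).le)
    linarith only [Real.add_one_le_exp (⌊ε₁ * L / 2⌋₊ : ℝ), h6, hL, h2, h3, le_abs_self c]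

end

section

open Finset UniqueFactorizationMonoid H70

variable {O : Type*} [CommRing O] [IsDomain O] [IsPrincipalIdealRing O] [NormalizationMonoid O]
  [DecidableEq O] {V : Type*} [Fintype V] (D : Dat O V)
  (K : Type*) [Field K] [CharZero K] [Algebra O K] [IsFractionRing O K]

omit D K in
theorem rep_sub {y z : O} (hz : z ≠ 0) (h : y ∣ z) : primeFactors y ⊆ primeFactors z :=
  fun _ hp => mem_primeFactors.2 (Multiset.mem_of_le
    ((dvd_iff_normalizedFactors_le_normalizedFactors (ne_zero_of_dvd_ne_zero hz h) hz).1 h)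
    (mem_primeFactors.1 hp))

omit D K in
theorem rep_vv {y p : O} (h : p ∉ primeFactors y) : vv y p = 0 :=
  Multiset.count_eq_zero.2 fun k => h (mem_primeFactors.2 k)

omit D K in
theorem rep_prod {M : Type*} [CommMonoid M] {n : ℕ} {P : Finset O} {ε : Fin n ↪ O}
    (hε : univ.map ε = P) {y : O} (hy : primeFactors y ⊆ P) (f : O → ℕ → M) (hf : ∀ p, f p 0 = 1) :
    ∏ j, f (ε j) (vv y (ε j)) = ∏ p ∈ primeFactors y, f p (vv y p) := by
  rw [← prod_map univ ε fun p => f p (vv y p), hε]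
  exact (prod_subset hy fun p _ hp => by rw [rep_vv hp, hf]).symm

omit D K in
theorem rep_sum {n : ℕ} {P : Finset O} {ε : Fin n ↪ O} (hε : univ.map ε = P) {y : O}
    (hy : primeFactors y ⊆ P) (f : O → ℝ) :
    ∑ j, vv y (ε j) * f (ε j) = ∑ p ∈ primeFactors y, vv y p * f p := by
  rw [← sum_map univ ε fun p => vv y p * f p, hε]
  exact (sum_subset hy fun p _ hp => by rw [rep_vv hp, Nat.cast_zero, zero_mul]).symm

omit D K in
theorem rep_abs (a b : ℕ) {x : ℝ} (hx : 0 ≤ x) :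
    |(((a : ℤ) - (b : ℤ) : ℤ) : ℝ)| * x ≤ a * x + b * x := by
  rw [← add_mul]
  refine mul_le_mul_of_nonneg_right ?_ hx
  push_cast
  exact (abs_sub _ _).trans_eq (by rw [Nat.abs_cast, Nat.abs_cast])

theorem rep {α : Type*} {S : Finset α} {a b c : α → O} {L h : ℝ} (T : Tr D S a b c L h) {m : ℕ}
    (hO : Om D L m) (lam sm : ℝ) (hsm : ∀ e ∈ S, sml D lam (b e) + sml D lam (c e) ≤ sm)
    (υ : Oˣ) (hυ : ∀ e ∈ S, un D (b e) * (un D (c e))⁻¹ = υ) :
    ∃ (n : ℕ) (g : Fin n → O) (l : Fin n → ℝ) (β : α → Fin n → ℤ), Gn D g l ∧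
      Pre l S β L h m lam sm ∧ (∀ j, ∃ e ∈ S, g j ∣ b e * c e) ∧
      (∀ e ∈ S, ∀ e' ∈ S, β e = β e' → e = e') ∧
      ∀ e ∈ S, -algebraMap O K υ * pw K g (β e) - 1 =
        algebraMap O K (a e) / algebraMap O K (c e) := by
  classical
  obtain ⟨P, hP⟩ : ∃ P, P = S.biUnion fun e => primeFactors (b e * c e) := ⟨_, rfl⟩
  obtain ⟨ε, hε⟩ : ∃ ε : Fin P.card ↪ O, univ.map ε = P :=
    ⟨P.equivFin.symm.toEmbedding.trans (Function.Embedding.subtype _), by
      rw [← map_map, map_univ_equiv, univ_eq_attach, attach_map_val]⟩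
  have hm : ∀ j, ∃ e ∈ S, ε j ∈ primeFactors (b e * c e) := fun j =>
    mem_biUnion.1 ((hε.trans hP).subset (mem_map_of_mem ε (mem_univ j)))
  have hp : ∀ j, Prime (ε j) ∧ normalize (ε j) = ε j := fun j => by
    obtain ⟨e, -, k⟩ := hm j
    exact ⟨prime_of_mem k, normalize_normalized_factor _ (mem_primeFactors.1 k)⟩
  have hpm : ∀ J : Finset (Fin P.card), ∀ p ∈ J.map ε, Prime p ∧ normalize p = p := fun J p k => by
    obtain ⟨j, -, rfl⟩ := mem_map.1 k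
    exact hp j
  have hb : ∀ e ∈ S, b e ≠ 0 := fun e he => right_ne_zero_of_mul (left_ne_zero_of_mul (T.ne e he))
  have hc : ∀ e ∈ S, c e ≠ 0 := fun e he => right_ne_zero_of_mul (T.ne e he)
  have hbc : ∀ e ∈ S, primeFactors (b e * c e) ⊆ P := fun e he =>
    hP ▸ subset_biUnion_of_mem (fun e => primeFactors (b e * c e)) he
  have sb : ∀ e ∈ S, primeFactors (b e) ⊆ P := fun e he =>
    (rep_sub (mul_ne_zero (hb e he) (hc e he)) (dvd_mul_right _ _)).trans (hbc e he)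
  have sc : ∀ e ∈ S, primeFactors (c e) ⊆ P := fun e he =>
    (rep_sub (mul_ne_zero (hb e he) (hc e he)) (dvd_mul_left _ _)).trans (hbc e he)
  have hl : ∀ j, 0 ≤ Real.log (D.N (ε j)) := fun j => D.Fn_logN_nonneg (hp j).1.ne_zero
  have hms : ∀ J : Finset (Fin P.card), ms (fun j => Real.log (D.N (ε j))) J =
      ∑ p ∈ J.map ε, Real.log (D.N p) := fun J => (sum_map J ε fun p => Real.log (D.N p)).symm
  have inj := IsFractionRing.injective O K
  have hne : ∀ {y : O}, y ≠ 0 → algebraMap O K y ≠ 0 := fun hy => (map_ne_zero_iff _ inj).2 hy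
  have hy : ∀ {y : O}, y ≠ 0 → primeFactors y ⊆ P → algebraMap O K y =
      (∏ j, algebraMap O K (bu D (ε j) * ε j) ^ vv y (ε j)) * algebraMap O K (un D y) :=
    fun {y} h0 hs => by
      rw [rep_prod hε hs (fun p k => algebraMap O K (bu D p * p) ^ k) fun _ => pow_zero _]
      conv_lhs => rw [← un_spec D h0, map_mul, map_prod]
      simp only [map_pow]
  have key : ∀ e ∈ S, algebraMap O K υ * pw K (fun j => (bu D (ε j) : O) * ε j)
      (fun j => (vv (b e) (ε j) : ℤ) - vv (c e) (ε j)) =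
        algebraMap O K (b e) / algebraMap O K (c e) := fun e he => by
    have h1 : algebraMap O K υ = algebraMap O K (un D (b e)) / algebraMap O K (un D (c e)) := by
      rw [eq_div_iff (hne (un D (c e)).ne_zero), ← map_mul, ← Units.val_mul, ← hυ e he,
        inv_mul_cancel_right]
    rw [hy (hb e he) (sb e he), hy (hc e he) (sc e he), mul_div_mul_comm, ← prod_div_distrib, ← h1,
      mul_comm, pw]
    congr 1
    refine prod_congr rfl fun j _ => ?_
    rw [zpow_sub₀ (hne (mul_ne_zero (bu D _).ne_zero (hp j).1.ne_zero)), zpow_natCast, zpow_natCast]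
  refine ⟨P.card, fun j => bu D (ε j) * ε j, fun j => Real.log (D.N (ε j)),
    fun e j => (vv (b e) (ε j) : ℤ) - vv (c e) (ε j), ⟨fun j => ?_, fun i j hij => ?_, fun j => ?_,
    fun j => ?_⟩, ⟨hl, fun e he => ?_, fun e he => ?_, fun J hJ => ?_, fun x hx F hF => ?_,
    fun e he => ?_⟩, fun j => ?_, fun e he e' he' k => ?_, fun e he => ?_⟩
  · exact (associated_unit_mul_left _ _ (bu D _).isUnit).symm.prime (hp j).1
  · beta_reduce
    rw [isCoprime_mul_unit_left_left (bu D _).isUnit, isCoprime_mul_unit_left_right (bu D _).isUnit,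
      (hp i).1.irreducible.coprime_iff_not_dvd]
    exact fun hd => hij (ε.injective (((hp i).1.irreducible.associated_of_dvd (hp j).1.irreducible
      hd).eq_of_normalized (hp i).2 (hp j).2))
  · rw [D.N_mul, D.N_unit, one_mul]
  · linarith only [bu_spec D (hp j).1.ne_zero, Real.log_le_log two_pos (D.two_le_N (hp j).1),
      Real.log_two_gt_d9]
  · refine (sum_le_sum fun j _ => rep_abs _ _ (hl j)).trans ?_
    have h1 := (D.main_logN (hb e he)).symm.trans_le (Real.log_le_log (D.N_pos (hb e he))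
      ((M1_ht D (T.rot.sum e he) (left_ne_zero_of_mul (left_ne_zero_of_mul (T.ne e he)))).2.2.2))
    have h2 := (D.main_logN (hc e he)).symm.trans_le (Real.log_le_log (D.N_pos (hc e he))
      ((M1_ht D (T.rot.rot.sum e he) (hb e he)).2.2.2))
    rw [sum_add_distrib, rep_sum hε (sb e he) fun p => Real.log (D.N p),
      rep_sum hε (sc e he) fun p => Real.log (D.N p), two_mul]
    exact add_le_add (h1.trans (T.rot.ht e he)) (h2.trans (T.rot.rot.ht e he))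
  · refine le_trans ?_ (T.rad e he)
    rw [hms, Dat.rad, Real.log_prod fun p k => (D.N_pos (prime_of_mem k).ne_zero).ne']
    refine sum_le_sum_of_subset_of_nonneg (fun p k => ?_) fun p k _ =>
      D.Fn_logN_nonneg (prime_of_mem k).ne_zero
    obtain ⟨j, hj, rfl⟩ := mem_map.1 k
    by_contra hn
    refine (mem_filter.1 hj).2 ?_
    beta_reduce
    rw [rep_vv fun k => hn (rep_sub (T.ne e he) ((dvd_mul_left _ _).mul_right _) k),
      rep_vv fun k => hn (rep_sub (T.ne e he) (dvd_mul_left _ _) k), sub_self]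
  · rw [← card_map ε]
    exact hO.om _ (hpm J) (hms J ▸ hJ)
  · rw [← card_image_of_injective F (map_injective ε)]
    refine hO.ct x hx _ fun Q hQ => ?_
    obtain ⟨J, hJ, rfl⟩ := mem_image.1 hQ
    exact ⟨hpm J, hms J ▸ hF J hJ⟩
  · refine (sum_le_sum fun j _ => rep_abs _ _ (hl j)).trans (le_trans (le_of_eq ?_) (hsm e he))
    have k := fun {y : O} (hs : primeFactors y ⊆ P) =>
      rep_sum hε hs fun p => if Real.log (D.N p) < lam then Real.log (D.N p) else 0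
    simp only [mul_ite, mul_zero] at k
    rw [sum_add_distrib, sml, sml, sum_filter, sum_filter, sum_filter, sum_filter, k (sb e he),
      k (sc e he)]
  · obtain ⟨e, he, k⟩ := hm j
    exact ⟨e, he, Units.mul_left_dvd.2 (dvd_of_mem_normalizedFactors (mem_primeFactors.1 k))⟩
  · have h1 := key e he
    rw [show (fun j => (vv (b e) (ε j) : ℤ) - vv (c e) (ε j)) = _ from k, key e' he',
      div_eq_div_iff (hne (hc e' he')) (hne (hc e he)), ← map_mul, ← map_mul] at h1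
    exact T.inj e he e' he' (inj h1).symm
  · rw [neg_mul, key e he, eq_div_iff (hne (hc e he)), sub_mul, neg_mul,
      div_mul_cancel₀ _ (hne (hc e he)), one_mul, ← map_neg, ← map_sub]
    congr 1
    linear_combination -T.sum e he

end

section

open Finset UniqueFactorizationMonoid H70

variable {O : Type*} [CommRing O] [IsDomain O] [IsPrincipalIdealRing O] [NormalizationMonoid O]
  [DecidableEq O] {V : Type*} [Fintype V] (D : Dat O V)
  (K : Type*) [Field K] [CharZero K] [Algebra O K] [IsFractionRing O K]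

omit K in
theorem cl_unit {α : Type*} : ∃ c₀ : ℝ, 1 ≤ c₀ ∧ ∀ (S : Finset α) (a b c : α → O) (L h k : ℝ),
    Tr D S a b c L h → 0 ≤ h → 0 ≤ k → (∀ S' ⊆ S, ∀ υ : Oˣ, S'.Nonempty →
      (∀ e ∈ S', un D (b e) * (un D (c e))⁻¹ = υ) → (S'.card : ℝ) ≤ k) →
    (S.card : ℝ) ≤ c₀ * (h + 1) * k := by
  classical
  obtain ⟨c₀, h1, H⟩ := units D
  refine ⟨7 * c₀, by linarith, fun S a b c L h k T h0 hk hS =>
    fib S (fun e => un D (b e) * (un D (c e))⁻¹) _ k hk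
      ((H (7 * h) (by linarith) _ fun u hu w => ?_).trans (by linarith)) fun S' h2 h3 => ?_⟩
  · obtain ⟨e, he, rfl⟩ := mem_image.1 hu
    have hz := right_ne_zero_of_mul (T.ne e he)
    exact un_le D (right_ne_zero_of_mul (left_ne_zero_of_mul (T.ne e he))) hz
      ((D.m3_Hm (T.sum e he) hz).1.trans (T.ht e he)) w
  · rcases S'.eq_empty_or_nonempty with rfl | ⟨e, he⟩
    · simpa using hk
    · exact hS S' h2 _ ⟨e, he⟩ fun x hx => h3 x hx e he

omit K in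
theorem cl_l0 (p : O) : 0 ≤ Real.log (D.N p) := by
  rcases eq_or_ne p 0 with rfl | h
  · have : D.N 0 = 0 := by
      obtain ⟨w⟩ := Fintype.card_pos_iff.1 D.pos_card
      exact prod_eq_zero (mem_univ w) (by simp)
    rw [this, Real.log_zero]
  · exact D.Fn_logN_nonneg h

omit K in
theorem cl_sml (y : O) : sml D 0 y = 0 :=
  sum_eq_zero fun p hp => absurd (mem_filter.1 hp).2 (not_lt.2 (cl_l0 D p))

omit K in
theorem cl_pr {x p : O} (hp : p ∈ primeFactors x) : Prime p ∧ normalize p = p ∧ p ∣ x :=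
  have h := mem_primeFactors.1 hp
  ⟨prime_of_normalized_factor p h, normalize_normalized_factor p h, dvd_of_mem_normalizedFactors h⟩

omit K in
theorem cl_rad (x : O) : Real.log (D.rad x) = ∑ p ∈ primeFactors x, Real.log (D.N p) :=
  Real.log_prod fun _ hp => (D.N_pos (cl_pr hp).1.ne_zero).ne'

omit K in
theorem cl_sum {α : Type*} {S : Finset α} {a b c : α → O} {L h : ℝ} (T : Tr D S a b c L h) {e : α}
    (he : e ∈ S) : Real.log (D.rad (a e)) + Real.log (D.rad (b e)) + Real.log (D.rad (c e)) ≤ L := by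
  have hp : ∀ t : O, D.rad t ≠ 0 := fun t => (lt_of_lt_of_le one_pos (D.one_le_rad t)).ne'
  have := T.rad e he
  rwa [D.rad_mul (IsCoprime.mul_left (T.copac he) (T.copbc he)), D.rad_mul (T.cop e he),
    Real.log_mul (mul_ne_zero (hp _) (hp _)) (hp _), Real.log_mul (hp _) (hp _)] at this

omit K in
theorem cl_le {α : Type*} {S : Finset α} {a b c : α → O} {L h : ℝ} (T : Tr D S a b c L h) {e : α}
    (he : e ∈ S) {P : Finset O} (hP : P ⊆ primeFactors (a e)) :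
    ∑ p ∈ P, Real.log (D.N p) ≤ L ∧ ∑ p ∈ P, vv (a e) p * Real.log (D.N p) ≤ h := by
  have hx := left_ne_zero_of_mul (left_ne_zero_of_mul (T.ne e he))
  constructor
  · have h1 := sum_le_sum_of_subset_of_nonneg hP fun p _ _ => cl_l0 D p
    have h2 := cl_sum D T he
    have h3 := Real.log_nonneg (D.one_le_rad (b e))
    have h4 := Real.log_nonneg (D.one_le_rad (c e))
    rw [← cl_rad] at h1
    linarith
  · refine (sum_le_sum_of_subset_of_nonneg hP fun p _ _ =>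
      mul_nonneg (Nat.cast_nonneg _) (cl_l0 D p)).trans ((D.main_logN hx).ge.trans ?_)
    exact (Real.log_le_log (D.N_pos hx)
      (D.m2_ht (T.sum e he) (right_ne_zero_of_mul (T.ne e he))).1).trans (T.ht e he)

omit K in
theorem cl_h {θ L h : ℝ} {m : ℕ} (h0 : 0 < θ) (hL : L ≤ θ * h) (hm : (m : ℝ) + 1 ≤ L) :
    1 ≤ L ∧ 0 < h := by
  have : (0 : ℝ) ≤ m := Nat.cast_nonneg m
  exact ⟨by linarith, (mul_pos_iff_of_pos_left h0).1 (by linarith)⟩

include K in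
theorem finClass {α : Type*} (θ₀ C : ℝ) (h0 : 0 < θ₀) (h1 : θ₀ ≤ 1) (hC : 1 ≤ C) :
    ∃ θ c₀ : ℝ, 0 < θ ∧ θ ≤ 1 ∧ 1 ≤ c₀ ∧ ∀ (S : Finset α) (a b c : α → O) (L h : ℝ) (m : ℕ)
      (lam sm ρ B : ℝ) (P : α → Finset O), Tr D S a b c L h → Om D L m → L ≤ θ * h →
      (m : ℝ) + 1 ≤ L → 0 ≤ ρ → 0 ≤ B →
      (∀ e ∈ S, P e ⊆ primeFactors (a e) ∧ ∑ p ∈ P e, Real.log (D.N p) ≤ ρ ∧
        2 * θ₀ * h ≤ ∑ p ∈ P e, vv (a e) p * Real.log (D.N p)) →
      (∀ e ∈ S, sml D lam (b e) + sml D lam (c e) ≤ sm) →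
      (∀ (n : ℕ) (l : Fin n → ℝ) (F : Finset α) (β : α → Fin n → ℤ),
        Mdl l F β L h m lam sm θ C ρ → (F.card : ℝ) ≤ B) →
      (S.card : ℝ) ≤ c₀ * (h + 1) * Real.exp (ρ + 5 * (m + 1) / θ₀) * B := by
  classical
  obtain ⟨θ, t0, t1, H⟩ := modA D K (α := α) (I := O) θ₀ C h0 h1 hC
  obtain ⟨c₀, c1, U⟩ := cl_unit D (α := α)
  refine ⟨θ, c₀, t0, t1, c1, fun S a b c L h m lam sm ρ B P T hO hL hm hρ hB hP hsm hM => ?_⟩
  obtain ⟨L1, hh⟩ := cl_h t0 hL hm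
  have m0 : (0 : ℝ) ≤ m := Nat.cast_nonneg m
  obtain ⟨t, ht⟩ : ∃ t : ℝ, t = (m + 1) / (θ₀ * h) := ⟨_, rfl⟩
  have t2 : 0 < t := by rw [ht]; positivity
  have t3 : θ₀ * h * t = m + 1 := by rw [ht]; field_simp
  have cd : ∀ e ∈ S, (P e).card ≤ m := fun e he => hO.om _ (fun p hp =>
    ⟨(cl_pr ((hP e he).1 hp)).1, (cl_pr ((hP e he).1 hp)).2.1⟩) (cl_le D T he (hP e he).1).1
  rw [mul_assoc]
  refine U S a b c L h _ T hh.le (by positivity) fun S' hS' υ _ hυ =>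
    fib S' (fun e => lab (fun p => Real.log (D.N p)) t (P e) fun p => (vv (a e) p : ℤ)) _ B hB
      ((lab_count2 (cl_l0 D) t2.le (fun W => (∀ p ∈ W, Prime p ∧ normalize p = p) ∧
        ∑ p ∈ W, Real.log (D.N p) ≤ ρ) _ h m hh.le (hO.ct ρ hρ) _ fun f hf => ?_).trans ?_)
      fun F hF hl => ?_
  · obtain ⟨e, he, rfl⟩ := mem_image.1 hf
    have he' := hS' he
    refine ⟨_, _, rfl, ⟨fun p hp => ⟨(cl_pr ((hP e he').1 hp)).1, (cl_pr ((hP e he').1 hp)).2.1⟩,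
      (hP e he').2.1⟩, cd e he', ?_⟩
    simpa only [Int.cast_natCast, Nat.abs_cast] using (cl_le D T he' (hP e he').1).2
  · rw [← Real.exp_add, Real.exp_le_exp]
    have e1 : h * t = (m + 1) / θ₀ := by rw [ht]; field_simp
    have e2 : (m : ℝ) + 1 ≤ (m + 1) / θ₀ := le_div_self (by positivity) h0 h1
    rw [mul_div_assoc, e1]
    linarith
  rcases F.eq_empty_or_nonempty with rfl | ⟨e₀, h₀⟩
  · simpa using hB
  have hS : F ⊆ S := hF.trans hS'
  have hd : ∀ e ∈ F, P e = P e₀ := fun e he => lab_dom (hl e he e₀ h₀)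
  obtain ⟨j, hj⟩ : ∃ j : O → ℤ, ∀ e ∈ F, ∀ p ∈ P e₀,
      ⌊(vv (a e) p : ℝ) * Real.log (D.N p) * t⌋ = j p :=
    ⟨_, fun e he p hp => by
      have := congrFun (hl e he e₀ h₀) p
      simp only [lab, hd e he, hp, if_true, Int.cast_natCast, Option.some.injEq] at this
      exact this⟩
  have hf : ∀ e ∈ F, ∀ p ∈ P e₀, p ∈ primeFactors (a e) := fun e he p hp =>
    (hP e (hS he)).1 (hd e he ▸ hp)
  have lp : ∀ p ∈ P e₀, 0 < Real.log (D.N p) := fun p hp =>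
    Real.log_pos (lt_of_lt_of_le one_lt_two (D.two_le_norm p (cl_pr (hf e₀ h₀ p hp)).1))
  obtain ⟨u, hu⟩ : ∃ u : O → ℕ, ∀ p, u p = ⌈(j p : ℝ) / (Real.log (D.N p) * t)⌉₊ := ⟨_, fun _ => rfl⟩
  have uA : ∀ e ∈ F, ∀ p ∈ P e₀, u p ≤ vv (a e) p := fun e he p hp => by
    rw [hu, Nat.ceil_le, div_le_iff₀ (mul_pos (lp p hp) t2), ← hj e he p hp, ← mul_assoc]
    exact Int.floor_le _
  have uB : ∀ p ∈ P e₀, (j p : ℝ) ≤ u p * Real.log (D.N p) * t := fun p hp => by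
    rw [mul_assoc, ← div_le_iff₀ (mul_pos (lp p hp) t2), hu]
    exact Nat.le_ceil _
  obtain ⟨n, g, l, β, G, Pr, g1, g2, g3⟩ := rep D K (T.mono hS) hO lam sm
    (fun e he => hsm e (hS he)) υ fun e he => hυ e (hF he)
  set W := (P e₀).filter fun p => 1 ≤ j p with hW
  have hW1 : W ⊆ P e₀ := filter_subset _ _
  have hW2 : ∀ p ∈ W, 1 ≤ u p * Real.log (D.N p) * t := fun p hp =>
    le_trans (by exact_mod_cast (mem_filter.1 hp).2) (uB p (hW1 hp))
  obtain ⟨ν, n1, n2, n3, n4, n5⟩ := colFin D K G W (fun p hp => (cl_pr (hf e₀ h₀ p (hW1 hp))).1)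
    (fun p hp q hq hpq => by
      have p1 := cl_pr (hf e₀ h₀ p (hW1 hp))
      have q1 := cl_pr (hf e₀ h₀ q (hW1 hq))
      exact dvd_antisymm_of_normalize_eq p1.2.1 q1.2.1 hpq (p1.1.associated_of_dvd q1.1 hpq).symm.dvd)
    u (fun p hp => Nat.one_le_iff_ne_zero.2 fun e => by
      have := hW2 p hp
      rw [e] at this
      norm_num at this)
    (fun p hp i hi => by
      obtain ⟨e, he, h2⟩ := g1 i
      have p1 := cl_pr (hf e he p (hW1 hp))
      exact p1.1.not_isUnit (((T.cop e (hS he)).mul_right (T.copac (hS he))).isUnit_of_dvd' p1.2.2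
        (hi.trans h2)))
  refine hM n l F β ((H n g l F β L h m lam sm _ (-algebraMap O K υ) W ν _ 0 G Pr
    (neg_ne_zero.2 (υ.isUnit.map _).ne_zero) g2 hL hm
    ((card_le_card hW1).trans ((cd e₀ (hS h₀)).trans (Nat.le_succ m))) n1 n2 (fun e he p hp => ?_)
    ?_ ?_ (fun p hp => ?_) le_rfl (by simp) (fun p hp i => by simp [n3 p hp i]) n5).rho
      ((sum_le_sum_of_subset_of_nonneg hW1 fun p _ _ => cl_l0 D p).trans (hP e₀ (hS h₀)).2.1))
  · have p1 := hf e he p (hW1 hp)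
    rw [g3 e he]
    refine n4 p hp _ _ ((pow_dvd_pow p (uA e he p (hW1 hp))).trans ?_) fun h2 =>
      (cl_pr p1).1.not_isUnit ((T.copac (hS he)).isUnit_of_dvd' (cl_pr p1).2.2 h2)
    simpa only [prod_singleton, vv] using M1_dvd (left_ne_zero_of_mul (left_ne_zero_of_mul
      (T.ne e (hS he)))) (singleton_subset_iff.2 p1)
  · have e1 : ∑ p ∈ P e₀, (vv (a e₀) p * Real.log (D.N p) * t - 1) ≤
        ∑ p ∈ W, u p * Real.log (D.N p) * t := by
      rw [hW, sum_filter]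
      refine sum_le_sum fun p hp => ?_
      have e2 := Int.lt_floor_add_one ((vv (a e₀) p : ℝ) * Real.log (D.N p) * t)
      rw [hj e₀ h₀ p hp] at e2
      split_ifs with e3
      · linarith [uB p hp]
      · have : (j p : ℝ) ≤ 0 := by exact_mod_cast (show j p ≤ 0 by omega)
        linarith
    rw [sum_sub_distrib, ← sum_mul, ← sum_mul, sum_const, nsmul_eq_mul, mul_one] at e1
    have e2 := mul_le_mul_of_nonneg_right (hP e₀ (hS h₀)).2.2 t2.le
    have e3 : ((P e₀).card : ℝ) ≤ m := Nat.cast_le.2 (cd e₀ (hS h₀))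
    exact le_of_mul_le_mul_right (by linarith) t2
  · exact (sum_le_sum fun p hp => mul_le_mul_of_nonneg_right
      (Nat.cast_le.2 (uA e₀ h₀ p (hW1 hp))) (cl_l0 D p)).trans
      (cl_le D T (hS h₀) fun p hp => hf e₀ h₀ p (hW1 hp)).2
  · have := mul_le_mul_of_nonneg_left (hW2 p hp) (show 0 ≤ 2 * L by linarith)
    exact le_of_mul_le_mul_right (by linarith) t2

include K in
theorem archClass {α : Type*} (θ₀ C : ℝ) (h0 : 0 < θ₀) (h1 : θ₀ ≤ 1) (hC : 1 ≤ C) :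
    ∃ θ c₀ : ℝ, 0 < θ ∧ θ ≤ 1 ∧ 1 ≤ c₀ ∧ ∀ (S : Finset α) (a b c : α → O) (L h : ℝ) (m : ℕ)
      (B : ℝ), Tr D S a b c L h → Om D L m → L ≤ θ * h → (m : ℝ) + 1 ≤ L → 0 ≤ B →
      (∀ e ∈ S, ∃ w, |D.σ w (a e)| ≤ Real.exp (-(θ₀ * h)) * |D.σ w (c e)|) →
      (∀ (n : ℕ) (l : Fin n → ℝ) (F : Finset α) (β : α → Fin n → ℤ),
        Mdl l F β L h m 0 0 θ C 5 → (F.card : ℝ) ≤ B) →
      (S.card : ℝ) ≤ c₀ * (h + 1) * B := by
  classical
  obtain ⟨θ, t0, t1, H⟩ := modA D K (α := α) (I := Unit) θ₀ C h0 h1 hC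
  obtain ⟨c₀, c1, U⟩ := cl_unit D (α := α)
  have d1 : (1 : ℝ) ≤ Fintype.card V := by exact_mod_cast D.pos_card
  refine ⟨θ, c₀ * Fintype.card V, t0, t1, one_le_mul_of_one_le_of_one_le c1 d1,
    fun S a b c L h m B T hO hL hm hB hw hM => ?_⟩
  obtain ⟨L1, hh⟩ := cl_h t0 hL hm
  have := Fintype.card_pos_iff.1 D.pos_card
  choose! w hw using hw
  rw [mul_right_comm c₀, mul_assoc]
  refine U S a b c L h _ T hh.le (by positivity) fun S' hS' υ _ hυ =>
    fib S' w _ B hB (Nat.cast_le.2 (card_le_univ _)) fun F hF hl => ?_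
  rcases F.eq_empty_or_nonempty with rfl | ⟨e₀, h₀⟩
  · simpa using hB
  have hS : F ⊆ S := hF.trans hS'
  obtain ⟨n, g, l, β, G, Pr, g1, g2, g3⟩ := rep D K (T.mono hS) hO 0 0
    (fun e _ => by simp [cl_sml]) υ fun e he => hυ e (hF he)
  have u0 : 0 < θ₀ * h := by positivity
  obtain ⟨ν, n1, n2, n3, n4, n5⟩ := colArch D K G (w e₀) (θ₀ * h) u0.le
  refine hM n l F β (H n g l F β L h m 0 0 _ (-algebraMap O K υ) univ (fun _ => ν) _ 3 G Pr
    (neg_ne_zero.2 (υ.isUnit.map _).ne_zero) g2 hL hm (by simp) n1 (fun _ _ => n2)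
    (fun e he _ _ => ?_) (by simp) (by simpa using mul_le_of_le_one_left hh.le h1)
    (fun _ _ => le_mul_of_one_le_left u0.le (by linarith)) (by norm_num) (by simp)
    (fun _ _ => n3) n5)
  rw [g3 e he, n4, div_le_iff₀ (abs_pos.2 (D.σ_ne (right_ne_zero_of_mul (T.ne e (hS he))) _)),
    ← hl e he e₀ h₀]
  exact hw e (hS he)

end

section

open Finset UniqueFactorizationMonoid H70

variable {O : Type*} [CommRing O] [IsDomain O] [IsPrincipalIdealRing O] [NormalizationMonoid O]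
  [DecidableEq O] {V : Type*} [Fintype V] (D : Dat O V)
  (K : Type*) [Field K] [CharZero K] [Algebra O K] [IsFractionRing O K]

include K in
/-- One dyadic range of heights. -/
theorem dyad {α : Type*} (ε : ℝ) (hε : 0 < ε) (hε1 : ε ≤ 1 / 100) :
    ∃ A ε₁ c₀ : ℝ, 0 < ε₁ ∧ 1 ≤ c₀ ∧ ∀ (S : Finset α) (a b c : α → O) (L h : ℝ) (m : ℕ),
      Tr D S a b c L h → Om D L m → A * L ≤ h → (m : ℝ) + 1 ≤ ε₁ * L →
      (∀ e ∈ S, h / 2 ≤ Real.log (D.ht (a e) (b e) (c e))) →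
      (S.card : ℝ) ≤ c₀ * (h + 1) * Real.exp (L / 2 + 13 * ε * L) := by
  classical
  obtain ⟨C₂, c2, H2⟩ := S2 (α := α) ε hε (by linarith)
  obtain ⟨θ₂, k₂, a2, b2, d2, F2⟩ := finClass D K (α := α) (1 / 8) C₂ (by norm_num) (by norm_num) c2
  obtain ⟨η, A₂, e₂, η0, η1, f2, G2⟩ := H2 θ₂ a2 b2
  obtain ⟨M, hM⟩ := exists_nat_ge (1 / ε)
  have M1 : (1 : ℝ) ≤ M := le_trans (by rw [le_div_iff₀ hε]; linarith) hM
  rw [div_le_iff₀ hε] at hM
  obtain ⟨θ₀, hθ⟩ : ∃ θ₀ : ℝ, θ₀ = η / (4 * (M + 1)) := ⟨_, rfl⟩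
  have t0 : 0 < θ₀ := by rw [hθ]; positivity
  have t1 : (M + 1) * θ₀ = η / 4 := by rw [hθ]; field_simp
  have t2 : θ₀ ≤ 1 / 8 := by linarith [mul_le_mul_of_nonneg_right M1 t0.le]
  obtain ⟨θ₁, k₁, a1, b1, d1, F1⟩ := finClass D K (α := α) θ₀ 50 t0 (by linarith) (by norm_num)
  obtain ⟨A₁, e₁, f1, G1⟩ := S1 (α := α) ε θ₁ hε (by linarith) a1 b1
  obtain ⟨d, hd⟩ : ∃ d : ℝ, d = (Fintype.card V : ℕ) := ⟨_, rfl⟩
  have v1 : 1 ≤ d := by rw [hd]; exact_mod_cast D.pos_card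
  obtain ⟨θ₃, k₃, a3, b3, d3, F3⟩ := archClass D K (α := α) (1 / (8 * d)) 50 (by positivity)
    (by rw [div_le_one (by positivity)]; linarith) (by norm_num)
  obtain ⟨A₃, e₃, f3, G3⟩ := S1 (α := α) ε θ₃ hε (by linarith) a3 b3
  have x5 : 1 ≤ Real.exp 5 := Real.one_le_exp (by norm_num)
  refine ⟨|A₁| + |A₂| + |A₃| + 1 / θ₁ + 1 / θ₂ + 1 / θ₃ + 8 * d,
    min (min e₁ (min e₂ e₃)) (ε * θ₀ / 5), 3 * (k₁ + k₃ * Real.exp 5 + k₂), by positivity,
    by linarith only [d1, d2, one_le_mul_of_one_le_of_one_le d3 x5], fun S a b c L h m T hO hA hm hh => ?_⟩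
  have m0 : (0 : ℝ) ≤ m := Nat.cast_nonneg m
  have L0 : 0 < L := (mul_pos_iff_of_pos_left (by positivity)).1 (lt_of_lt_of_le (by linarith only [m0]) hm)
  have me : ∀ x, min (min e₁ (min e₂ e₃)) (ε * θ₀ / 5) ≤ x → (m : ℝ) + 1 ≤ x * L := fun x hx =>
    hm.trans (mul_le_mul_of_nonneg_right hx L0.le)
  have m1 := me _ ((min_le_left _ _).trans (min_le_left _ _))
  have m2 := me _ ((min_le_left _ _).trans ((min_le_right _ _).trans (min_le_left _ _)))
  have m3 := me _ ((min_le_left _ _).trans ((min_le_right _ _).trans (min_le_right _ _)))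
  have m4 := me _ (min_le_right _ _)
  have εL : 0 < ε * L := by positivity
  have m5 : 40 * ((m : ℝ) + 1) ≤ ε * L := by
    linarith only [m4, mul_le_mul_of_nonneg_left t2 εL.le]
  have εL1 : ε * L ≤ L / 100 := by linarith only [mul_le_mul_of_nonneg_right hε1 L0.le]
  have m6 : (m : ℝ) + 1 ≤ L := by linarith only [m5, εL1, m0]
  have m7 : 5 * ((m : ℝ) + 1) / θ₀ ≤ ε * L := by rw [div_le_iff₀ t0]; linarith only [m4]
  have p1 := mul_nonneg (abs_nonneg A₁) L0.le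
  have p2 := mul_nonneg (abs_nonneg A₂) L0.le
  have p3 := mul_nonneg (abs_nonneg A₃) L0.le
  have q1 : 0 < 1 / θ₁ * L := by positivity
  have q2 : 0 < 1 / θ₂ * L := by positivity
  have q3 : 0 < 1 / θ₃ * L := by positivity
  have q4 : d ≤ d * L := le_mul_of_one_le_right (by linarith only [v1]) (by linarith only [m6, m0])
  have r : ∀ A : ℝ, |A| * L ≤ h → A * L ≤ h := fun A hA =>
    (mul_le_mul_of_nonneg_right (le_abs_self A) L0.le).trans hA
  have r' : ∀ θ : ℝ, 0 < θ → 1 / θ * L ≤ h → L ≤ θ * h := fun θ h1 h2 => by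
    rwa [one_div_mul_eq_div, div_le_iff₀' h1] at h2
  have g1 : |A₁| * L ≤ h ∧ |A₂| * L ≤ h ∧ |A₃| * L ≤ h ∧ 1 / θ₁ * L ≤ h ∧ 1 / θ₂ * L ≤ h ∧
      1 / θ₃ * L ≤ h ∧ 8 * d ≤ h := by
    refine ⟨?_, ?_, ?_, ?_, ?_, ?_, ?_⟩ <;> linarith only [hA, p1, p2, p3, q1, q2, q3, q4, v1]
  obtain ⟨g1, g2, g3, g4, g5, g6, h8⟩ := g1
  obtain ⟨E, hE⟩ : ∃ E : ℝ, E = Real.exp (L / 2 + 13 * ε * L) := ⟨_, rfl⟩
  have ex : ∀ k x y : ℝ, 1 ≤ k → x + y ≤ L / 2 + 13 * ε * L →
      k * (h + 1) * Real.exp x * Real.exp y ≤ k * (h + 1) * E := fun k x y h1 h2 => by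
    rw [mul_assoc, ← Real.exp_add, hE]
    exact mul_le_mul_of_nonneg_left (Real.exp_le_exp.2 h2) (mul_nonneg (by linarith only [h1]) (by linarith only [h8, v1]))
  have one : ∀ a b c : α → O, Tr D S a b c L h →
      (∀ e ∈ S, h / 2 ≤ Real.log (D.ht (a e) (b e) (c e))) →
      ((S.filter fun e => η * h / 2 ≤ sml D (ε * L) (a e) ∨
        Real.log (D.N (a e)) ≤ (1 - 1 / 2) * Real.log (D.ht (a e) (b e) (c e)) ∨
        (sml D (ε * L) (b e) + sml D (ε * L) (c e) ≤ η * h ∧ h / 4 ≤ Real.log (D.N (a e)) ∧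
          Real.log (D.rad (a e)) ≤ L / 3)).card : ℝ) ≤
        (k₁ + k₃ * Real.exp 5 + k₂) * (h + 1) * E := fun a b c T hh => by
    have s1 : ((S.filter fun e => η * h / 2 ≤ sml D (ε * L) (a e)).card : ℝ) ≤ k₁ * (h + 1) * E := by
      have : ∀ e ∈ S.filter fun e => η * h / 2 ≤ sml D (ε * L) (a e), ∃ P ⊆ primeFactors (a e),
          ∑ p ∈ P, Real.log (D.N p) ≤ 2 * (ε * L) ∧
            2 * θ₀ * h ≤ ∑ p ∈ P, vv (a e) p * Real.log (D.N p) := fun e he => by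
        obtain ⟨he, h1⟩ := mem_filter.1 he
        obtain ⟨P, h2, h3, h4⟩ := H63.main_cover (fun p => Real.log (D.N p))
          (fun p => vv (a e) p * Real.log (D.N p)) (ε * L) εL.le M
          ((primeFactors (a e)).filter fun p => Real.log (D.N p) < ε * L)
          (fun p _ => mul_nonneg (Nat.cast_nonneg _) (cl_l0 D p))
          ((cl_le D T he (filter_subset _ _)).1.trans
            (by linarith only [mul_le_mul_of_nonneg_right hM L0.le]))
        refine ⟨P, h2.trans (filter_subset _ _), h3.resolve_right ?_,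
          le_of_mul_le_mul_left (le_trans (le_of_eq ?_) (h1.trans h4))
            (show (0 : ℝ) < M + 1 by linarith only [M1])⟩
        · rintro ⟨p, rfl, h5⟩
          exact absurd (mem_filter.1 (h2 (mem_singleton_self p))).2 (not_lt.2 h5)
        · linear_combination 2 * h * t1
      choose! P hP using this
      exact (F1 _ a b c L h m 0 0 (2 * (ε * L)) _ P (T.mono (filter_subset _ _)) hO
        (r' _ a1 g4) m6 (by linarith only [εL]) (Real.exp_pos _).le hP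
        (fun e _ => by simp [cl_sml]) fun n l F β hM =>
          G1 n l F β L h m 0 0 _ hM (by linarith only [εL]) (r _ g1) m1).trans
        (ex _ _ _ d1 (by linarith only [m7]))
    have s2 : ((S.filter fun e => Real.log (D.N (a e)) ≤
        (1 - 1 / 2) * Real.log (D.ht (a e) (b e) (c e))).card : ℝ) ≤
          k₃ * Real.exp 5 * (h + 1) * E := by
      refine (F3 _ a b c L h m _ (T.mono (filter_subset _ _)) hO (r' _ a3 g6) m6
        (Real.exp_pos _).le (fun e he => ?_) fun n l F β hM =>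
          G3 n l F β L h m 0 0 _ hM (by norm_num) (r _ g3) m3).trans ?_
      · obtain ⟨he, h1⟩ := mem_filter.1 he
        have h2 : 1 / (8 * d) * h ≤ Real.log (D.ht (a e) (b e) (c e)) / (4 * d) := by
          rw [le_div_iff₀ (by positivity), show 1 / (8 * d) * h * (4 * d) = h / 2 by field_simp; ring]
          exact hh e he
        have h3 : 1 ≤ 1 / (8 * d) * h := by
          rwa [one_div_mul_eq_div, one_le_div (by positivity)]
        obtain ⟨w, hw⟩ := D.m3_place (T.sum e he)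
          (left_ne_zero_of_mul (left_ne_zero_of_mul (T.ne e he))) h1
          (U := Real.log (D.ht (a e) (b e) (c e)) / (4 * d)) (by rw [← hd]; field_simp; ring)
          (by linarith only [Real.log_two_lt_d9, h2, h3])
        exact ⟨w, hw.trans (mul_le_mul_of_nonneg_right (Real.exp_le_exp.2 (neg_le_neg h2))
          (abs_nonneg _))⟩
      · rw [show L / 2 + 5 + 8 * ε * L = 5 + (0 + (L / 2 + 8 * ε * L)) by ring, Real.exp_add,
          Real.exp_add]
        refine le_trans (le_of_eq (by ring)) (ex _ 0 (L / 2 + 8 * ε * L)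
          (one_le_mul_of_one_le_of_one_le d3 x5) (by linarith only [εL]))
    have s3 : ((S.filter fun e => sml D (ε * L) (b e) + sml D (ε * L) (c e) ≤ η * h ∧
        h / 4 ≤ Real.log (D.N (a e)) ∧ Real.log (D.rad (a e)) ≤ L / 3).card : ℝ) ≤
          k₂ * (h + 1) * E := by
      refine (F2 _ a b c L h m (ε * L) (η * h) (L / 3) _ (fun e => primeFactors (a e))
        (T.mono (filter_subset _ _)) hO (r' _ a2 g5) m6 (by linarith only [L0])
        (Real.exp_pos _).le (fun e he => ?_) (fun e he => (mem_filter.1 he).2.1) fun n l F β hM =>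
          G2 n l F β L h m _ hM (by linarith only [L0]) (r _ g2) m2).trans
        (ex _ _ _ d2 (by linarith only [m5, εL, L0]))
      obtain ⟨he, -, h1, h2⟩ := mem_filter.1 he
      rw [D.main_logN (left_ne_zero_of_mul (left_ne_zero_of_mul (T.ne e he)))] at h1
      exact ⟨subset_rfl, (cl_rad D _).ge.trans h2, le_trans (by linarith only []) h1⟩
    rw [filter_or, filter_or]
    refine (Nat.cast_le.2 ((card_union_le _ _).trans
      (Nat.add_le_add_left (card_union_le _ _) _))).trans ?_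
    push_cast
    linarith only [s1, s2, s3]
  have hh1 : ∀ e ∈ S, h / 2 ≤ Real.log (D.ht (b e) (c e) (a e)) := fun e he => by
    rw [D.main_rot]; exact hh e he
  have hh2 : ∀ e ∈ S, h / 2 ≤ Real.log (D.ht (c e) (a e) (b e)) := fun e he => by
    rw [D.main_rot]; exact hh1 e he
  have o1 := one a b c T hh
  have o2 := one b c a T.rot hh1
  have o3 := one c a b T.rot.rot hh2
  refine le_trans (le_trans (Nat.cast_le.2 ((card_le_card fun e he => ?_).trans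
    ((card_union_le _ _).trans (Nat.add_le_add_right (card_union_le _ _) _))))
    (le_of_eq_of_le (by rw [Nat.cast_add, Nat.cast_add]) (add_le_add (add_le_add o1 o2) o3)))
    (by rw [← hE]; linarith only [])
  have n0 := T.ne e he
  have i1 := hh e he
  have i2 := D.main_rot (a e) (b e) (c e)
  have i3 := D.main_rot (b e) (c e) (a e)
  have i4 := cl_sum D T he
  simp only [mem_union, mem_filter, he, true_and, i3, i2]
  by_contra hc
  simp only [not_or, not_and, not_le] at hc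
  obtain ⟨⟨⟨u1, u2, u3⟩, v1, v2, v3⟩, w1, w2, w3⟩ := hc
  linarith only [i4, u3 (by linarith only [v1, w1]) (by linarith only [u2, i1]),
    v3 (by linarith only [u1, w1]) (by linarith only [v2, i1]),
    w3 (by linarith only [u1, v1]) (by linarith only [w2, i1])]

end

section

open Finset UniqueFactorizationMonoid H70

variable {O : Type*} [CommRing O] [IsDomain O] [IsPrincipalIdealRing O] [NormalizationMonoid O]
  [DecidableEq O] {V : Type*} [Fintype V] (D : Dat O V)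
  (K : Type*) [Field K] [CharZero K] [Algebra O K] [IsFractionRing O K]

include K in
theorem large {α : Type*} (hB : Box D) (ε : ℝ) (hε : 0 < ε) :
    ∃ A C Y₀ : ℝ, 1 ≤ A ∧ 1 ≤ Y₀ ∧ ∀ Y : ℝ, Y₀ ≤ Y → ∀ (S : Finset α) (a b c : α → O),
      (∀ e ∈ S, a e + b e + c e = 0 ∧ IsCoprime (a e) (b e) ∧ a e * b e * c e ≠ 0 ∧
        D.rad (a e * b e * c e) ≤ Y ∧ Y ^ A ≤ D.ht (a e) (b e) (c e)) →
      (∀ e ∈ S, ∀ e' ∈ S, b e * c e' = b e' * c e → e = e') →
      (S.card : ℝ) ≤ C * Y ^ (1 / 2 + ε) := by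
  classical
  obtain ⟨δ, d0, d1, d2⟩ : ∃ δ : ℝ, 0 < δ ∧ δ ≤ 1 / 100 ∧ 15 * δ ≤ ε :=
    ⟨min (1 / 100) (ε / 15), by positivity, min_le_left _ _,
      by linarith only [min_le_right (1 / 100) (ε / 15)]⟩
  obtain ⟨A, ε₁, c₀, e0, c1, H⟩ := dyad D K (α := α) δ d0 d1
  obtain ⟨L₀, hO⟩ := om_ex D hB ε₁ e0
  obtain ⟨C, hC⟩ := H63.main D K δ d0
  refine ⟨max 1 A, (|C| + 1) * (c₀ * (2 * |C| + 1)), Real.exp (max 1 L₀), le_max_left _ _,
    Real.one_le_exp (zero_le_one.trans (le_max_left _ _)), fun Y hY S a b c hS hi => ?_⟩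
  have Y0 : 0 < Y := (Real.exp_pos _).trans_le hY
  obtain ⟨L, rfl⟩ : ∃ L, Y = Real.exp L := ⟨_, (Real.exp_log Y0).symm⟩
  rw [Real.exp_le_exp, max_le_iff] at hY
  obtain ⟨m, hm, hO⟩ := hO L hY.2
  obtain ⟨Z, hZ⟩ : ∃ Z, Z = Real.exp (L * δ) := ⟨_, rfl⟩
  have L0 : 0 ≤ L := zero_le_one.trans hY.1
  have Z1 : 1 ≤ Z := hZ ▸ Real.one_le_exp (by positivity)
  have C0 := abs_nonneg C
  have up : ∀ e ∈ S, Real.log (D.ht (a e) (b e) (c e)) ≤ |C| * Z := fun e he => by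
    obtain ⟨h1, h2, h3, h4, -⟩ := hS e he
    have r0 := zero_le_one.trans (D.one_le_rad (a e * b e * c e))
    refine (hC _ _ _ h1 h2 h3).trans (mul_le_mul (le_abs_self C) ?_ (Real.rpow_nonneg r0 _) C0)
    rw [hZ, Real.exp_mul]
    exact Real.rpow_le_rpow r0 h4 d0.le
  have lo : ∀ e ∈ S, L * max 1 A ≤ Real.log (D.ht (a e) (b e) (c e)) := fun e he => by
    have h5 := (hS e he).2.2.2.2
    rw [← Real.exp_mul] at h5
    exact (Real.le_log_iff_exp_le ((Real.exp_pos _).trans_le h5)).2 h5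
  have dy : ∀ e ∈ S, ∀ k, Nat.log 2 ⌊Real.log (D.ht (a e) (b e) (c e))⌋₊ = k →
      (2 : ℝ) ^ k ≤ Real.log (D.ht (a e) (b e) (c e)) ∧
        Real.log (D.ht (a e) (b e) (c e)) ≤ 2 * 2 ^ k := by
    rintro e he _ rfl
    have h1 := (one_le_mul_of_one_le_of_one_le hY.1 (le_max_left 1 A)).trans (lo e he)
    generalize Real.log (D.ht (a e) (b e) (c e)) = x at h1
    have h2 : ⌊x⌋₊ ≠ 0 := (Nat.floor_pos.2 h1).ne'
    refine ⟨le_trans (by exact_mod_cast Nat.pow_log_le_self 2 h2)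
      (Nat.floor_le (zero_le_one.trans h1)), (Nat.lt_floor_add_one x).le.trans ?_⟩
    rw [← pow_succ']
    exact_mod_cast Nat.lt_pow_succ_log_self one_lt_two ⌊x⌋₊
  refine (fib S (fun e => Nat.log 2 ⌊Real.log (D.ht (a e) (b e) (c e))⌋₊) ((|C| + 1) * Z)
    (c₀ * ((2 * |C| + 1) * Z) * Real.exp (L / 2 + 13 * δ * L)) (by positivity) ?_
    fun S' h1 h2 => ?_).trans ?_
  · refine (Nat.cast_le.2 (card_le_card (t := range (⌊|C| * Z⌋₊ + 1)) fun k hk => ?_)).trans ?_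
    · obtain ⟨e, he, rfl⟩ := mem_image.1 hk
      exact mem_range.2 (Nat.lt_succ_of_le ((Nat.log_le_self _ _).trans (Nat.floor_mono (up e he))))
    · rw [card_range, Nat.cast_succ]
      linarith only [Nat.floor_le (mul_nonneg C0 (zero_le_one.trans Z1)), Z1]
  · rcases S'.eq_empty_or_nonempty with rfl | ⟨e₀, h₀⟩
    · rw [card_empty, Nat.cast_zero]; positivity
    obtain ⟨k, hk⟩ : ∃ k, ∀ e ∈ S', Nat.log 2 ⌊Real.log (D.ht (a e) (b e) (c e))⌋₊ = k :=
      ⟨_, fun e he => h2 e he e₀ h₀⟩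
    have h3 := dy e₀ (h1 h₀) k (hk e₀ h₀)
    refine (H S' a b c L (2 * 2 ^ k) m ⟨fun e he => (hS e (h1 he)).1,
      fun e he => (hS e (h1 he)).2.2.1, fun e he => (hS e (h1 he)).2.1,
      fun e he e' he' => hi e (h1 he) e' (h1 he'), fun e he => (Real.log_le_iff_le_exp
        (one_pos.trans_le (D.one_le_rad _))).2 (hS e (h1 he)).2.2.2.1,
      fun e he => (dy e (h1 he) k (hk e he)).2⟩ hO ?_ hm
      fun e he => le_trans (by linarith only []) (dy e (h1 he) k (hk e he)).1).trans ?_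
    · linarith only [h3.2, lo e₀ (h1 h₀), mul_le_mul_of_nonneg_left (le_max_right 1 A) L0]
    · refine mul_le_mul_of_nonneg_right (mul_le_mul_of_nonneg_left ?_ (by positivity))
        (Real.exp_pos _).le
      linarith only [h3.1, up e₀ (h1 h₀), Z1]
  · rw [← Real.exp_mul]
    refine le_trans (le_of_eq ?_) (mul_le_mul_of_nonneg_left (Real.exp_le_exp.2
      (show L * δ + (L * δ + (L / 2 + 13 * δ * L)) ≤ _ by
        linarith only [mul_le_mul_of_nonneg_left d2 L0])) (by positivity))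
    rw [Real.exp_add (L * δ), Real.exp_add (L * δ), ← hZ]
    ring

end

section

open Finset UniqueFactorizationMonoid H70

theorem box_Icc {s : ℝ} (hs : 0 ≤ s) : ((Icc (-(⌊s⌋₊ : ℤ)) ⌊s⌋₊).card : ℝ) ≤ 2 * s + 1 := by
  have h : ((⌊s⌋₊ : ℤ) + 1 - -(⌊s⌋₊ : ℤ)).toNat = 2 * ⌊s⌋₊ + 1 := by omega
  rw [Int.card_Icc, h]
  push_cast
  linarith only [Nat.floor_le hs]

theorem box_mem {s : ℝ} {x : ℤ} (h : |(x : ℝ)| ≤ s) : x ∈ Icc (-(⌊s⌋₊ : ℤ)) ⌊s⌋₊ := by
  have h1 : x.natAbs ≤ ⌊s⌋₊ := Nat.le_floor (by rw [Nat.cast_natAbs]; exact_mod_cast h)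
  rw [mem_Icc]
  omega

theorem box_Z : Box int_D := by
  refine ⟨3, fun Y hY S h => ?_⟩
  have h1 : S ⊆ Icc (-(⌊Y⌋₊ : ℤ)) ⌊Y⌋₊ := fun p hp => box_mem (by
    simpa [Dat.N, int_D] using (h p hp).2.2)
  have h2 : (S.card : ℝ) ≤ (Icc (-(⌊Y⌋₊ : ℤ)) ⌊Y⌋₊).card := by exact_mod_cast card_le_card h1
  linarith only [h2, box_Icc (zero_le_one.trans hY), hY]

open Gold Real in
theorem box_O [IsDomain GQ] [IsPrincipalIdealRing GQ] [NormalizationMonoid GQ] [DecidableEq GQ] :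
    Box gD := by
  have hb : ∀ p : GQ, ∃ u : GQˣ, p ≠ 0 → 1 ≤ |gσ 0 (u * p)| ∧ |gσ 0 (u * p)| < goldenRatio := by
    intro p
    by_cases hp : p = 0
    · exact ⟨1, fun h => (h hp).elim⟩
    · obtain ⟨k, hk⟩ := gnormal hp
      exact ⟨_, fun _ => hk⟩
  choose u hu using hb
  refine ⟨49, fun Y hY S h => ?_⟩
  have h5 : (2 : ℝ) ≤ √5 := Real.le_sqrt_of_sq_le (by norm_num)
  have hc := card_le_card_of_injOn (s := S)
    (t := Icc (-(⌊Y + 2⌋₊ : ℤ)) ⌊Y + 2⌋₊ ×ˢ Icc (-(⌊(3 : ℝ)⌋₊ : ℤ)) ⌊(3 : ℝ)⌋₊)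
    (fun p => ((u p * p : GQ).im, (u p * p : GQ).re + ⌊((u p * p : GQ).im : ℝ) * goldenRatio⌋))
    (fun p hp => ?_) fun p hp q hq e => ?_
  · rw [card_product] at hc
    have h1 := box_Icc (s := Y + 2) (by linarith only [hY])
    have h2 := box_Icc (s := 3) (by norm_num)
    calc (S.card : ℝ) ≤ ((Icc (-(⌊Y + 2⌋₊ : ℤ)) ⌊Y + 2⌋₊).card : ℝ) *
          (Icc (-(⌊(3 : ℝ)⌋₊ : ℤ)) ⌊(3 : ℝ)⌋₊).card := by exact_mod_cast hc
      _ ≤ (2 * (Y + 2) + 1) * (2 * 3 + 1) := by gcongr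
      _ ≤ _ := by linarith only [hY]
  · obtain ⟨h0, -, h1⟩ := h p hp
    obtain ⟨h2, h3⟩ := hu p h0
    have h4 : |gσ 0 (u p * p)| * |gσ 1 (u p * p)| ≤ Y := by
      rw [map_mul, map_mul, abs_mul, abs_mul, mul_mul_mul_comm, gNunit, one_mul]
      rw [Dat.N, Fin.prod_univ_two] at h1
      exact h1
    simp only [coe_product, Set.mem_prod, mem_coe]
    generalize (u p * p : GQ) = z at h2 h3 h4 ⊢
    have h6 : |gσ 1 z| ≤ Y := (le_mul_of_one_le_left (abs_nonneg _) h2).trans h4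
    have h7 := goldenRatio_lt_two
    have e : gσ 0 z - gσ 1 z = z.im * √5 := by
      rw [gσ_zero, gσ_one, ← goldenRatio_sub_goldenConj]; ring
    refine ⟨box_mem ?_, box_mem ?_⟩
    · have := abs_sub (gσ 0 z) (gσ 1 z)
      rw [e, abs_mul, abs_of_pos (by linarith only [h5] : (0 : ℝ) < √5)] at this
      nlinarith only [abs_nonneg (z.im : ℝ), h5, this, h3, h6, h7]
    · rw [gσ_zero, abs_lt] at h3
      push_cast
      rw [abs_le]
      constructor <;> linarith only [h3.1, h3.2, h7, Int.floor_le ((z.im : ℝ) * goldenRatio),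
        Int.lt_floor_add_one ((z.im : ℝ) * goldenRatio)]
  · have e1 : (u p * p : GQ).im = (u q * q : GQ).im := congrArg Prod.fst e
    have e2 : (u p * p : GQ).re + ⌊((u p * p : GQ).im : ℝ) * goldenRatio⌋ =
      (u q * q : GQ).re + ⌊((u q * q : GQ).im : ℝ) * goldenRatio⌋ := congrArg Prod.snd e
    rw [e1] at e2
    have e3 : (u p * p : GQ) = u q * q := QuadraticAlgebra.ext (add_right_cancel e2) e1
    have e4 : Associated p ((u p : GQ) * p) := ⟨u p, by rw [mul_comm]⟩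
    have e5 : Associated q ((u q : GQ) * q) := ⟨u q, by rw [mul_comm]⟩
    rw [e3] at e4
    exact (e4.trans e5.symm).eq_of_normalized (h p hp).2.1 (h q hq).2.1

theorem large_Z (ε : ℝ) (hε : 0 < ε) : ∃ A C Y₀ : ℝ, 1 ≤ Y₀ ∧ ∀ Y : ℝ, Y₀ ≤ Y →
    ∀ S : Finset (ℕ × ℕ × ℕ), (∀ a b c : ℕ, (a, b, c) ∈ S → 1 ≤ a ∧ 1 ≤ b ∧ a + b = c ∧
      Nat.Coprime a b ∧ ((∏ p ∈ (a * b * c).primeFactors, p : ℕ) : ℝ) ≤ Y ∧ Y ^ A ≤ c) →
    (S.card : ℝ) ≤ C * Y ^ (1 / 2 + ε) := by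
  obtain ⟨A, C, Y₀, -, h0, H⟩ := large (α := ℕ × ℕ × ℕ) int_D ℚ box_Z ε hε
  refine ⟨A, C, Y₀, h0, fun Y hY S h => H Y hY S (fun t => t.1) (fun t => t.2.1)
    (fun t => -(t.2.2 : ℤ)) (fun ⟨a, b, c⟩ he => ?_) fun ⟨a, b, c⟩ he ⟨a', b', c'⟩ he' k => ?_⟩
  · obtain ⟨ha, hb, rfl, hco, h1, h2⟩ := h a b c he
    have hn : a * b * (a + b) ≠ 0 := by positivity
    have e : (a : ℤ) * b * -((a + b : ℕ) : ℤ) = -((a * b * (a + b) : ℕ) : ℤ) := by
      push_cast; ring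
    have hht : int_D.ht a b (-((a + b : ℕ) : ℤ)) = (a + b : ℕ) := by
      have h1 : (0 : ℝ) ≤ a := Nat.cast_nonneg _
      have h2 : (0 : ℝ) ≤ b := Nat.cast_nonneg _
      simp only [Dat.ht, int_D, univ_unique, prod_singleton, eq_intCast,
        Int.cast_neg, Int.cast_natCast, abs_neg, Nat.abs_cast]
      push_cast
      exact max_eq_right (max_le (by linarith only [h2]) (by linarith only [h1]))
    refine ⟨by push_cast; ring, Nat.isCoprime_iff_coprime.2 hco, ?_, ?_, ?_⟩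
    · rw [e, neg_ne_zero]; exact_mod_cast hn
    · rw [e, int_rad _ hn]; exact h1
    · rw [hht]; exact h2
  · obtain ⟨-, hb, rfl, hco, -⟩ := h a b c he
    obtain ⟨-, -, rfl, hco', -⟩ := h a' b' c' he'
    have k1 : (b : ℤ) * a' = b' * a := by
      have k' : (b : ℤ) * -((a' + b' : ℕ) : ℤ) = b' * -((a + b : ℕ) : ℤ) := k
      push_cast at k'
      linear_combination -k'
    have k2 : b * a' = b' * a := by exact_mod_cast k1
    have k3 : b = b' := Nat.dvd_antisymm (hco.symm.dvd_of_dvd_mul_right ⟨a', k2.symm⟩)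
      (hco'.symm.dvd_of_dvd_mul_right ⟨a, k2⟩)
    subst k3
    rw [Nat.eq_of_mul_eq_mul_left hb k2]

open Gold in
theorem large_O (ε : ℝ) (hε : 0 < ε) : ∃ A C Y₀ : ℝ, 1 ≤ Y₀ ∧ ∀ Y : ℝ, Y₀ ≤ Y →
    ∀ S : Finset (H37.O × H37.O × H37.O), (∀ a b c, (a, b, c) ∈ S → ∃ x₁ y₁ x₂ y₂ x₃ y₃ : ℤ,
      (a : ℝ) = (x₁ : ℝ) + (y₁ : ℝ) * Real.goldenRatio ∧
      (b : ℝ) = (x₂ : ℝ) + (y₂ : ℝ) * Real.goldenRatio ∧
      (c : ℝ) = (x₃ : ℝ) + (y₃ : ℝ) * Real.goldenRatio ∧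
      a + b + c = 0 ∧ Ideal.span ({a, b, c} : Set H37.O) = ⊤ ∧ a * b * c ≠ 0 ∧
      H37.rad (a * b * c) ≤ Y ∧ Y ^ A ≤ H37.ht x₁ y₁ x₂ y₂ x₃ y₃) →
    (∀ a b c, ∀ u : H37.Oˣ, (a, b, c) ∈ S → (u * a, u * b, u * c) ∈ S → u = 1) →
    (S.card : ℝ) ≤ C * Y ^ (1 / 2 + ε) := by
  classical
  obtain ⟨e, he⟩ : ∃ e : GQ ≃+* H37.O, ∀ z, (e z : ℝ) = gσ 0 z :=
    ⟨RingEquiv.ofBijective toO toO_bij, fun _ => rfl⟩
  have := gdomain
  have := gpid
  let : StrongNormalizationMonoid GQ := UniqueFactorizationMonoid.strongNormalizationMonoid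
  obtain ⟨A, C, Y₀, -, h0, H⟩ :=
    large (α := H37.O × H37.O × H37.O) gD (FractionRing GQ) box_O ε hε
  refine ⟨A, C, Y₀, h0, fun Y hY S h hu => ?_⟩
  have hcop : ∀ a b c : H37.O, a + b + c = 0 → Ideal.span ({a, b, c} : Set H37.O) = ⊤ →
      IsCoprime a b ∧ IsCoprime b c := fun a b c hs hc => by
    have h1 : (1 : H37.O) ∈ Ideal.span _ := hc ▸ Submodule.mem_top
    obtain ⟨x, y, z, h1⟩ := Submodule.mem_span_triple.1 h1
    simp only [smul_eq_mul] at h1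
    exact ⟨⟨x - z, y - z, by linear_combination h1 - z * hs⟩,
      ⟨y - x, z - x, by linear_combination h1 - x * hs⟩⟩
  refine H Y hY S (fun t => e.symm t.1) (fun t => e.symm t.2.1) (fun t => e.symm t.2.2)
    (fun ⟨a, b, c⟩ hP => ?_) fun ⟨a, b, c⟩ hP ⟨a', b', c'⟩ hP' k => ?_
  · obtain ⟨x₁, y₁, x₂, y₂, x₃, y₃, h₁, h₂, h₃, hs, hc, hn, hr, hH⟩ := h a b c hP
    have k : ∀ (t : H37.O) (x y : ℤ), (t : ℝ) = x + y * Real.goldenRatio → t = e ⟨x, y⟩ :=
      fun t x y h => Subtype.ext (by rw [he, h]; rfl)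
    have h1 := (hcop a b c hs hc).1.map e.symm.toRingHom
    have hn' : e.symm a * e.symm b * e.symm c ≠ 0 := by
      rw [← map_mul, ← map_mul]; exact (map_ne_zero_iff _ e.symm.injective).2 hn
    refine ⟨by rw [← map_add, ← map_add, hs, map_zero], h1, hn', ?_, ?_⟩
    · rw [← grad e hn', map_mul, map_mul, e.apply_symm_apply, e.apply_symm_apply,
        e.apply_symm_apply]
      exact hr
    · rw [k a _ _ h₁, k b _ _ h₂, k c _ _ h₃]
      simp only [e.symm_apply_apply]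
      rw [Dat.ht, Fin.prod_univ_two]
      exact hH
  · obtain ⟨_, _, _, _, _, _, -, -, -, s1, c1, n1, -⟩ := h a b c hP
    obtain ⟨_, _, _, _, _, _, -, -, -, s2, c2, -⟩ := h a' b' c' hP'
    have e' : b * c' = b' * c := e.symm.injective (by rw [map_mul, map_mul]; exact k)
    have hb : b ≠ 0 := right_ne_zero_of_mul (left_ne_zero_of_mul n1)
    obtain ⟨u, rfl⟩ : Associated b b' := associated_of_dvd_dvd
      ((hcop a b c s1 c1).2.dvd_of_dvd_mul_right ⟨c', e'.symm⟩)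
      ((hcop a' b' c' s2 c2).2.dvd_of_dvd_mul_right ⟨c, e'⟩)
    have hc : c' = u * c := mul_left_cancel₀ hb (by linear_combination e')
    have ha : a' = u * a := by linear_combination s2 - (u : H37.O) * s1 - hc
    rw [ha, hc, mul_comm b] at hP' ⊢
    rw [hu a b c u hP hP']
    simp

/-- Gluing of the two ranges of the height. -/
theorem glue {α : Type*} (P : α → ℝ → ℝ → Prop) (Q : Finset α → Prop)
    (hQ : ∀ S S', S' ⊆ S → Q S → Q S') (ε : ℝ)
    (hL : ∃ A C Y₀ : ℝ, 1 ≤ Y₀ ∧ ∀ Y : ℝ, Y₀ ≤ Y → ∀ S : Finset α,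
      (∀ e ∈ S, ∃ r H, P e r H ∧ r ≤ Y ∧ Y ^ A ≤ H) → Q S → (S.card : ℝ) ≤ C * Y ^ (1 / 2 + ε))
    (hM : ∀ A : ℝ, ∃ C : ℝ, ∀ Y : ℝ, 1 ≤ Y → ∀ S : Finset α,
      (∀ e ∈ S, ∃ r H, P e r H ∧ r ≤ Y ∧ H ≤ Y ^ A) → Q S → (S.card : ℝ) ≤ C * Y ^ (5 / 9 + ε))
    (hε : 0 < ε) : ∃ C : ℝ, ∀ Y : ℝ, 1 ≤ Y → ∀ S : Finset α,
      (∀ e ∈ S, ∃ r H, P e r H ∧ r ≤ Y) → Q S → (S.card : ℝ) ≤ C * Y ^ (5 / 9 + ε) := by
  classical
  obtain ⟨A, C, Y₀, h0, hL⟩ := hL
  obtain ⟨C', hM⟩ := hM A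
  refine ⟨(|C| + |C'|) * Y₀ ^ (5 / 9 + ε), fun Y hY S h hS => ?_⟩
  have h1 : Y₀ ≤ Y₀ * Y := le_mul_of_one_le_right (zero_le_one.trans h0) hY
  have h2 : Y ≤ Y₀ * Y := le_mul_of_one_le_left (zero_le_one.trans hY) h0
  rw [mul_assoc, ← Real.mul_rpow (zero_le_one.trans h0) (zero_le_one.trans hY)]
  generalize Y₀ * Y = Z at h1 h2
  have hZ : 1 ≤ Z := h0.trans h1
  have h3 := hL Z h1 _ (fun e he => (mem_filter.1 he).2) (hQ S _ (filter_subset
    (fun e => ∃ r H, P e r H ∧ r ≤ Z ∧ Z ^ A ≤ H) S) hS)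
  have h4 := hM Z hZ _ (fun e he => ?_) (hQ S _ (filter_subset
    (fun e => ¬∃ r H, P e r H ∧ r ≤ Z ∧ Z ^ A ≤ H) S) hS)
  · have h5 := congrArg (Nat.cast : ℕ → ℝ) (card_filter_add_card_filter_not (s := S)
      (fun e => ∃ r H, P e r H ∧ r ≤ Z ∧ Z ^ A ≤ H))
    rw [Nat.cast_add] at h5
    have h6 : Z ^ (1 / 2 + ε) ≤ Z ^ (5 / 9 + ε) :=
      Real.rpow_le_rpow_of_exponent_le hZ (by linarith only [])
    have h7 : 0 ≤ Z ^ (1 / 2 + ε) := by positivity
    have h8 : C * Z ^ (1 / 2 + ε) ≤ |C| * Z ^ (5 / 9 + ε) :=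
      mul_le_mul (le_abs_self C) h6 h7 (abs_nonneg C)
    have h9 := mul_le_mul_of_nonneg_right (le_abs_self C') (h7.trans h6)
    linarith only [h3, h4, h5, h8, h9]
  · obtain ⟨h5, h6⟩ := mem_filter.1 he
    obtain ⟨r, H, h7, h8⟩ := h e h5
    exact ⟨r, H, h7, h8.trans h2, (not_le.1 fun k => h6 ⟨r, H, h7, h8.trans h2, k⟩).le⟩

end

end Pool.Agent.MP_2a5a28_nt.H9
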